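import Pool.Agent.K3h91.Sel.Final

/-!
# Homogeneous selection for colour classes of arbitrary sizes

For every `d ≥ 1` there is `c > 0` such that for all nonempty finite sets `C 0, …, C d` of points
of `ℝ^d`, of arbitrary (different) sizes, there are a point `p` and subsets `D i ⊆ C i` with
`|D i| ≥ c |C i|` such that every transversal of `D 0, …, D d` has `p` in its convex hull.

Everything is proved from scratch, also the case of equal sizes. Proof: Gromov's argument in a
discrete form (cochains modulo 2 on the join of the classes, the faces of a fine axis-parallel grid
in general position instead of a triangulation, and the contracting homotopy of a random base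
transversal instead of a filling inequality) gives a point in a positive fraction of the rainbow
simplices; a weak regularity lemma, centerpoints and separating hyperplanes through this point give
a homogeneous subfamily; points are repeated and perturbed into general position in order to treat
arbitrary sizes.
-/

theorem Pool.Agent.K3h91.Sel.all_sizes :
    ∀ d : ℕ, 1 ≤ d → ∃ c : ℝ, 0 < c ∧
      ∀ C : Fin (d + 1) → Finset (EuclideanSpace ℝ (Fin d)), (∀ i, (C i).Nonempty) →
        ∃ (p : EuclideanSpace ℝ (Fin d)) (D : Fin (d + 1) → Finset (EuclideanSpace ℝ (Fin d))),
          (∀ i, D i ⊆ C i ∧ c * ((C i).card : ℝ) ≤ ((D i).card : ℝ)) ∧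
          ∀ x : Fin (d + 1) → EuclideanSpace ℝ (Fin d), (∀ i, x i ∈ D i) →
            p ∈ convexHull ℝ (Set.range x) := by
  intro d hd
  exact ⟨Pool.Agent.K3h91.Sel.cst d, Pool.Agent.K3h91.Sel.cst_pos d,
    fun C hC => Pool.Agent.K3h91.Sel.arbitrary_sizes d hd C hC⟩
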