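import Pool.Agent.K3h91.Sel.Generic

/-!
Homogeneous selection for finite classes of arbitrary sizes.
-/

set_option autoImplicit false
set_option linter.unusedSectionVars false

namespace Pool.Agent.K3h91.Sel

open Finset

/-- the index set consists of choices of one point in every class, together with a multiplicity;
its elements whose `i`-th point is in `D` -/
lemma card_fibre {ι E : Type} [Fintype ι] [DecidableEq ι] [DecidableEq E] (C : ι → Finset E)
    (n : ℕ) (i : ι) (D : Finset {x // x ∈ C i}) :
    (univ.filter fun p : (∀ i, {x // x ∈ C i}) × Fin n => p.1 i ∈ D).card * (C i).card =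
      D.card * Fintype.card ((∀ i, {x // x ∈ C i}) × Fin n) := by
  classical
  have h1 : (univ.filter fun p : (∀ i, {x // x ∈ C i}) × Fin n => p.1 i ∈ D) =
      (Fintype.piFinset (Function.update (fun l => (univ : Finset {x // x ∈ C l})) i D)) ×ˢ
        (univ : Finset (Fin n)) := by
    ext p
    simp only [Finset.mem_filter, Finset.mem_univ, true_and, Finset.mem_product, and_true,
      Fintype.mem_piFinset]
    constructor
    · intro h l
      by_cases hl : l = i
      · subst hl; rw [Function.update_self]; exact h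
      · rw [Function.update_of_ne hl]; exact mem_univ _
    · intro h
      have := h i
      rwa [Function.update_self] at this
  rw [h1, Finset.card_product, Fintype.card_piFinset, Fintype.card_prod, Fintype.card_pi,
    Finset.card_univ]
  rw [← Finset.mul_prod_erase univ _ (mem_univ i), Function.update_self,
    ← Finset.mul_prod_erase univ (fun l => Fintype.card {x // x ∈ C l}) (mem_univ i)]
  have h2 : ∏ x ∈ univ.erase i,
      (Function.update (fun l => (univ : Finset {x // x ∈ C l})) i D x).card =
      ∏ x ∈ univ.erase i, Fintype.card {y // y ∈ C x} := by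
    refine Finset.prod_congr rfl fun l hl => ?_
    rw [Function.update_of_ne (Finset.ne_of_mem_erase hl), Finset.card_univ]
  rw [h2, Fintype.card_coe (C i)]
  ring

theorem arbitrary_sizes (d : ℕ) (hd : 1 ≤ d) (C : Fin (d + 1) → Finset (EuclideanSpace ℝ (Fin d)))
    (hC : ∀ i, (C i).Nonempty) :
    ∃ (p : EuclideanSpace ℝ (Fin d)) (D : Fin (d + 1) → Finset (EuclideanSpace ℝ (Fin d))),
      (∀ i, D i ⊆ C i ∧ cst d * ((C i).card : ℝ) ≤ ((D i).card : ℝ)) ∧
      ∀ x : Fin (d + 1) → EuclideanSpace ℝ (Fin d), (∀ i, x i ∈ D i) →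
        p ∈ convexHull ℝ (Set.range x) := by
  classical
  set r : ℝ := regC (d + 1) (1 / (Kst d : ℝ)) (1 / (Qst d : ℝ)) with hr
  have hr0 : 0 < r := regC_pos _ _ _ (one_div_pos.2 (Kst_pos' d))
  obtain ⟨n1, hn1⟩ := exists_nat_ge ((2 * d * (d + 1) * Qst d : ℝ) / r)
  set n : ℕ := max (2 ^ (d + 1) * d * Kst d + 1) n1 with hn
  let κ : Type := (∀ i : Fin (d + 1), {x // x ∈ C i}) × Fin n
  have hpi : 0 < Fintype.card (∀ i : Fin (d + 1), {x // x ∈ C i}) :=
    Fintype.card_pos_iff.2 ⟨fun i => ⟨(hC i).choose, (hC i).choose_spec⟩⟩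
  have hκn : n ≤ Fintype.card κ := by
    show n ≤ Fintype.card ((∀ i : Fin (d + 1), {x // x ∈ C i}) × Fin n)
    rw [Fintype.card_prod, Fintype.card_fin]
    exact Nat.le_mul_of_pos_left _ hpi
  have hκ0 : 0 < Fintype.card κ := lt_of_lt_of_le (by rw [hn]; omega) hκn
  obtain ⟨q, B, hB1, hB2⟩ := family_selection (ι := Fin (d + 1)) (κ := κ) (d := d)
    (fun i p j => (p.1 i : EuclideanSpace ℝ (Fin d)) j) hd (Fintype.card_fin _)
    (le_trans (le_max_left _ _) hκn)
    (by
      have h1 : ((n1 : ℕ) : ℝ) ≤ (Fintype.card κ : ℝ) := by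
        exact_mod_cast (le_max_right _ _).trans hκn
      have h2 := hn1.trans h1
      rw [div_le_iff₀ hr0] at h2
      rw [mul_comm (Fintype.card κ : ℝ) r] at h2
      exact h2)
  let D' : ∀ i : Fin (d + 1), Finset {x // x ∈ C i} := fun i =>
    univ.filter fun x => ∃ p ∈ B i, p.1 i = x
  refine ⟨WithLp.toLp 2 q, fun i => (D' i).map (Function.Embedding.subtype _), ?_, ?_⟩
  · intro i
    refine ⟨?_, ?_⟩
    · intro x hx
      rw [Finset.mem_map] at hx
      obtain ⟨y, _, rfl⟩ := hx
      exact y.2
    · rw [Finset.card_map]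
      have h1 : B i ⊆ (univ.filter fun p : κ => p.1 i ∈ D' i) := by
        intro p hp
        simp only [D', Finset.mem_filter, Finset.mem_univ, true_and]
        exact ⟨p, hp, rfl⟩
      have h2 := card_fibre C n i (D' i)
      have h3 := Finset.card_le_card h1
      have h4 : (B i).card * (C i).card ≤ (D' i).card * Fintype.card κ := by
        refine le_trans (Nat.mul_le_mul_right _ h3) (le_of_eq h2)
      have h5 : ((B i).card : ℝ) * ((C i).card : ℝ) ≤ ((D' i).card : ℝ) * (Fintype.card κ : ℝ) := by
        exact_mod_cast h4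
      have h6 : cst d * (Fintype.card κ : ℝ) * ((C i).card : ℝ) ≤
          ((B i).card : ℝ) * ((C i).card : ℝ) :=
        mul_le_mul_of_nonneg_right (hB1 i) (by positivity)
      have h7 : (0 : ℝ) < (Fintype.card κ : ℝ) := by exact_mod_cast hκ0
      refine le_of_mul_le_mul_right ?_ h7
      calc cst d * ((C i).card : ℝ) * (Fintype.card κ : ℝ) =
            cst d * (Fintype.card κ : ℝ) * ((C i).card : ℝ) := by ring
        _ ≤ _ := h6.trans h5
  · intro x hx
    have hx' : ∀ i, ∃ p ∈ B i, ((p.1 i : {x // x ∈ C i}) : EuclideanSpace ℝ (Fin d)) = x i := by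
      intro i
      have := hx i
      rw [Finset.mem_map] at this
      obtain ⟨y, hy, hyx⟩ := this
      simp only [D', Finset.mem_filter, Finset.mem_univ, true_and] at hy
      obtain ⟨p, hp, hpy⟩ := hy
      exact ⟨p, hp, by rw [hpy]; exact hyx⟩
    choose j hjB hjx using hx'
    have h1 := hB2 j hjB
    rw [mem_cv_res] at h1
    obtain ⟨w, h0, _, h2, h3⟩ := h1
    have h4 : (WithLp.toLp 2 q : EuclideanSpace ℝ (Fin d)) = ∑ l, w l • x l := by
      ext i
      simp only [WithLp.ofLp_sum, WithLp.ofLp_smul, Finset.sum_apply,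
        Pi.smul_apply, smul_eq_mul]
      rw [h3 i]
      refine Finset.sum_congr rfl fun l _ => ?_
      rw [hjx l]
    rw [h4]
    exact (convex_convexHull ℝ _).sum_mem (fun l _ => h0 l) h2
      (fun l _ => subset_convexHull ℝ _ ⟨l, rfl⟩)

end Pool.Agent.K3h91.Sel
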