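import Mathlib

/-!
A weak regularity lemma for dense multipartite hypergraphs.
-/

set_option autoImplicit false
set_option linter.unusedSectionVars false

namespace Pool.Agent.K3h91.Sel

open Finset

section

variable {ι κ : Type} [Fintype ι] [DecidableEq ι] [Fintype κ] [DecidableEq κ]

/-- the number of edges inside a box -/
def eds (H : Finset (ι → κ)) (A : ι → Finset κ) : ℕ := (H.filter fun j => ∀ i, j i ∈ A i).card

/-- the volume of a box -/
def vol (A : ι → Finset κ) : ℕ := ∏ i, (A i).card

lemma eds_le_vol (H : Finset (ι → κ)) (A : ι → Finset κ) : eds H A ≤ vol A := by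
  unfold eds vol
  rw [← Fintype.card_piFinset]
  refine Finset.card_le_card ?_
  intro j hj
  rw [Finset.mem_filter] at hj
  exact Fintype.mem_piFinset.2 hj.2

/-- the constant of the regularity lemma -/
noncomputable def regC (m : ℕ) (ε γ : ℝ) : ℝ := ε ^ (1 / (γ ^ m / 2 ^ (m + 1)))

lemma regC_pos (m : ℕ) (ε γ : ℝ) (hε : 0 < ε) : 0 < regC m ε γ := Real.rpow_pos_of_pos hε _

/-- **Weak regularity.** -/
theorem weak_regularity (m : ℕ) (hm : Fintype.card ι = m) (ε γ : ℝ) (hε : 0 < ε)
    (hγ : 0 < γ) (hγ1 : γ ≤ 1) (H : Finset (ι → κ)) (hn : 0 < Fintype.card κ)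
    (hH : ε * (Fintype.card κ : ℝ) ^ m ≤ (H.card : ℝ)) :
    ∃ A : ι → Finset κ, (∀ i, regC m ε γ * (Fintype.card κ : ℝ) ≤ ((A i).card : ℝ)) ∧
        ∀ B : ι → Finset κ, (∀ i, B i ⊆ A i) → (∀ i, γ * ((A i).card : ℝ) ≤ ((B i).card : ℝ)) →
          ∃ j ∈ H, ∀ i, j i ∈ B i := by
  classical
  unfold regC
  set τ : ℝ := γ ^ m / 2 ^ (m + 1) with hτ
  have hγm : 0 < γ ^ m := pow_pos hγ m
  have hγm1 : γ ^ m ≤ 1 := pow_le_one₀ hγ.le hγ1
  have hτ0 : 0 < τ := by positivity
  have h2τ : (2 : ℝ) ^ m * τ = γ ^ m / 2 := by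
    rw [hτ, pow_succ]; field_simp
  have hτ1 : τ ≤ 1 / 2 := by
    have h1 : (1 : ℝ) ≤ 2 ^ m := one_le_pow₀ (by norm_num)
    nlinarith
  set n := Fintype.card κ with hndef
  have hn0 : (0 : ℝ) < n := by exact_mod_cast hn
  -- the maximiser of the potential
  set F : Finset (ι → Finset κ) := univ.filter fun A => ∀ i, (A i).Nonempty with hF
  have hFmem : ∀ A, A ∈ F ↔ ∀ i, (A i).Nonempty := fun A => by simp [hF]
  obtain ⟨k0⟩ := Fintype.card_pos_iff.1 hn
  have hFne : F.Nonempty := ⟨fun _ => univ, (hFmem _).2 fun _ => ⟨k0, mem_univ _⟩⟩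
  obtain ⟨A, hAF, hmax⟩ := Finset.exists_max_image F
    (fun A => (eds H A : ℝ) / (vol A : ℝ) ^ (1 - τ)) hFne
  have hAne := (hFmem A).1 hAF
  have hvolpos : ∀ B ∈ F, (0 : ℝ) < vol B := by
    intro B hB
    unfold vol
    push_cast
    exact Finset.prod_pos fun i _ => by exact_mod_cast Finset.card_pos.2 ((hFmem B).1 hB i)
  have hvA := hvolpos A hAF
  have hfull : (eds H (fun _ => univ) : ℝ) = H.card := by
    unfold eds
    rw [Finset.filter_true_of_mem]
    intro j _ i
    exact mem_univ _
  have hvfull : (vol (fun _ : ι => (univ : Finset κ)) : ℝ) = (n : ℝ) ^ m := by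
    unfold vol
    rw [Finset.prod_const, Finset.card_univ, Finset.card_univ, hm]
    push_cast
    rfl
  have hA1 : ε * ((n : ℝ) ^ m) ^ τ ≤ (eds H A : ℝ) / (vol A : ℝ) ^ (1 - τ) := by
    refine le_trans ?_ (hmax (fun _ => univ) ((hFmem _).2 fun _ => ⟨k0, mem_univ _⟩))
    show _ ≤ (eds H (fun _ => univ) : ℝ) / (vol (fun _ : ι => (univ : Finset κ)) : ℝ) ^ (1 - τ)
    rw [hfull, hvfull, le_div_iff₀ (Real.rpow_pos_of_pos (pow_pos hn0 m) _), mul_assoc,
      ← Real.rpow_add (pow_pos hn0 m)]
    have : τ + (1 - τ) = 1 := by ring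
    rw [this, Real.rpow_one]
    exact hH
  have hvolA : ε ^ (1 / τ) * (n : ℝ) ^ m ≤ vol A := by
    have h1 : (eds H A : ℝ) / (vol A : ℝ) ^ (1 - τ) ≤ (vol A : ℝ) ^ τ := by
      rw [div_le_iff₀ (Real.rpow_pos_of_pos hvA _), ← Real.rpow_add hvA]
      have : τ + (1 - τ) = 1 := by ring
      rw [this, Real.rpow_one]
      exact_mod_cast eds_le_vol H A
    have h2 : ε * ((n : ℝ) ^ m) ^ τ ≤ (vol A : ℝ) ^ τ := hA1.trans h1
    have h3 := Real.rpow_le_rpow (by positivity) h2 (by positivity : (0 : ℝ) ≤ 1 / τ)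
    rw [Real.mul_rpow hε.le (by positivity), ← Real.rpow_mul (by positivity),
      ← Real.rpow_mul hvA.le, mul_one_div_cancel hτ0.ne', Real.rpow_one, Real.rpow_one] at h3
    exact h3
  refine ⟨A, ?_, ?_⟩
  · intro i
    have h1 : (vol A : ℝ) ≤ (A i).card * (n : ℝ) ^ (m - 1) := by
      unfold vol
      rw [← Finset.mul_prod_erase univ (fun i => (A i).card) (mem_univ i)]
      push_cast
      refine mul_le_mul_of_nonneg_left ?_ (by positivity)
      have h2 : ∏ j ∈ univ.erase i, ((A j).card : ℝ) ≤ ∏ _j ∈ univ.erase i, (n : ℝ) := by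
        refine Finset.prod_le_prod (fun _ _ => by positivity) fun j _ => ?_
        exact_mod_cast Finset.card_le_univ _
      refine h2.trans (le_of_eq ?_)
      rw [Finset.prod_const, Finset.card_erase_of_mem (mem_univ i), Finset.card_univ, hm]
    have hm1 : 1 ≤ m := by
      rw [← hm]; exact Fintype.card_pos_iff.2 ⟨i⟩
    have h2 : (n : ℝ) ^ m = n * (n : ℝ) ^ (m - 1) := by
      rw [← pow_succ']; congr 1; omega
    have h3 := hvolA.trans h1
    rw [h2, ← mul_assoc] at h3
    exact le_of_mul_le_mul_right h3 (by positivity)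
  · intro B hBA hBγ
    by_contra hcon
    push Not at hcon
    have heA : (0 : ℝ) < eds H A := by
      have h1 : 0 < ε * ((n : ℝ) ^ m) ^ τ := by positivity
      have h2 := lt_of_lt_of_le h1 hA1
      rwa [div_pos_iff_of_pos_right (Real.rpow_pos_of_pos hvA _)] at h2
    -- the subboxes
    set AS : Finset ι → ι → Finset κ := fun S i => if i ∈ S then A i \ B i else B i with hAS
    have hsubbox : ∀ S : Finset ι, (eds H (AS S) : ℝ) / eds H A ≤
        (1 - τ) * ((vol (AS S) : ℝ) / vol A) + τ := by
      intro S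
      by_cases hS : AS S ∈ F
      · have h1 := hmax (AS S) hS
        have hvS := hvolpos _ hS
        rw [div_le_div_iff₀ (Real.rpow_pos_of_pos hvS _) (Real.rpow_pos_of_pos hvA _)] at h1
        have h2 : (eds H (AS S) : ℝ) / eds H A ≤ ((vol (AS S) : ℝ) / vol A) ^ (1 - τ) := by
          rw [Real.div_rpow hvS.le hvA.le, div_le_div_iff₀ heA (Real.rpow_pos_of_pos hvA _)]
          linarith
        refine h2.trans ?_
        have h3 := Real.geom_mean_le_arith_mean2_weighted (w₁ := 1 - τ) (w₂ := τ)
          (p₁ := (vol (AS S) : ℝ) / vol A) (p₂ := 1) (by linarith) hτ0.le (by positivity)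
          zero_le_one (by ring)
        rwa [Real.one_rpow, mul_one, mul_one] at h3
      · rw [hFmem] at hS
        push Not at hS
        obtain ⟨i, hi⟩ := hS
        have h1 : eds H (AS S) = 0 := by
          unfold eds
          rw [Finset.card_eq_zero, Finset.filter_eq_empty_iff]
          intro j _ h
          have := h i
          rw [hi] at this
          exact absurd this (Finset.notMem_empty _)
        rw [h1]
        have : 0 ≤ (1 - τ) * ((vol (AS S) : ℝ) / vol A) := by
          refine mul_nonneg (by linarith) (by positivity)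
        simp only [Nat.cast_zero, zero_div]
        linarith
    have hcover : (eds H A : ℝ) ≤ ∑ S ∈ (univ : Finset (Finset ι)).erase ∅, (eds H (AS S) : ℝ) := by
      have : eds H A ≤ ∑ S ∈ (univ : Finset (Finset ι)).erase ∅, eds H (AS S) := by
        unfold eds
        refine le_trans (Finset.card_le_card ?_) Finset.card_biUnion_le
        intro j hj
        rw [Finset.mem_filter] at hj
        obtain ⟨i, hi⟩ := hcon j hj.1
        rw [Finset.mem_biUnion]
        refine ⟨univ.filter fun i => j i ∉ B i, ?_, ?_⟩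
        · rw [Finset.mem_erase]
          refine ⟨?_, mem_univ _⟩
          intro h
          rw [Finset.filter_eq_empty_iff] at h
          exact h (mem_univ i) hi
        · rw [Finset.mem_filter]
          refine ⟨hj.1, fun i => ?_⟩
          by_cases hiB : j i ∈ B i
          · simp [hAS, hiB]
          · simp [hAS, hiB, hj.2 i]
      exact_mod_cast this
    have hvolsum : ∑ S ∈ (univ : Finset (Finset ι)).erase ∅, (vol (AS S) : ℝ) =
        vol A - vol B := by
      have h1 : ∑ S : Finset ι, (vol (AS S) : ℝ) = vol A := by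
        have h2 : (vol A : ℝ) = ∏ i, (((A i \ B i).card : ℝ) + ((B i).card : ℝ)) := by
          unfold vol
          push_cast
          refine Finset.prod_congr rfl fun i _ => ?_
          rw [← Nat.cast_add, Finset.card_sdiff_add_card_eq_card (hBA i)]
        rw [h2, Finset.prod_add, Finset.powerset_univ]
        refine Finset.sum_congr rfl fun S _ => ?_
        unfold vol
        push_cast
        rw [← Finset.prod_mul_prod_compl S]
        congr 1
        · refine Finset.prod_congr rfl fun i hi => ?_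
          simp [hAS, hi]
        · rw [Finset.compl_eq_univ_sdiff]
          refine Finset.prod_congr rfl fun i hi => ?_
          have : i ∉ S := by simpa using hi
          simp [hAS, this]
      rw [← h1, ← Finset.add_sum_erase univ _ (mem_univ (∅ : Finset ι))]
      have : (vol (AS ∅) : ℝ) = vol B := by
        simp [hAS]
      rw [this]; ring
    have hvolB : γ ^ m * (vol A : ℝ) ≤ vol B := by
      unfold vol
      push_cast
      have : γ ^ m * ∏ i, ((A i).card : ℝ) = ∏ i, (γ * ((A i).card : ℝ)) := by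
        rw [Finset.prod_mul_distrib, Finset.prod_const, Finset.card_univ, hm]
      rw [this]
      exact Finset.prod_le_prod (fun _ _ => by positivity) fun i _ => hBγ i
    have h1 : (1 : ℝ) ≤ ∑ S ∈ (univ : Finset (Finset ι)).erase ∅,
        ((1 - τ) * ((vol (AS S) : ℝ) / vol A) + τ) := by
      calc (1 : ℝ) = (eds H A : ℝ) / eds H A := (div_self heA.ne').symm
        _ ≤ (∑ S ∈ (univ : Finset (Finset ι)).erase ∅, (eds H (AS S) : ℝ)) / eds H A := by
            gcongr
        _ = ∑ S ∈ (univ : Finset (Finset ι)).erase ∅, (eds H (AS S) : ℝ) / eds H A := by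
            rw [Finset.sum_div]
        _ ≤ _ := Finset.sum_le_sum fun S _ => hsubbox S
    rw [Finset.sum_add_distrib, ← Finset.mul_sum, ← Finset.sum_div, hvolsum, Finset.sum_const,
      nsmul_eq_mul] at h1
    have h2 : (((univ : Finset (Finset ι)).erase ∅).card : ℝ) ≤ 2 ^ m := by
      have : ((univ : Finset (Finset ι)).erase ∅).card ≤ 2 ^ m := by
        refine (Finset.card_erase_le).trans ?_
        rw [Finset.card_univ, Fintype.card_finset, hm]
      exact_mod_cast this
    have h3 : ((vol A : ℝ) - vol B) / vol A ≤ 1 - γ ^ m := by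
      rw [div_le_iff₀ hvA]
      nlinarith
    have h4 : (1 - τ) * (((vol A : ℝ) - vol B) / vol A) ≤ (1 - τ) * (1 - γ ^ m) :=
      mul_le_mul_of_nonneg_left h3 (by linarith)
    have h5 : (((univ : Finset (Finset ι)).erase ∅).card : ℝ) * τ ≤ γ ^ m / 2 := by
      rw [← h2τ]
      exact mul_le_mul_of_nonneg_right h2 hτ0.le
    have h6 : (1 - τ) * (1 - γ ^ m) ≤ 1 - γ ^ m := by nlinarith
    linarith

end

end Pool.Agent.K3h91.Sel
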