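import Pool.Agent.K3h91.Sel.Sparse

/-!
Centerpoints, simultaneous halving by a hyperplane through a given point, and homogeneous
subfamilies: in the subfamilies found here either all or no rainbow simplices contain the given
point.
-/

set_option autoImplicit false
set_option linter.unusedSectionVars false

namespace Pool.Agent.K3h91.Sel

open Finset

section

variable {ι κ : Type} [Fintype ι] [DecidableEq ι] [Fintype κ] [DecidableEq κ] {d : ℕ}

/-- the centerpoint theorem -/
lemma centerpoint (p : κ → Fin d → ℝ) (A : Finset κ) :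
    ∃ z : Fin d → ℝ, ∀ L : (Fin d → ℝ) →ₗ[ℝ] ℝ,
      A.card ≤ (d + 1) * (A.filter fun k => L z ≤ L (p k)).card := by
  classical
  set F : Finset (Finset κ) := A.powerset.filter fun T => (d + 1) * (A \ T).card < A.card with hF
  have hFmem : ∀ T, T ∈ F ↔ T ⊆ A ∧ (d + 1) * (A \ T).card < A.card := fun T => by simp [hF]
  have hne : (⋂ T ∈ F, convexHull ℝ (p '' (T : Set κ))).Nonempty := by
    refine Convex.helly_theorem' (𝕜 := ℝ) (fun T _ => convex_convexHull ℝ _) ?_
    intro I hI hIc
    rw [Module.finrank_fintype_fun_eq_card, Fintype.card_fin] at hIc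
    by_cases hI0 : I = ∅
    · rw [hI0]; simp
    -- a common element
    have hex : ∃ k ∈ A, ∀ T ∈ I, k ∈ T := by
      by_contra hcon
      push Not at hcon
      have hcov : A ⊆ I.biUnion fun T => A \ T := by
        intro k hk
        obtain ⟨T, hT, hkT⟩ := hcon k hk
        exact Finset.mem_biUnion.2 ⟨T, hT, Finset.mem_sdiff.2 ⟨hk, hkT⟩⟩
      have h1 : A.card ≤ ∑ T ∈ I, (A \ T).card :=
        (Finset.card_le_card hcov).trans Finset.card_biUnion_le
      have h2 : (d + 1) * ∑ T ∈ I, (A \ T).card < (d + 1) * A.card := by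
        rw [Finset.mul_sum]
        calc ∑ T ∈ I, (d + 1) * (A \ T).card < ∑ T ∈ I, A.card :=
              Finset.sum_lt_sum_of_nonempty (Finset.nonempty_iff_ne_empty.2 hI0)
                (fun T hT => ((hFmem T).1 (hI hT)).2)
          _ = I.card * A.card := by rw [Finset.sum_const, smul_eq_mul]
          _ ≤ (d + 1) * A.card := Nat.mul_le_mul_right _ hIc
      have h3 := Nat.lt_of_mul_lt_mul_left h2
      omega
    obtain ⟨k, _, hk⟩ := hex
    refine ⟨p k, ?_⟩
    simp only [Set.mem_iInter]
    intro T hT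
    exact subset_convexHull ℝ _ ⟨k, Finset.mem_coe.2 (hk T hT), rfl⟩
  obtain ⟨z, hz⟩ := hne
  refine ⟨z, fun L => ?_⟩
  by_contra hcon
  push Not at hcon
  have hT : (A.filter fun k => L (p k) < L z) ∈ F := by
    rw [hFmem]
    refine ⟨Finset.filter_subset _ _, ?_⟩
    have : A \ (A.filter fun k => L (p k) < L z) = A.filter fun k => L z ≤ L (p k) := by
      ext k
      simp only [Finset.mem_sdiff, Finset.mem_filter, not_and, not_lt]
      tauto
    rw [this]
    exact hcon
  have h1 : z ∈ convexHull ℝ (p '' ((A.filter fun k => L (p k) < L z : Finset κ) : Set κ)) := by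
    simp only [Set.mem_iInter] at hz
    exact hz _ hT
  have h2 : convexHull ℝ (p '' ((A.filter fun k => L (p k) < L z : Finset κ) : Set κ)) ⊆
      {y | L y < L z} := by
    refine convexHull_min ?_ ?_
    · rintro _ ⟨k, hk, rfl⟩
      rw [Finset.mem_coe, Finset.mem_filter] at hk
      exact hk.2
    · exact convex_halfSpace_lt L.isLinear _
  have h3 : L z < L z := h2 h1
  exact lt_irrefl _ h3

/-- a hyperplane contains at most `d` points -/
lemma few_on_hyperplane {X : ι → κ → Fin d → ℝ} (hX : GP X) (L : (Fin d → ℝ) →ₗ[ℝ] ℝ)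
    (hL : L ≠ 0) (b : ℝ) : (univ.filter fun v : ι × κ => L (X v.1 v.2) = b).card ≤ d := by
  classical
  by_contra hcon
  push Not at hcon
  obtain ⟨Z, hZ, hZc⟩ := Finset.exists_subset_card_eq (Nat.succ_le_of_lt hcon)
  let g : (Z → ℝ) →ₗ[ℝ] (ℝ × (Fin d → ℝ)) :=
    { toFun := fun μ => (∑ v, μ v, ∑ v : Z, μ v • X v.1.1 v.1.2)
      map_add' := by
        intro a c
        simp [Finset.sum_add_distrib, add_smul]
      map_smul' := by
        intro a c
        simp [Finset.mul_sum, Finset.smul_sum, mul_smul] }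
  have hnsurj : ¬ Function.Surjective g := by
    intro hs
    obtain ⟨y, hy⟩ : ∃ y, L y ≠ 0 := by
      by_contra h
      push Not at h
      exact hL (LinearMap.ext h)
    obtain ⟨μ, hμ⟩ := hs (0, y)
    have h1 : ∑ v, μ v = 0 := congrArg Prod.fst hμ
    have h2 : ∑ v : Z, μ v • X v.1.1 v.1.2 = y := congrArg Prod.snd hμ
    apply hy
    rw [← h2, map_sum]
    have h3 : ∀ v ∈ (univ : Finset Z), L (μ v • X v.1.1 v.1.2) = μ v * b := by
      intro v _
      rw [map_smul, smul_eq_mul]
      have := (Finset.mem_filter.1 (hZ v.2)).2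
      rw [this]
    rw [Finset.sum_congr rfl h3, ← Finset.sum_mul, h1, zero_mul]
  have hninj : ¬ Function.Injective g := by
    intro hi
    apply hnsurj
    refine (LinearMap.injective_iff_surjective_of_finrank_eq_finrank ?_).1 hi
    rw [Module.finrank_fintype_fun_eq_card, Fintype.card_coe, hZc, Module.finrank_prod,
      Module.finrank_self, Module.finrank_fintype_fun_eq_card, Fintype.card_fin]
    omega
  rw [← LinearMap.ker_eq_bot] at hninj
  obtain ⟨μ, hμ, hμ0⟩ := Submodule.exists_mem_ne_zero_of_ne_bot hninj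
  rw [LinearMap.mem_ker] at hμ
  have h1 : ∑ v, μ v = 0 := congrArg Prod.fst hμ
  have h2 : ∑ v : Z, μ v • X v.1.1 v.1.2 = 0 := congrArg Prod.snd hμ
  set ν : ι × κ → ℝ := fun v => if h : v ∈ Z then μ ⟨v, h⟩ else 0 with hν
  have hsum : ∀ f : ι × κ → ℝ, ∑ v, ν v * f v = ∑ v : Z, μ v * f v.1 := by
    intro f
    rw [← Finset.sum_subset (Finset.subset_univ Z) (fun l _ hl => by simp [hν, hl]),
      ← Finset.sum_coe_sort Z]
    refine Finset.sum_congr rfl fun l _ => ?_
    simp [hν]
  have hν0 : ν = 0 := by
    refine hX ν ?_ ?_ ?_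
    · rw [← Nat.succ_eq_add_one, ← hZc]
      refine Finset.card_le_card ?_
      intro v hv
      rw [Finset.mem_filter] at hv
      by_contra h
      exact hv.2 (by simp [hν, h])
    · have := hsum (fun _ => 1)
      simp only [mul_one] at this
      rw [this, h1]
    · intro j
      rw [hsum (fun v => X v.1 v.2 j)]
      have := congrFun h2 j
      simpa [Finset.sum_apply] using this
  apply hμ0
  funext v
  have := congrFun hν0 v.1
  simpa [hν] using this

/-- the sign attached to a Boolean -/
def sg (b : Bool) : ℝ := if b then 1 else -1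

lemma exists_functional (hd : 1 ≤ d) (hι : Fintype.card ι = d + 1) (k : ι)
    (v : ι → Fin d → ℝ) : ∃ L : (Fin d → ℝ) →ₗ[ℝ] ℝ, L ≠ 0 ∧ ∀ i, i ≠ k → 0 ≤ L (v i) := by
  classical
  let Φ : ((Fin d → ℝ) →ₗ[ℝ] ℝ) →ₗ[ℝ] ({i : ι // i ≠ k} → ℝ) :=
    { toFun := fun L i => L (v i.1)
      map_add' := fun _ _ => rfl
      map_smul' := fun _ _ => rfl }
  have hcard : Fintype.card {i : ι // i ≠ k} = d := by
    rw [Fintype.card_subtype_compl, hι, Fintype.card_subtype_eq]
    omega
  have hfr : Module.finrank ℝ ((Fin d → ℝ) →ₗ[ℝ] ℝ) = Module.finrank ℝ ({i : ι // i ≠ k} → ℝ) := by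
    rw [Module.finrank_fintype_fun_eq_card, hcard, Module.finrank_linearMap,
      Module.finrank_fintype_fun_eq_card, Fintype.card_fin, Module.finrank_self, mul_one]
  by_cases hinj : Function.Injective Φ
  · have hsurj := (LinearMap.injective_iff_surjective_of_finrank_eq_finrank hfr).1 hinj
    obtain ⟨L, hL⟩ := hsurj (fun _ => 1)
    refine ⟨L, ?_, ?_⟩
    · rintro rfl
      have hne : Nonempty {i : ι // i ≠ k} := Fintype.card_pos_iff.1 (by omega)
      obtain ⟨i⟩ := hne
      have := congrFun hL i
      simp [Φ] at this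
    · intro i hi
      have := congrFun hL ⟨i, hi⟩
      have h2 : L (v i) = 1 := this
      rw [h2]; exact zero_le_one
  · rw [← LinearMap.ker_eq_bot] at hinj
    obtain ⟨L, hL, hL0⟩ := Submodule.exists_mem_ne_zero_of_ne_bot hinj
    rw [LinearMap.mem_ker] at hL
    refine ⟨L, hL0, fun i hi => ?_⟩
    have h2 : L (v i) = 0 := congrFun hL ⟨i, hi⟩
    rw [h2]

/-- the property of a family of classes attached to an omitted colour and a pattern of signs -/
def Sep (X : ι → κ → Fin d → ℝ) (z : Fin d → ℝ) (B : ι → Finset κ) (p : ι × (ι → Bool)) : Prop :=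
  ∃ L : (Fin d → ℝ) →ₗ[ℝ] ℝ, ∀ i, i ≠ p.1 → ∀ k ∈ B i, 0 < sg (p.2 i) * L (X i k - z)

lemma Sep.mono {X : ι → κ → Fin d → ℝ} {z : Fin d → ℝ} {B B' : ι → Finset κ}
    {p : ι × (ι → Bool)} (h : Sep X z B p) (hB : ∀ i, B' i ⊆ B i) : Sep X z B' p := by
  obtain ⟨L, hL⟩ := h
  exact ⟨L, fun i hi k hk => hL i hi k (hB i hk)⟩

lemma sep_step {X : ι → κ → Fin d → ℝ} (hX : GP X) (hd : 1 ≤ d) (hι : Fintype.card ι = d + 1)
    (z : Fin d → ℝ) (A : ι → Finset κ) (p : ι × (ι → Bool)) :
    ∃ B : ι → Finset κ, (∀ i, B i ⊆ A i) ∧ Sep X z B p ∧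
      ∀ i, (A i).card ≤ (d + 1) * ((B i).card + d) := by
  classical
  have hcen : ∀ i, ∃ y : Fin d → ℝ, ∀ L : (Fin d → ℝ) →ₗ[ℝ] ℝ,
      (A i).card ≤ (d + 1) * ((A i).filter fun k => L y ≤ L (X i k)).card :=
    fun i => centerpoint (X i) (A i)
  choose y hy using hcen
  obtain ⟨L, hL0, hL⟩ := exists_functional hd hι p.1 (fun i => sg (p.2 i) • (y i - z))
  set B : ι → Finset κ := fun i => if i = p.1 then A i else
    (A i).filter fun k => 0 < sg (p.2 i) * L (X i k - z) with hB
  refine ⟨B, ?_, ?_, ?_⟩
  · intro i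
    simp only [hB]
    split_ifs
    · exact subset_rfl
    · exact Finset.filter_subset _ _
  · refine ⟨L, fun i hi k hk => ?_⟩
    simp only [hB, if_neg hi, Finset.mem_filter] at hk
    exact hk.2
  · intro i
    by_cases hi : i = p.1
    · simp only [hB, if_pos hi]
      nlinarith [Nat.zero_le (A i).card]
    · simp only [hB, if_neg hi]
      have h1 := hy i (sg (p.2 i) • L)
      refine h1.trans (Nat.mul_le_mul_left _ ?_)
      have hsub : ((A i).filter fun k => (sg (p.2 i) • L) (y i) ≤ (sg (p.2 i) • L) (X i k)) ⊆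
          ((A i).filter fun k => 0 < sg (p.2 i) * L (X i k - z)) ∪
          (univ.filter fun v : ι × κ => L (X v.1 v.2) = L z).image Prod.snd := by
        intro k hk
        rw [Finset.mem_filter] at hk
        obtain ⟨hkA, hk⟩ := hk
        rw [Finset.mem_union, Finset.mem_filter, Finset.mem_image]
        have h2 := hL i hi
        rw [map_smul, smul_eq_mul, map_sub] at h2
        simp only [LinearMap.smul_apply, smul_eq_mul] at hk
        have h3 : 0 ≤ sg (p.2 i) * L (X i k - z) := by
          rw [map_sub]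
          have e1 : sg (p.2 i) * (L (y i) - L z) = sg (p.2 i) * L (y i) - sg (p.2 i) * L z := by ring
          have e2 : sg (p.2 i) * (L (X i k) - L z) =
            sg (p.2 i) * L (X i k) - sg (p.2 i) * L z := by ring
          rw [e1] at h2
          rw [e2]
          linarith
        rcases lt_or_eq_of_le h3 with h4 | h4
        · left; exact ⟨hkA, h4⟩
        · right
          refine ⟨(i, k), ?_, rfl⟩
          rw [Finset.mem_filter]
          refine ⟨mem_univ _, ?_⟩
          have h5 : sg (p.2 i) ≠ 0 := by unfold sg; split_ifs <;> norm_num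
          have h6 := (mul_eq_zero.1 h4.symm).resolve_left h5
          rw [map_sub, sub_eq_zero] at h6
          exact h6
      refine (Finset.card_le_card hsub).trans ((Finset.card_union_le _ _).trans ?_)
      exact Nat.add_le_add_left (Finset.card_image_le.trans (few_on_hyperplane hX L hL0 _)) _

lemma sep_iterate {X : ι → κ → Fin d → ℝ} (hX : GP X) (hd : 1 ≤ d)
    (hι : Fintype.card ι = d + 1) (z : Fin d → ℝ) (P : Finset (ι × (ι → Bool)))
    (A : ι → Finset κ)
    (hA : ∀ i, 2 * d * (d + 1) * (2 * (d + 1)) ^ P.card ≤ (A i).card) :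
    ∃ B : ι → Finset κ, (∀ i, B i ⊆ A i) ∧ (∀ p ∈ P, Sep X z B p) ∧
      ∀ i, (A i).card ≤ (2 * (d + 1)) ^ P.card * (B i).card := by
  classical
  induction P using Finset.induction_on with
  | empty =>
    refine ⟨A, fun _ => subset_rfl, by simp, fun i => by simp⟩
  | insert p P hp ih =>
    rw [Finset.card_insert_of_notMem hp] at hA ⊢
    have hQ : 1 ≤ 2 * (d + 1) := by omega
    obtain ⟨B, hB1, hB2, hB3⟩ := ih (fun i => le_trans (Nat.mul_le_mul_left _
      (Nat.pow_le_pow_right (by omega) (Nat.le_succ _))) (hA i))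
    obtain ⟨B', hB1', hB2', hB3'⟩ := sep_step hX hd hι z B p
    refine ⟨B', fun i => (hB1' i).trans (hB1 i), ?_, ?_⟩
    · intro q hq
      rcases Finset.mem_insert.1 hq with rfl | hq
      · exact hB2'
      · exact (hB2 q hq).mono hB1'
    · intro i
      have h1 := hB3 i
      have h2 := hB3' i
      have h3 := hA i
      have hpow : 0 < (2 * (d + 1)) ^ P.card := by positivity
      have h4 : 2 * d * (d + 1) ≤ (B i).card := by
        have h5 : (2 * (d + 1)) ^ P.card * (2 * d * (d + 1) * (2 * (d + 1))) ≤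
            (2 * (d + 1)) ^ P.card * (B i).card := by
          refine le_trans (le_of_eq ?_) (h3.trans h1)
          ring
        have h6 := Nat.le_of_mul_le_mul_left h5 hpow
        refine le_trans ?_ h6
        exact Nat.le_mul_of_pos_right _ (by omega)
      have h5 : (B i).card ≤ 2 * (d + 1) * (B' i).card := by nlinarith
      calc (A i).card ≤ (2 * (d + 1)) ^ P.card * (B i).card := h1
        _ ≤ (2 * (d + 1)) ^ P.card * (2 * (d + 1) * (B' i).card) := Nat.mul_le_mul_left _ h5
        _ = _ := by ring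

/-- linear independence from separation -/
lemma sep_indep {X : ι → κ → Fin d → ℝ} {z : Fin d → ℝ} {B : ι → Finset κ}
    (hB : ∀ p : ι × (ι → Bool), Sep X z B p) (k : ι) (u : ι → Fin d → ℝ)
    (hu : ∀ i, i ≠ k → u i ∈ convexHull ℝ ((fun a => X i a) '' (B i : Set κ)))
    (a : ι → ℝ) (ha : ∃ i, i ≠ k ∧ a i ≠ 0) (hak : a k = 0)
    (hsum : ∑ i, a i • (u i - z) = 0) : False := by
  classical
  obtain ⟨L, hL⟩ := hB (k, fun i => decide (0 ≤ a i))
  have hpos : ∀ i, i ≠ k → 0 < sg (decide (0 ≤ a i)) * L (u i - z) := by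
    intro i hi
    have hsub : convexHull ℝ ((fun a => X i a) '' (B i : Set κ)) ⊆
        {y | sg (decide (0 ≤ a i)) * L z < (sg (decide (0 ≤ a i)) • L) y} := by
      refine convexHull_min ?_ ?_
      · rintro _ ⟨b, hb, rfl⟩
        have := hL i hi b (Finset.mem_coe.1 hb)
        rw [map_sub, mul_sub] at this
        simp only [Set.mem_ofPred_eq, LinearMap.smul_apply, smul_eq_mul]
        linarith
      · exact convex_halfSpace_gt (LinearMap.isLinear _) _
    have := hsub (hu i hi)
    simp only [Set.mem_ofPred_eq, LinearMap.smul_apply, smul_eq_mul] at this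
    rw [map_sub, mul_sub]
    linarith
  have h0 : ∑ i, a i * L (u i - z) = 0 := by
    have := congrArg L hsum
    rw [map_sum, map_zero] at this
    simpa using this
  have hterm : ∀ i, 0 ≤ a i * L (u i - z) := by
    intro i
    by_cases hi : i = k
    · rw [hi, hak, zero_mul]
    · have := hpos i hi
      by_cases hai : 0 ≤ a i
      · simp only [sg, hai, decide_true, if_true, one_mul] at this
        positivity
      · simp only [sg, hai, decide_false, Bool.false_eq_true, if_false, neg_mul, one_mul] at this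
        push Not at hai
        nlinarith
  obtain ⟨i, hi, hai⟩ := ha
  have h1 : 0 < a i * L (u i - z) := by
    have := hpos i hi
    rcases lt_or_gt_of_ne hai with h | h
    · simp only [sg, not_le.2 h, decide_false, Bool.false_eq_true, if_false, neg_mul,
        one_mul] at this
      nlinarith
    · simp only [sg, h.le, decide_true, if_true, one_mul] at this
      positivity
  have h2 := Finset.sum_pos' (fun i _ => hterm i) ⟨i, mem_univ i, h1⟩
  linarith

/-- exchange of one vertex -/
lemma exchange {X : ι → κ → Fin d → ℝ} {z : Fin d → ℝ} {B : ι → Finset κ}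
    (hι : Fintype.card ι = d + 1)
    (hB : ∀ p : ι × (ι → Bool), Sep X z B p) (j : ι → κ) (hj : ∀ i, j i ∈ B i)
    (hz : z ∈ cv X (res univ j)) (i0 : ι) (b : κ) (hb : b ∈ B i0) :
    z ∈ cv X (res univ (Function.update j i0 b)) := by
  classical
  rw [mem_cv_res] at hz ⊢
  obtain ⟨w, w0, _, w2, w3⟩ := hz
  have hmem : ∀ i, ∀ a ∈ B i, X i a ∈ convexHull ℝ ((fun a => X i a) '' (B i : Set κ)) :=
    fun i a ha => subset_convexHull ℝ _ ⟨a, Finset.mem_coe.2 ha, rfl⟩
  have hwz : ∑ i, w i • (X i (j i) - z) = 0 := by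
    funext m
    simp only [Finset.sum_apply, Pi.smul_apply, Pi.sub_apply, smul_eq_mul, Pi.zero_apply, mul_sub,
      Finset.sum_sub_distrib, ← Finset.sum_mul, w2, w3 m]
    ring
  have hwpos : ∀ k, 0 < w k := by
    intro k
    by_contra hk
    have hk0 : w k = 0 := le_antisymm (not_lt.1 hk) (w0 k)
    refine sep_indep hB k (fun i => X i (j i)) (fun i _ => hmem i _ (hj i)) w ?_ hk0 hwz
    by_contra hcon
    push Not at hcon
    rw [Finset.sum_eq_zero] at w2
    · exact zero_ne_one w2
    · intro i _
      by_cases hi : i = k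
      · rw [hi, hk0]
      · exact hcon i hi
  set j' := Function.update j i0 b with hj'
  have hj'B : ∀ i, j' i ∈ B i := by
    intro i
    by_cases hi : i = i0
    · subst hi; rw [hj', Function.update_self]; exact hb
    · rw [hj', Function.update_of_ne hi]; exact hj i
  -- a dependency of the new vectors
  obtain ⟨a, ha0, ha⟩ : ∃ a : ι → ℝ, a ≠ 0 ∧ ∑ i, a i • (X i (j' i) - z) = 0 := by
    let g : (ι → ℝ) →ₗ[ℝ] (Fin d → ℝ) :=
      { toFun := fun a => ∑ i, a i • (X i (j' i) - z)
        map_add' := by intro a c; simp [Finset.sum_add_distrib, add_smul]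
        map_smul' := by intro a c; simp [Finset.smul_sum, mul_smul] }
    have hker : LinearMap.ker g ≠ ⊥ := by
      apply LinearMap.ker_ne_bot_of_finrank_lt
      rw [Module.finrank_fintype_fun_eq_card, Module.finrank_fintype_fun_eq_card, Fintype.card_fin,
        hι]
      omega
    obtain ⟨a, ha, ha0⟩ := Submodule.exists_mem_ne_zero_of_ne_bot hker
    exact ⟨a, ha0, LinearMap.mem_ker.1 ha⟩
  have haii : a i0 ≠ 0 := by
    intro h
    refine sep_indep hB i0 (fun i => X i (j' i)) (fun i _ => hmem i _ (hj'B i)) a ?_ h ha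
    by_contra hcon
    push Not at hcon
    apply ha0
    funext i
    by_cases hi : i = i0
    · rw [hi]; exact h
    · exact hcon i hi
  set μ : ι → ℝ := fun i => a i / a i0 with hμ
  have hμ0 : μ i0 = 1 := div_self haii
  have hμz : ∑ i, μ i • (X i (j' i) - z) = 0 := by
    have : ∑ i, μ i • (X i (j' i) - z) = (a i0)⁻¹ • ∑ i, a i • (X i (j' i) - z) := by
      rw [Finset.smul_sum]
      refine Finset.sum_congr rfl fun i _ => ?_
      rw [smul_smul, hμ]
      congr 1
      field_simp
    rw [this, ha, smul_zero]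
  have hμpos : ∀ k, 0 < μ k := by
    intro k
    by_cases hk : k = i0
    · rw [hk, hμ0]; exact zero_lt_one
    by_contra hneg
    push Not at hneg
    have hw0 := hwpos i0
    have hwk := hwpos k
    set r : ℝ := w k / w i0 with hr
    have hr0 : 0 < r := div_pos hwk hw0
    set t : ℝ := r / (r - μ k) with ht
    have hden : 0 < r - μ k := by linarith
    have ht0 : 0 < t := div_pos hr0 hden
    have ht1 : t ≤ 1 := by rw [ht, div_le_one hden]; linarith
    have hteq : (1 - t) * r + t * μ k = 0 := by
      rw [ht]; field_simp; ring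
    -- the new point
    set u : ι → Fin d → ℝ := fun i => if i = i0 then (1 - t) • X i0 (j i0) + t • X i0 b
      else X i (j i) with hu
    set c : ι → ℝ := fun i => (1 - t) * (w i / w i0) + t * μ i with hc
    refine sep_indep hB k u ?_ c ⟨i0, Ne.symm hk, ?_⟩ hteq ?_
    · intro i _
      by_cases hi : i = i0
      · subst hi
        simp only [hu, if_true]
        exact (convex_convexHull ℝ _) (hmem i _ (hj i)) (hmem i _ hb) (by linarith) ht0.le
          (by ring)
      · simp only [hu, if_neg hi]
        exact hmem i _ (hj i)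
    · simp only [hc]
      rw [hμ0, div_self hw0.ne']
      intro h
      linarith
    · have hci0 : c i0 = 1 := by simp only [hc]; rw [hμ0, div_self hw0.ne']; ring
      have h1 : ∑ i, c i • (u i - z) = (1 - t) • ((w i0)⁻¹ • ∑ i, w i • (X i (j i) - z)) +
          t • ∑ i, μ i • (X i (j' i) - z) := by
        rw [Finset.smul_sum, Finset.smul_sum, Finset.smul_sum, ← Finset.sum_add_distrib]
        refine Finset.sum_congr rfl fun i _ => ?_
        by_cases hi : i = i0
        · subst hi
          rw [hci0, hμ0]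
          simp only [hu, if_true, hj', Function.update_self]
          rw [smul_smul (w i)⁻¹, inv_mul_cancel₀ hw0.ne']
          funext m
          simp only [Pi.smul_apply, Pi.sub_apply, Pi.add_apply, smul_eq_mul]
          ring
        · simp only [hu, if_neg hi, hj', Function.update_of_ne hi, hc]
          funext m
          simp only [Pi.smul_apply, Pi.sub_apply, Pi.add_apply, smul_eq_mul]
          field_simp
      rw [h1, hwz, hμz, smul_zero, smul_zero, smul_zero, add_zero]
  -- conclusion
  set s : ℝ := ∑ i, μ i with hs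
  have hs0 : 0 < s := Finset.sum_pos (fun i _ => hμpos i) ⟨i0, mem_univ _⟩
  refine ⟨fun i => μ i / s, fun i => (div_pos (hμpos i) hs0).le, ?_, ?_, ?_⟩
  · intro l hl; exact absurd (mem_univ l) hl
  · rw [← Finset.sum_div]; exact div_self hs0.ne'
  · intro m
    have h1 := congrFun hμz m
    simp only [Finset.sum_apply, Pi.smul_apply, Pi.sub_apply, smul_eq_mul, Pi.zero_apply, mul_sub,
      Finset.sum_sub_distrib, ← Finset.sum_mul] at h1
    have h2 : ∑ i, μ i / s * X i (j' i) m = (∑ i, μ i * X i (j' i) m) / s := by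
      rw [Finset.sum_div]
      exact Finset.sum_congr rfl fun i _ => by ring
    rw [h2, eq_div_iff hs0.ne']
    linarith

/-- if one rainbow simplex contains the point, all do -/
lemma all_transversals {X : ι → κ → Fin d → ℝ} {z : Fin d → ℝ} {B : ι → Finset κ}
    (hι : Fintype.card ι = d + 1)
    (hB : ∀ p : ι × (ι → Bool), Sep X z B p) (j : ι → κ) (hj : ∀ i, j i ∈ B i)
    (hz : z ∈ cv X (res univ j)) (j' : ι → κ) (hj' : ∀ i, j' i ∈ B i) :
    z ∈ cv X (res univ j') := by
  classical
  have key : ∀ S : Finset ι, z ∈ cv X (res univ (S.piecewise j' j)) ∧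
      ∀ i, (S.piecewise j' j) i ∈ B i := by
    intro S
    induction S using Finset.induction_on with
    | empty => rw [Finset.piecewise_empty]; exact ⟨hz, hj⟩
    | insert i S _ ih =>
      rw [Finset.piecewise_insert]
      refine ⟨exchange hι hB _ ih.2 ih.1 i (j' i) (hj' i), ?_⟩
      intro l
      by_cases hl : l = i
      · subst hl; rw [Function.update_self]; exact hj' l
      · rw [Function.update_of_ne hl]; exact ih.2 l
  have := (key univ).1
  rwa [Finset.piecewise_univ] at this

end

end Pool.Agent.K3h91.Sel
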