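import Pool.Agent.K3h91.Sel.Point
import Pool.Agent.K3h91.Sel.SameType
import Pool.Agent.K3h91.Sel.Reg

/-!
Pach's homogeneous selection theorem for points in general position, and perturbation of
arbitrary families into general position.
-/

set_option autoImplicit false
set_option linter.unusedSectionVars false

namespace Pool.Agent.K3h91.Sel

open Finset Filter Topology MeasureTheory

/-- the reciprocal of the loss in the homogeneous step -/
def Qst (d : ℕ) : ℕ := (2 * (d + 1)) ^ ((d + 1) * 2 ^ (d + 1))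

lemma Qst_pos (d : ℕ) : 1 ≤ Qst d := Nat.one_le_iff_ne_zero.2 (by unfold Qst; positivity)

/-- the fraction of the classes found in the homogeneous selection -/
noncomputable def cst (d : ℕ) : ℝ :=
  regC (d + 1) (1 / (Kst d : ℝ)) (1 / (Qst d : ℝ)) / (Qst d : ℝ)

lemma Kst_pos' (d : ℕ) : (0 : ℝ) < Kst d := by exact_mod_cast Kst_pos d
lemma Qst_pos' (d : ℕ) : (0 : ℝ) < Qst d := by exact_mod_cast Qst_pos d

lemma cst_pos (d : ℕ) : 0 < cst d :=
  div_pos (regC_pos _ _ _ (one_div_pos.2 (Kst_pos' d))) (Qst_pos' d)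

section

variable {ι κ : Type} [Fintype ι] [DecidableEq ι] [Fintype κ] [DecidableEq κ] {d : ℕ}

/-- homogeneous selection in general position -/
theorem generic_selection {X : ι → κ → Fin d → ℝ} (hd : 1 ≤ d) (hι : Fintype.card ι = d + 1)
    (hX : GP X) (hn1 : 2 ^ (d + 1) * d * Kst d + 1 ≤ Fintype.card κ)
    (hn2 : (2 * d * (d + 1) * Qst d : ℝ) ≤
      regC (d + 1) (1 / (Kst d : ℝ)) (1 / (Qst d : ℝ)) * (Fintype.card κ : ℝ)) :
    ∃ (q : Fin d → ℝ) (B : ι → Finset κ), (∀ i, cst d * (Fintype.card κ : ℝ) ≤ ((B i).card : ℝ)) ∧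
      ∀ j : ι → κ, (∀ i, j i ∈ B i) → q ∈ cv X (res univ j) := by
  classical
  have hκ : 0 < Fintype.card κ := by omega
  obtain ⟨q, hq⟩ := positive_point hd hι hX hn1
  set H : Finset (ι → κ) := univ.filter fun j : ι → κ => q ∈ cv X (res univ j) with hH
  have hHc : 1 / (Kst d : ℝ) * (Fintype.card κ : ℝ) ^ (d + 1) ≤ (H.card : ℝ) := by
    rw [one_div, inv_mul_le_iff₀ (Kst_pos' d)]
    exact_mod_cast hq
  have hQ1 : (1 : ℝ) ≤ Qst d := by exact_mod_cast Qst_pos d
  obtain ⟨A, hA1, hA2⟩ := weak_regularity (d + 1) hι (1 / (Kst d : ℝ)) (1 / (Qst d : ℝ))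
    (one_div_pos.2 (Kst_pos' d)) (one_div_pos.2 (Qst_pos' d))
    (by rw [div_le_one (Qst_pos' d)]; exact hQ1) H hκ hHc
  have hPc : (univ : Finset (ι × (ι → Bool))).card = (d + 1) * 2 ^ (d + 1) := by
    rw [Finset.card_univ, Fintype.card_prod, Fintype.card_fun, Fintype.card_bool, hι]
  obtain ⟨B, hB1, hB2, hB3⟩ := sep_iterate hX hd hι q (univ : Finset (ι × (ι → Bool))) A (by
    intro i
    rw [hPc]
    have h1 := hn2.trans (hA1 i)
    have h2 : 2 * d * (d + 1) * Qst d ≤ (A i).card := by exact_mod_cast h1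
    exact h2)
  rw [hPc] at hB3
  have hB3' : ∀ i, ((A i).card : ℝ) ≤ Qst d * (B i).card := by
    intro i
    have := hB3 i
    have h2 : (A i).card ≤ Qst d * (B i).card := this
    exact_mod_cast h2
  obtain ⟨j0, hj0H, hj0B⟩ := hA2 B hB1 (by
    intro i
    rw [one_div, inv_mul_le_iff₀ (Qst_pos' d)]
    exact hB3' i)
  refine ⟨q, B, ?_, ?_⟩
  · intro i
    unfold cst
    rw [div_mul_eq_mul_div, div_le_iff₀ (Qst_pos' d)]
    refine (hA1 i).trans ((hB3' i).trans (le_of_eq ?_))
    ring
  · intro j hj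
    exact all_transversals hι (fun p => hB2 p (mem_univ _)) j0 hj0B
      (by rw [hH, Finset.mem_filter] at hj0H; exact hj0H.2) j hj

/-- the affine hull of at most `d` points is a null set -/
lemma hull_null {V : Type} [Fintype V] [DecidableEq V] (X : V → Fin d → ℝ) (S : Finset V)
    (hS : S.card ≤ d) : (volume : Measure (Fin d → ℝ)) {x | ∃ w : V → ℝ, (∀ v, v ∉ S → w v = 0) ∧
      ∑ v, w v = 1 ∧ ∀ j, x j = ∑ v, w v * X v j} = 0 := by
  classical
  by_cases hS0 : S = ∅
  · have e : {x : Fin d → ℝ | ∃ w : V → ℝ, (∀ v, v ∉ S → w v = 0) ∧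
      ∑ v, w v = 1 ∧ ∀ j, x j = ∑ v, w v * X v j} = ∅ := by
      ext x
      simp only [Set.mem_ofPred_eq, Set.mem_empty_iff_false, iff_false]
      rintro ⟨w, h1, h2, _⟩
      rw [Finset.sum_eq_zero (fun v _ => h1 v (by rw [hS0]; simp))] at h2
      exact zero_ne_one h2
    rw [e]; simp
  obtain ⟨u0, u, hu, hu0⟩ : ∃ (u0 : ℝ) (u : Fin d → ℝ), u ≠ 0 ∧
      ∀ v ∈ S, u0 + ∑ j, u j * X v j = 0 := by
    let g : (ℝ × (Fin d → ℝ)) →ₗ[ℝ] (S → ℝ) :=
      { toFun := fun a v => a.1 + ∑ j, a.2 j * X v.1 j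
        map_add' := by
          intro a b
          funext v
          simp only [Prod.fst_add, Prod.snd_add, Pi.add_apply, add_mul, Finset.sum_add_distrib]
          ring
        map_smul' := by
          intro r a
          funext v
          simp only [Prod.smul_fst, Prod.smul_snd, Pi.smul_apply, smul_eq_mul, RingHom.id_apply,
            mul_add, Finset.mul_sum, mul_assoc] }
    have hker : LinearMap.ker g ≠ ⊥ := by
      apply LinearMap.ker_ne_bot_of_finrank_lt
      rw [Module.finrank_prod, Module.finrank_self, Module.finrank_fintype_fun_eq_card,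
        Module.finrank_fintype_fun_eq_card, Fintype.card_coe, Fintype.card_fin]
      omega
    obtain ⟨a, ha, ha0⟩ := Submodule.exists_mem_ne_zero_of_ne_bot hker
    rw [LinearMap.mem_ker] at ha
    have hga : ∀ v : S, a.1 + ∑ j, a.2 j * X v.1 j = 0 := fun v => congrFun ha v
    refine ⟨a.1, a.2, ?_, fun v hv => hga ⟨v, hv⟩⟩
    intro h
    obtain ⟨v, hv⟩ := Finset.nonempty_iff_ne_empty.2 hS0
    have := hga ⟨v, hv⟩
    rw [h] at this
    simp only [Pi.zero_apply, zero_mul, Finset.sum_const_zero, add_zero] at this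
    exact ha0 (Prod.ext this h)
  let L : (Fin d → ℝ) →ₗ[ℝ] ℝ := ∑ j, u j • LinearMap.proj j
  have hLa : ∀ x : Fin d → ℝ, L x = ∑ j, u j * x j := by
    intro x
    simp [L, LinearMap.sum_apply]
  have hL : L ≠ 0 := by
    intro h
    apply hu
    funext j0
    have h1 : L (Pi.single j0 1) = 0 := by rw [h]; rfl
    rw [hLa, Finset.sum_eq_single j0] at h1
    · simpa using h1
    · intro j _ hj; simp [hj]
    · intro h; exact absurd (mem_univ _) h
  refine measure_mono_null ?_ (null_hyperplane L hL (- u0))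
  rintro x ⟨w, h1, h2, h3⟩
  show L x = - u0
  rw [hLa]
  have h4 : ∀ j ∈ (univ : Finset (Fin d)), u j * x j = ∑ v, w v * (u j * X v j) := by
    intro j _
    rw [h3 j, Finset.mul_sum]
    exact Finset.sum_congr rfl fun l _ => by ring
  rw [Finset.sum_congr rfl h4, Finset.sum_comm]
  have h6 : ∀ v ∈ (univ : Finset V), ∑ j, w v * (u j * X v j) = w v * (- u0) := by
    intro v _
    rw [← Finset.mul_sum]
    by_cases hv : v ∈ S
    · have := hu0 v hv
      congr 1
      linarith
    · rw [h1 v hv]; simp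
  rw [Finset.sum_congr rfl h6, ← Finset.sum_mul, h2]; ring

/-- every family can be perturbed into general position -/
lemma exists_GP (Y : ι → κ → Fin d → ℝ) (ε : ℝ) (hε : 0 < ε) :
    ∃ X : ι → κ → Fin d → ℝ, GP X ∧ ∀ l k j, |X l k j - Y l k j| ≤ ε := by
  classical
  have key : ∀ P : Finset (ι × κ), ∃ X : ι × κ → Fin d → ℝ,
      (∀ v j, |X v j - Y v.1 v.2 j| ≤ ε) ∧
      ∀ μ : ι × κ → ℝ, (∀ v, v ∉ P → μ v = 0) → (univ.filter fun v => μ v ≠ 0).card ≤ d + 1 →
        ∑ v, μ v = 0 → (∀ j, ∑ v, μ v * X v j = 0) → μ = 0 := by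
    intro P
    induction P using Finset.induction_on with
    | empty =>
      refine ⟨fun v => Y v.1 v.2, fun v j => by simp [hε.le], ?_⟩
      intro μ h _ _ _
      funext v
      exact h v (by simp)
    | insert v0 P hv0 ih =>
      obtain ⟨X, hX1, hX2⟩ := ih
      have hnull : (volume : Measure (Fin d → ℝ))
          (⋃ S : {S : Finset (ι × κ) // S.card ≤ d}, {x | ∃ w : ι × κ → ℝ,
            (∀ v, v ∉ S.1 → w v = 0) ∧ ∑ v, w v = 1 ∧ ∀ j, x j = ∑ v, w v * X v j}) = 0 :=
        measure_iUnion_null fun S => hull_null X S.1 S.2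
      have hpos : (0 : ENNReal) < volume
          (Set.pi Set.univ (fun j : Fin d => Set.Ioo (Y v0.1 v0.2 j - ε) (Y v0.1 v0.2 j + ε))) := by
        rw [Real.volume_pi_Ioo]
        refine pos_iff_ne_zero.2 (Finset.prod_ne_zero_iff.2 fun i _ => ?_)
        have : Y v0.1 v0.2 i + ε - (Y v0.1 v0.2 i - ε) = 2 * ε := by ring
        rw [this]
        simpa using hε
      obtain ⟨x, hx1, hx2⟩ : ∃ x ∈ Set.pi Set.univ
          (fun j : Fin d => Set.Ioo (Y v0.1 v0.2 j - ε) (Y v0.1 v0.2 j + ε)),
          x ∉ (⋃ S : {S : Finset (ι × κ) // S.card ≤ d}, {x | ∃ w : ι × κ → ℝ,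
            (∀ v, v ∉ S.1 → w v = 0) ∧ ∑ v, w v = 1 ∧ ∀ j, x j = ∑ v, w v * X v j}) := by
        by_contra hcon
        push Not at hcon
        have := measure_mono_null (μ := (volume : Measure (Fin d → ℝ))) hcon hnull
        rw [this] at hpos
        exact lt_irrefl _ hpos
      refine ⟨Function.update X v0 x, ?_, ?_⟩
      · intro v j
        by_cases hv : v = v0
        · subst hv
          rw [Function.update_self, abs_le]
          have := hx1 j (Set.mem_univ j)
          constructor <;> linarith [this.1, this.2]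
        · rw [Function.update_of_ne hv]; exact hX1 v j
      · intro μ h1 h2 h3 h4
        have hsplit : ∀ j, ∑ v, μ v * Function.update X v0 x v j =
            μ v0 * x j + ∑ v ∈ univ.erase v0, μ v * X v j := by
          intro j
          rw [← Finset.add_sum_erase univ _ (mem_univ v0), Function.update_self]
          congr 1
          refine Finset.sum_congr rfl fun v hv => ?_
          rw [Function.update_of_ne (Finset.ne_of_mem_erase hv)]
        by_cases hμ : μ v0 = 0
        · refine hX2 μ ?_ h2 h3 ?_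
          · intro v hv
            by_cases hvv : v = v0
            · rw [hvv]; exact hμ
            · exact h1 v (by simp [hvv, hv])
          · intro j
            have := h4 j
            rw [hsplit, hμ, zero_mul, zero_add] at this
            rw [← Finset.add_sum_erase univ _ (mem_univ v0), hμ, zero_mul, zero_add]
            exact this
        · exfalso
          apply hx2
          rw [Set.mem_iUnion]
          refine ⟨⟨(univ.filter fun v => μ v ≠ 0).erase v0, ?_⟩,
            fun v => if v = v0 then 0 else - μ v / μ v0, ?_, ?_, ?_⟩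
          · rw [Finset.card_erase_of_mem (by simp [hμ])]
            omega
          · intro v hv
            by_cases hvv : v = v0
            · simp [hvv]
            · have : μ v = 0 := by
                by_contra h
                exact hv (by simp [hvv, h])
              simp [hvv, this]
          · rw [← Finset.add_sum_erase univ _ (mem_univ v0), if_pos rfl, zero_add]
            have e1 : ∑ v ∈ univ.erase v0, (if v = v0 then 0 else - μ v / μ v0) =
                ∑ v ∈ univ.erase v0, (- μ v / μ v0) :=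
              Finset.sum_congr rfl fun v hv => if_neg (Finset.ne_of_mem_erase hv)
            rw [e1, ← Finset.sum_div, Finset.sum_neg_distrib, div_eq_one_iff_eq hμ]
            rw [← Finset.add_sum_erase univ _ (mem_univ v0)] at h3
            linarith
          · intro j
            rw [← Finset.add_sum_erase univ _ (mem_univ v0)]
            beta_reduce
            rw [if_pos rfl, zero_mul, zero_add]
            have e1 : ∑ v ∈ univ.erase v0, (if v = v0 then 0 else - μ v / μ v0) * X v j =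
                (- ∑ v ∈ univ.erase v0, μ v * X v j) / μ v0 := by
              rw [← Finset.sum_neg_distrib, Finset.sum_div]
              refine Finset.sum_congr rfl fun v hv => ?_
              rw [if_neg (Finset.ne_of_mem_erase hv)]
              ring
            rw [e1, eq_div_iff hμ]
            have := h4 j
            rw [hsplit] at this
            linarith
  obtain ⟨X, hX1, hX2⟩ := key univ
  refine ⟨fun l k => X (l, k), ?_, fun l k j => hX1 (l, k) j⟩
  intro μ h1 h2 h3
  exact hX2 μ (fun v hv => absurd (mem_univ v) hv) h1 h2 h3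

/-- homogeneous selection for arbitrary families with sufficiently many (possibly repeated)
points in every class -/
theorem family_selection (Y : ι → κ → Fin d → ℝ) (hd : 1 ≤ d) (hι : Fintype.card ι = d + 1)
    (hn1 : 2 ^ (d + 1) * d * Kst d + 1 ≤ Fintype.card κ)
    (hn2 : (2 * d * (d + 1) * Qst d : ℝ) ≤
      regC (d + 1) (1 / (Kst d : ℝ)) (1 / (Qst d : ℝ)) * (Fintype.card κ : ℝ)) :
    ∃ (q : Fin d → ℝ) (B : ι → Finset κ), (∀ i, cst d * (Fintype.card κ : ℝ) ≤ ((B i).card : ℝ)) ∧
      ∀ j : ι → κ, (∀ i, j i ∈ B i) → q ∈ cv Y (res univ j) := by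
  classical
  have hex : ∀ m : ℕ, ∃ X : ι → κ → Fin d → ℝ, GP X ∧
      ∀ l k j, |X l k j - Y l k j| ≤ 1 / ((m : ℝ) + 1) :=
    fun m => exists_GP Y _ (by positivity)
  choose X hX1 hX2 using hex
  have hex2 := fun m => generic_selection (X := X m) hd hι (hX1 m) hn1 hn2
  choose q B hqB1 hqB2 using hex2
  let 𝒰 : Ultrafilter ℕ := Ultrafilter.of atTop
  have h𝒰 : (𝒰 : Filter ℕ) ≤ atTop := Ultrafilter.of_le _
  -- the selection is eventually constant along the ultrafilter
  obtain ⟨B0, _, hB0⟩ := (Ultrafilter.eventually_exists_mem_iff (f := 𝒰)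
    (is := (Set.univ : Set (ι → Finset κ)))
    (P := fun B0 m => B m = B0) Set.finite_univ).1
    (Eventually.of_forall fun m => ⟨B m, Set.mem_univ _, rfl⟩)
  have hXlim : ∀ l k j, Tendsto (fun m => X m l k j) 𝒰 (𝓝 (Y l k j)) := by
    intro l k j
    have h1 : Tendsto (fun m : ℕ => X m l k j - Y l k j) 𝒰 (𝓝 0) := by
      refine squeeze_zero_norm (a := fun m : ℕ => 1 / ((m : ℝ) + 1)) (fun m => ?_) ?_
      · rw [Real.norm_eq_abs]; exact hX2 m l k j
      · exact (tendsto_one_div_add_atTop_nhds_zero_nat (𝕜 := ℝ)).mono_left h𝒰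
    have h2 := h1.add_const (Y l k j)
    simpa using h2
  -- limit of weights for a transversal
  have hW : IsCompact {w : ι → ℝ | (∀ l, 0 ≤ w l) ∧ ∑ l, w l = 1} := by
    refine (isCompact_univ_pi (s := fun _ : ι => Set.Icc (0 : ℝ) 1)
      (fun _ => isCompact_Icc)).of_isClosed_subset ?_ ?_
    · have e : {w : ι → ℝ | (∀ l, 0 ≤ w l) ∧ ∑ l, w l = 1} = (⋂ l, {w | 0 ≤ w l}) ∩
          {w | ∑ l, w l = 1} := by
        ext w; simp
      rw [e]
      refine IsClosed.inter ?_ ?_
      · exact isClosed_iInter fun l => isClosed_le continuous_const (continuous_apply l)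
      · exact isClosed_eq (continuous_finsetSum _ fun l _ => continuous_apply l) continuous_const
    · rintro w ⟨h0, h2⟩ l _
      refine ⟨h0 l, ?_⟩
      rw [← h2]
      exact Finset.single_le_sum (f := fun l => w l) (fun l _ => h0 l) (Finset.mem_univ l)
  have hlim : ∀ j : ι → κ, (∀ i, j i ∈ B0 i) → ∃ w : ι → ℝ, (∀ l, 0 ≤ w l) ∧ ∑ l, w l = 1 ∧
      ∀ i, Tendsto (fun m => q m i) 𝒰 (𝓝 (∑ l, w l * Y l (j l) i)) := by
    intro j hj
    have hne : ∃ w : ι → ℝ, (∀ l, 0 ≤ w l) ∧ ∑ l, w l = 1 := by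
      obtain ⟨m, hm⟩ := hB0.exists
      have := hqB2 m j (by rw [hm]; exact hj)
      rw [mem_cv_res] at this
      obtain ⟨w, h0, _, h2, _⟩ := this
      exact ⟨w, h0, h2⟩
    have hexw : ∀ m, ∃ w : ι → ℝ, ((∀ l, 0 ≤ w l) ∧ ∑ l, w l = 1) ∧ (B m = B0 →
        ∀ i, q m i = ∑ l, w l * X m l (j l) i) := by
      intro m
      by_cases hm : B m = B0
      · have := hqB2 m j (by rw [hm]; exact hj)
        rw [mem_cv_res] at this
        obtain ⟨w, h0, _, h2, h3⟩ := this
        exact ⟨w, ⟨h0, h2⟩, fun _ => h3⟩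
      · obtain ⟨w, h0, h2⟩ := hne
        exact ⟨w, ⟨h0, h2⟩, fun h => absurd h hm⟩
    choose w hw1 hw2 using hexw
    have hmem : {w : ι → ℝ | (∀ l, 0 ≤ w l) ∧ ∑ l, w l = 1} ∈ (𝒰.map w : Filter (ι → ℝ)) := by
      rw [Ultrafilter.coe_map, Filter.mem_map]
      exact Filter.univ_mem' fun m => hw1 m
    obtain ⟨w0, hw0, hw0'⟩ := hW.ultrafilter_le_nhds' (𝒰.map w) hmem
    have htend : Tendsto w 𝒰 (𝓝 w0) := hw0'
    refine ⟨w0, hw0.1, hw0.2, fun i => ?_⟩
    have h1 : Tendsto (fun m => ∑ l, w m l * X m l (j l) i) 𝒰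
        (𝓝 (∑ l, w0 l * Y l (j l) i)) := by
      refine tendsto_finsetSum _ fun l _ => ?_
      exact ((tendsto_pi_nhds.1 htend) l).mul (hXlim l (j l) i)
    refine h1.congr' ?_
    filter_upwards [hB0] with m hm
    exact (hw2 m hm i).symm
  have hκ : 0 < Fintype.card κ := by omega
  have hB0c : ∀ i, cst d * (Fintype.card κ : ℝ) ≤ ((B0 i).card : ℝ) := by
    intro i
    obtain ⟨m, hm⟩ := hB0.exists
    have := hqB1 m i
    rwa [hm] at this
  have hB0ne : ∀ i, ∃ k, k ∈ B0 i := by
    intro i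
    by_contra h
    push Not at h
    have h1 : B0 i = ∅ := Finset.eq_empty_iff_forall_notMem.2 h
    have h2 := hB0c i
    rw [h1, Finset.card_empty, Nat.cast_zero] at h2
    have h3 : 0 < cst d * (Fintype.card κ : ℝ) :=
      mul_pos (cst_pos d) (by exact_mod_cast hκ)
    linarith
  choose j0 hj0 using hB0ne
  obtain ⟨w0, _, _, hw0⟩ := hlim j0 hj0
  refine ⟨fun i => ∑ l, w0 l * Y l (j0 l) i, B0, hB0c, ?_⟩
  intro j hj
  obtain ⟨w, h0, h1, h2⟩ := hlim j hj
  rw [mem_cv_res]
  refine ⟨w, h0, fun l hl => absurd (mem_univ l) hl, h1, fun i => ?_⟩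
  exact tendsto_nhds_unique (hw0 i) (h2 i)

end

end Pool.Agent.K3h91.Sel
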