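import Pool.Agent.K3h91.Sel.Key

/-!
The boundary operator of the grid, the coboundary formula for the intersection cochains, and
Gromov's argument: some vertex of the grid lies in many rainbow simplices, unless some face of
the grid meets many simplices.
-/

set_option autoImplicit false
set_option linter.unusedSectionVars false

namespace Pool.Agent.K3h91.Sel

open Finset Filter Topology

section bd

variable {d : ℕ} {V : Type} [AddCommGroup V]

/-- boundary in one direction -/
def bdi (i : Fin d) (b : (Fin d → ℕ) → V) (f : Fin d → ℕ) : V :=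
  if Odd (f i) then b (Function.update f i (f i - 1)) + b (Function.update f i (f i + 1)) else 0

/-- boundary of the faces of the grid (modulo 2) -/
def bd (b : (Fin d → ℕ) → V) (f : Fin d → ℕ) : V := ∑ i, bdi i b f

lemma bdi_self (i : Fin d) (b : (Fin d → ℕ) → V) (f : Fin d → ℕ) : bdi i (bdi i b) f = 0 := by
  unfold bdi
  by_cases h : Odd (f i)
  · rw [if_pos h, if_neg, if_neg, add_zero]
    · rw [Function.update_self, Nat.not_odd_iff_even]
      exact h.add_one
    · rw [Function.update_self, Nat.not_odd_iff_even]
      obtain ⟨m, hm⟩ := h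
      exact ⟨m, by omega⟩
  · rw [if_neg h]

lemma bdi_comm (i j : Fin d) (hij : i ≠ j) (b : (Fin d → ℕ) → V) (f : Fin d → ℕ) :
    bdi i (bdi j b) f = bdi j (bdi i b) f := by
  unfold bdi
  simp only [Function.update_of_ne hij, Function.update_of_ne hij.symm]
  by_cases h1 : Odd (f i) <;> by_cases h2 : Odd (f j)
  · simp only [h1, h2, if_true]
    rw [Function.update_comm hij, Function.update_comm hij, Function.update_comm hij,
      Function.update_comm hij]
    abel
  · simp [h1, h2]
  · simp [h1, h2]
  · simp [h1, h2]

lemma sum_symm_zero (hV : ∀ v : V, v + v = 0) {γ : Type} [DecidableEq γ] (s : Finset γ)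
    (F : γ → γ → V) (h0 : ∀ i, F i i = 0) (hs : ∀ i j, i ≠ j → F i j = F j i) :
    ∑ i ∈ s, ∑ j ∈ s, F i j = 0 := by
  induction s using Finset.induction_on with
  | empty => simp
  | insert a s ha ih =>
    rw [Finset.sum_insert ha, Finset.sum_insert ha, h0]
    have h1 : ∑ i ∈ s, ∑ j ∈ insert a s, F i j = ∑ i ∈ s, F i a + ∑ i ∈ s, ∑ j ∈ s, F i j := by
      rw [← Finset.sum_add_distrib]
      exact Finset.sum_congr rfl fun i _ => Finset.sum_insert ha
    have h2 : ∑ j ∈ s, F a j = ∑ i ∈ s, F i a :=
      Finset.sum_congr rfl fun i hi => hs a i (by rintro rfl; exact ha hi)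
    rw [h1, ih, h2, add_zero, zero_add]
    exact hV _

lemma bdi_add (i : Fin d) (b b' : (Fin d → ℕ) → V) (f : Fin d → ℕ) :
    bdi i (fun g => b g + b' g) f = bdi i b f + bdi i b' f := by
  unfold bdi
  split_ifs
  · beta_reduce
    abel
  · simp

lemma bd_add (b b' : (Fin d → ℕ) → V) (f : Fin d → ℕ) :
    bd (fun g => b g + b' g) f = bd b f + bd b' f := by
  unfold bd
  rw [← Finset.sum_add_distrib]
  exact Finset.sum_congr rfl fun i _ => bdi_add i b b' f

lemma bdi_sum {γ : Type} (s : Finset γ) (i : Fin d) (b : γ → (Fin d → ℕ) → V) (f : Fin d → ℕ) :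
    bdi i (fun g => ∑ a ∈ s, b a g) f = ∑ a ∈ s, bdi i (b a) f := by
  unfold bdi
  split_ifs
  · rw [← Finset.sum_add_distrib]
  · simp

lemma bd_bd (hV : ∀ v : V, v + v = 0) (b : (Fin d → ℕ) → V) (f : Fin d → ℕ) :
    bd (bd b) f = 0 := by
  have h1 : bd (bd b) f = ∑ i, ∑ j, bdi i (bdi j b) f := by
    unfold bd
    refine Finset.sum_congr rfl fun i _ => ?_
    rw [bdi_sum]
  rw [h1]
  exact sum_symm_zero hV univ (fun i j => bdi i (bdi j b) f) (fun i => bdi_self i b f)
    (fun i j hij => bdi_comm i j hij b f)

lemma bd_congr {b b' : (Fin d → ℕ) → V} {f : Fin d → ℕ}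
    (h : ∀ i, Odd (f i) → b (Function.update f i (f i - 1)) = b' (Function.update f i (f i - 1)) ∧
      b (Function.update f i (f i + 1)) = b' (Function.update f i (f i + 1))) :
    bd b f = bd b' f := by
  unfold bd
  refine Finset.sum_congr rfl fun i _ => ?_
  unfold bdi
  split_ifs with hi
  · rw [(h i hi).1, (h i hi).2]
  · rfl

lemma bd_map {W : Type} [AddCommGroup W] (g : V →+ W) (b : (Fin d → ℕ) → V) (f : Fin d → ℕ) :
    g (bd b f) = bd (fun f' => g (b f')) f := by
  unfold bd
  rw [map_sum]
  refine Finset.sum_congr rfl fun i _ => ?_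
  unfold bdi
  split_ifs
  · rw [map_add]
  · rw [map_zero]

/-- the sum of the boundaries of all cells of the grid is zero when the function vanishes on the
outer faces -/
lemma sum_bd_zero (hV : ∀ v : V, v + v = 0) (M : ℕ) (b : (Fin d → ℕ) → V)
    (hout : ∀ g : Fin d → ℕ, (∃ i, g i = 0 ∨ g i = 2 * M) → (∀ i, g i ≤ 2 * M) → b g = 0) :
    ∑ a ∈ Fintype.piFinset (fun _ : Fin d => range M), bd b (fun i => 2 * a i + 1) = 0 := by
  classical
  set S := Fintype.piFinset (fun _ : Fin d => range M) with hS
  have hmem : ∀ a, a ∈ S ↔ ∀ i, a i < M := fun a => by simp [hS]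
  unfold bd
  rw [Finset.sum_comm]
  refine Finset.sum_eq_zero fun i _ => ?_
  set G : (Fin d → ℕ) → V := fun a => b (Function.update (fun i => 2 * a i + 1) i (2 * a i)) with hG
  have h1 : ∀ a : Fin d → ℕ, bdi i b (fun i => 2 * a i + 1) =
      G a + G (Function.update a i (a i + 1)) := by
    intro a
    unfold bdi
    rw [if_pos ⟨a i, rfl⟩]
    congr 1
    simp only [hG, Function.update_self]
    congr 1
    funext j
    by_cases hj : j = i
    · subst hj
      rw [Function.update_self, Function.update_self]; ring
    · rw [Function.update_of_ne hj, Function.update_of_ne hj, Function.update_of_ne hj]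
  rw [Finset.sum_congr rfl fun a _ => h1 a, Finset.sum_add_distrib]
  have h2 : ∑ a ∈ S, G a = ∑ a ∈ S.filter (fun a => a i ≠ 0), G a := by
    symm
    refine Finset.sum_filter_of_ne ?_
    intro a ha hne h0
    apply hne
    refine hout _ ⟨i, Or.inl ?_⟩ ?_
    · rw [Function.update_self, h0]
    · intro j
      by_cases hj : j = i
      · subst hj; rw [Function.update_self, h0]; omega
      · rw [Function.update_of_ne hj]; have := (hmem a).1 ha j; omega
  have h3 : ∑ a ∈ S, G (Function.update a i (a i + 1)) =
      ∑ a ∈ S.filter (fun a => a i + 1 ≠ M), G (Function.update a i (a i + 1)) := by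
    symm
    refine Finset.sum_filter_of_ne ?_
    intro a ha hne h0
    apply hne
    refine hout _ ⟨i, Or.inr ?_⟩ ?_
    · rw [Function.update_self, Function.update_self, h0]
    · intro j
      by_cases hj : j = i
      · subst hj; rw [Function.update_self, Function.update_self, h0]
      · rw [Function.update_of_ne hj, Function.update_of_ne hj]; have := (hmem a).1 ha j; omega
  have h4 : ∑ a ∈ S.filter (fun a => a i ≠ 0), G a =
      ∑ a ∈ S.filter (fun a => a i + 1 ≠ M), G (Function.update a i (a i + 1)) := by
    refine Finset.sum_nbij' (fun a => Function.update a i (a i - 1))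
      (fun a => Function.update a i (a i + 1)) ?_ ?_ ?_ ?_ ?_
    · intro a ha
      rw [Finset.mem_filter, hmem] at ha ⊢
      obtain ⟨ha1, ha2⟩ := ha
      refine ⟨?_, ?_⟩
      · intro j
        by_cases hj : j = i
        · subst hj; rw [Function.update_self]; have := ha1 j; omega
        · rw [Function.update_of_ne hj]; exact ha1 j
      · rw [Function.update_self]; have := ha1 i; omega
    · intro a ha
      rw [Finset.mem_filter, hmem] at ha ⊢
      obtain ⟨ha1, ha2⟩ := ha
      refine ⟨?_, ?_⟩
      · intro j
        by_cases hj : j = i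
        · subst hj; rw [Function.update_self]; have := ha1 j; omega
        · rw [Function.update_of_ne hj]; exact ha1 j
      · rw [Function.update_self]; omega
    · intro a ha
      rw [Finset.mem_filter] at ha
      simp only [Function.update_self, Function.update_idem]
      rw [Nat.sub_add_cancel (Nat.pos_of_ne_zero ha.2), Function.update_eq_self]
    · intro a ha
      simp only [Function.update_self, Function.update_idem]
      rw [Nat.add_sub_cancel, Function.update_eq_self]
    · intro a ha
      rw [Finset.mem_filter] at ha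
      simp only [Function.update_self, Function.update_idem]
      rw [Nat.sub_add_cancel (Nat.pos_of_ne_zero ha.2), Function.update_eq_self]
  rw [h2, h3, h4]
  exact hV _

end bd

section

variable {ι κ : Type} [Fintype ι] [DecidableEq ι] [Fintype κ] [DecidableEq κ] {d : ℕ}

lemma co_add_self (φ : Co ι κ) : φ + φ = 0 := by
  funext t
  exact CharTwo.add_self_eq_zero _

lemma sum_ite_eq_card {R : Type} [Fintype R] (P : R → Prop) [DecidablePred P] :
    (∑ r, (if P r then 1 else 0 : ZMod 2)) = ((univ.filter P).card : ZMod 2) := by
  rw [Finset.card_filter]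
  push_cast
  rfl

/-- the coboundary formula -/
theorem del_al {X : ι → κ → Fin d → ℝ} {c : Fin d → ℕ → ℝ} (hc : ∀ i, StrictMono (c i))
    (hG : GPg X c) (f : Fin d → ℕ) : del (al X c f) = bd (al X c) f := by
  classical
  funext t
  have hR : bd (al X c) f t = ∑ i, if Odd (f i) then
      (al X c (Function.update f i (f i - 1)) t + al X c (Function.update f i (f i + 1)) t)
      else 0 := by
    unfold bd
    rw [Finset.sum_apply]
    refine Finset.sum_congr rfl fun i _ => ?_
    unfold bdi
    split_ifs <;> rfl
  rw [hR, del_apply]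
  have hdm1 : ∀ i, Odd (f i) → dm (Function.update f i (f i - 1)) + 1 = dm f := by
    intro i hi
    refine dm_update f i hi _ ?_
    obtain ⟨m, hm⟩ := hi
    exact ⟨m, by omega⟩
  have hdm2 : ∀ i, Odd (f i) → dm (Function.update f i (f i + 1)) + 1 = dm f := by
    intro i hi
    exact dm_update f i hi _ hi.add_one
  by_cases hsz : sz t + dm f = d + 2
  swap
  · rw [Finset.sum_eq_zero, Finset.sum_eq_zero]
    · intro i _
      split_ifs with hi
      · have e1 := hdm1 i hi
        have e2 := hdm2 i hi
        unfold al
        rw [if_neg, if_neg, add_zero]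
        · rintro ⟨h, _⟩; omega
        · rintro ⟨h, _⟩; omega
      · rfl
    · intro l _
      split_ifs with hl
      · rfl
      · have e1 := sz_update_none t l hl
        unfold al
        rw [if_neg]
        rintro ⟨h, _⟩; omega
  · set P : ({l : ι // t l ≠ none} ⊕ ({i : Fin d // Odd (f i)} × Bool)) → Prop :=
      Sum.elim (fun l => (box c f ∩ cv X (Function.update t l.1 none)).Nonempty)
        (fun p => if p.2 then (box c (Function.update f p.1.1 (f p.1.1 + 1)) ∩ cv X t).Nonempty
          else (box c (Function.update f p.1.1 (f p.1.1 - 1)) ∩ cv X t).Nonempty) with hP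
    have hev := even_active hc hG f t hsz P (fun l => by simp [hP]) (fun i => by simp [hP])
      (fun i => by simp [hP])
    have hz : (∑ r, (if P r then 1 else 0 : ZMod 2)) = 0 := by
      rw [sum_ite_eq_card]
      exact (ZMod.natCast_eq_zero_iff _ 2).2 hev.two_dvd
    rw [Fintype.sum_sum_type, Fintype.sum_prod_type] at hz
    have e1 : ∑ l : ι, (if t l = none then 0 else al X c f (Function.update t l none)) =
        ∑ l : {l : ι // t l ≠ none}, (if P (Sum.inl l) then 1 else 0 : ZMod 2) := by
      rw [← Finset.sum_filter_add_sum_filter_not univ (fun l => t l ≠ none),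
        Finset.sum_eq_zero (s := univ.filter fun l => ¬ (t l ≠ none)), add_zero]
      · rw [← Finset.sum_subtype_eq_sum_filter]
        rw [Finset.subtype_univ]
        refine Finset.sum_congr rfl fun l _ => ?_
        rw [if_neg l.2]
        unfold al
        have := sz_update_none t l.1 l.2
        have h2 : sz (Function.update t l.1 none) + dm f = d + 1 := by omega
        simp only [h2, true_and, hP, Sum.elim_inl]
      · intro l hl
        simp only [Finset.mem_filter, Finset.mem_univ, true_and, not_not] at hl
        rw [if_pos hl]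
    have e2 : (∑ i, if Odd (f i) then (al X c (Function.update f i (f i - 1)) t +
        al X c (Function.update f i (f i + 1)) t) else 0) =
        ∑ i : {i : Fin d // Odd (f i)}, ∑ b : Bool,
          (if P (Sum.inr (i, b)) then 1 else 0 : ZMod 2) := by
      rw [← Finset.sum_filter_add_sum_filter_not univ (fun i => Odd (f i)),
        Finset.sum_eq_zero (s := univ.filter fun i => ¬ Odd (f i)), add_zero]
      · rw [← Finset.sum_subtype_eq_sum_filter, Finset.subtype_univ]
        refine Finset.sum_congr rfl fun i _ => ?_
        rw [if_pos i.2]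
        have k1 := hdm1 i.1 i.2
        have k2 := hdm2 i.1 i.2
        have h1 : sz t + dm (Function.update f i.1 (f i.1 - 1)) = d + 1 := by omega
        have h2 : sz t + dm (Function.update f i.1 (f i.1 + 1)) = d + 1 := by omega
        rw [Fintype.sum_bool]
        simp only [al, h1, h2, true_and, hP, Sum.elim_inr, if_true, Bool.false_eq_true, if_false]
        rw [add_comm]
      · intro i hi
        simp only [Finset.mem_filter, Finset.mem_univ, true_and] at hi
        rw [if_neg hi]
    rw [e1, e2]
    exact CharTwo.add_eq_zero.1 hz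

end

end Pool.Agent.K3h91.Sel
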