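import Pool.Agent.K3h91.Sel.Grid

/-!
Gromov's argument in the discrete setting: if the points are strictly inside the grid and the
grid is in general position, then some face of the grid (of dimension `k`) meets a positive
fraction of the simplices of dimension `d - k`.
-/

set_option autoImplicit false
set_option linter.unusedSectionVars false

namespace Pool.Agent.K3h91.Sel

open Finset Filter Topology

section

variable {ι κ : Type} [Fintype ι] [DecidableEq ι] [Fintype κ] [DecidableEq κ] {d : ℕ}

lemma res_none_iff (J : Finset ι) (j : ι → κ) (l : ι) : res J j l = none ↔ l ∉ J := by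
  unfold res
  by_cases h : l ∈ J <;> simp [h]

lemma sz_full (t : ι → Option κ) (ht : ∀ l, t l ≠ none) : sz t = Fintype.card ι := by
  unfold sz
  rw [Finset.filter_true_of_mem (fun l _ => ht l), Finset.card_univ]

/-- the coordinates of a point of the hull of a partial transversal are strictly inside -/
lemma cv_inside {X : ι → κ → Fin d → ℝ} {lo hi : Fin d → ℝ}
    (hin : ∀ l k j, lo j < X l k j ∧ X l k j < hi j) (t : ι → Option κ) (y : Fin d → ℝ)
    (hy : y ∈ cv X t) (j : Fin d) : lo j < y j ∧ y j < hi j := by
  obtain ⟨w, h0, h1, h2, h3⟩ := hy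
  obtain ⟨l0, hl0⟩ : ∃ l, w l ≠ 0 := by
    by_contra h
    push Not at h
    rw [Finset.sum_eq_zero (fun l _ => h l)] at h2
    exact zero_ne_one h2
  have hpt : ∀ l, w l ≠ 0 → lo j < pt X t l j ∧ pt X t l j < hi j := by
    intro l hl
    cases htl : t l with
    | none => exact absurd (h1 l htl) hl
    | some k => simp only [pt, htl, Option.elim_some]; exact hin l k j
  rw [h3 j]
  have e1 : ∑ l, w l * lo j = lo j := by rw [← Finset.sum_mul, h2, one_mul]
  have e2 : ∑ l, w l * hi j = hi j := by rw [← Finset.sum_mul, h2, one_mul]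
  rw [← e1, ← e2]
  constructor
  · refine Finset.sum_lt_sum (fun l _ => ?_) ⟨l0, Finset.mem_univ _, ?_⟩
    · by_cases hl : w l = 0
      · simp [hl]
      · exact mul_le_mul_of_nonneg_left (hpt l hl).1.le (h0 l)
    · exact mul_lt_mul_of_pos_left (hpt l0 hl0).1 (lt_of_le_of_ne (h0 l0) hl0.symm)
  · refine Finset.sum_lt_sum (fun l _ => ?_) ⟨l0, Finset.mem_univ _, ?_⟩
    · by_cases hl : w l = 0
      · simp [hl]
      · exact mul_le_mul_of_nonneg_left (hpt l hl).2.le (h0 l)
    · exact mul_lt_mul_of_pos_left (hpt l0 hl0).2 (lt_of_le_of_ne (h0 l0) hl0.symm)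

lemma al_outer {X : ι → κ → Fin d → ℝ} {c : Fin d → ℕ → ℝ} (M : ℕ)
    (hin : ∀ l k j, c j 0 < X l k j ∧ X l k j < c j M) (f : Fin d → ℕ)
    (hf : ∃ i, f i = 0 ∨ f i = 2 * M) : al X c f = 0 := by
  classical
  obtain ⟨i, hi⟩ := hf
  funext t
  unfold al
  rw [if_neg]
  · rfl
  rintro ⟨_, y, hy1, hy2⟩
  have h1 := cv_inside (lo := fun j => c j 0) (hi := fun j => c j M) hin t y hy2 i
  have h2 := hy1 i
  rcases hi with hi | hi
  · rw [hi] at h2
    have := h2.2
    norm_num at this
    linarith [h1.1]
  · rw [hi] at h2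
    have e : 2 * M / 2 = M := by omega
    rw [e] at h2
    linarith [h1.2, h2.1]

lemma al_full {X : ι → κ → Fin d → ℝ} {c : Fin d → ℕ → ℝ} (hι : Fintype.card ι = d + 1)
    (f : Fin d → ℕ) (hf : dm f ≠ 0) (t : ι → Option κ) (ht : ∀ l, t l ≠ none) :
    al X c f t = 0 := by
  classical
  unfold al
  rw [if_neg]
  rintro ⟨h, _⟩
  rw [sz_full t ht, hι] at h
  omega

lemma PP_vertex {X : ι → κ → Fin d → ℝ} {c : Fin d → ℕ → ℝ} (hd : 1 ≤ d)
    (hι : Fintype.card ι = d + 1) (hc : ∀ i, StrictMono (c i)) (hG : GPg X c) (M : ℕ)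
    (hin : ∀ l k j, c j 0 < X l k j ∧ X l k j < c j M) (x : ι → κ) (L : List ι)
    (hL : ∀ l, l ∈ L) (f : Fin d → ℕ) (hf : dm f = 0) : PP x L (al X c f) = 0 := by
  have hi0 : ∃ i0 : Fin d, True := ⟨⟨0, hd⟩, trivial⟩
  obtain ⟨i0, _⟩ := hi0
  have key : ∀ (a : ℕ) (f : Fin d → ℕ), dm f = 0 → f i0 = 2 * a → PP x L (al X c f) = 0 := by
    intro a
    induction a with
    | zero =>
      intro f _ hf0
      rw [al_outer M hin f ⟨i0, Or.inl (by omega)⟩, map_zero]
    | succ a ih =>
      intro f hf hfa
      have hodd : ∀ i, ¬ Odd (f i) := by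
        intro i hi
        unfold dm at hf
        rw [Finset.card_eq_zero, Finset.filter_eq_empty_iff] at hf
        exact hf (Finset.mem_univ i) hi
      set e : Fin d → ℕ := Function.update f i0 (2 * a + 1) with he
      have hei : Odd (e i0) := by rw [he, Function.update_self]; exact ⟨a, rfl⟩
      have hdm : ∀ i, i ≠ i0 → ¬ Odd (e i) := by
        intro i hi
        rw [he, Function.update_of_ne hi]
        exact hodd i
      have h1 : bd (al X c) e = al X c (Function.update f i0 (2 * a)) + al X c f := by
        unfold bd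
        rw [Finset.sum_eq_single i0]
        · unfold bdi
          rw [if_pos hei]
          have e1 : Function.update e i0 (e i0 - 1) = Function.update f i0 (2 * a) := by
            rw [he, Function.update_self, Function.update_idem]; congr 1
          have e2 : Function.update e i0 (e i0 + 1) = f := by
            rw [he, Function.update_self, Function.update_idem]
            have : 2 * a + 1 + 1 = f i0 := by omega
            rw [this, Function.update_eq_self]
          rw [e1, e2]
        · intro i _ hi
          unfold bdi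
          rw [if_neg (hdm i hi)]
        · intro h; exact absurd (Finset.mem_univ _) h
      have h2 : PP x L (bd (al X c) e) = 0 := by
        rw [← del_al hc hG]
        have h3 : PP x L (del (al X c e)) = del (PP x L (al X c e)) := by
          have := congrArg (fun F : Module.End (ZMod 2) (Co ι κ) => F (al X c e))
            (del_PP_comm (κ := κ) x L)
          exact this.symm
        rw [h3, PP_eq_zero x L hL, map_zero]
        refine al_full hι e ?_
        unfold dm
        intro h
        rw [Finset.card_eq_zero, Finset.filter_eq_empty_iff] at h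
        exact h (Finset.mem_univ i0) hei
      rw [h1, map_add, ih] at h2
      · rwa [zero_add] at h2
      · unfold dm
        rw [Finset.card_eq_zero, Finset.filter_eq_empty_iff]
        intro i _
        by_cases hi : i = i0
        · subst hi; rw [Function.update_self, Nat.not_odd_iff_even]; exact even_two_mul a
        · rw [Function.update_of_ne hi]; exact hodd i
      · rw [Function.update_self]
  have hev : Even (f i0) := by
    rw [← Nat.not_odd_iff_even]
    intro hi
    unfold dm at hf
    rw [Finset.card_eq_zero, Finset.filter_eq_empty_iff] at hf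
    exact hf (Finset.mem_univ i0) hi
  obtain ⟨m, hm⟩ := hev
  exact key m f hf (by omega)

/-- the constant of the induction -/
def Cst (d : ℕ) : ℕ := 2 ^ (d + 1) * 2 ^ (d + 1) * (1 + 2 * d)

lemma Cst_pos (d : ℕ) : 1 ≤ Cst d := by
  unfold Cst
  exact Nat.one_le_iff_ne_zero.2 (by positivity)

lemma N_bd (b : (Fin d → ℕ) → Co ι κ) (f : Fin d → ℕ) (K : ℕ)
    (h : ∀ i, Odd (f i) → N (b (Function.update f i (f i - 1))) ≤ K ∧
      N (b (Function.update f i (f i + 1))) ≤ K) : N (bd b f) ≤ 2 * d * K := by
  unfold bd
  refine (N_sum _ _).trans ?_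
  have h1 : ∀ i ∈ (univ : Finset (Fin d)), N (bdi i b f) ≤ 2 * K := by
    intro i _
    unfold bdi
    split_ifs with hi
    · refine (N_add _ _).trans ?_
      have := h i hi
      omega
    · rw [N_zero]; omega
  refine (Finset.sum_le_card_nsmul _ _ _ h1).trans ?_
  rw [Finset.card_univ, Fintype.card_fin, smul_eq_mul]
  apply le_of_eq; ring

/-- facets of valid faces -/
lemma facet_valid {M : ℕ} {f : Fin d → ℕ} (hf : ∀ i, f i ≤ 2 * M) {i : Fin d} (hi : Odd (f i)) :
    (∀ j, Function.update f i (f i - 1) j ≤ 2 * M) ∧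
    (∀ j, Function.update f i (f i + 1) j ≤ 2 * M) := by
  have h1 := hf i
  obtain ⟨m, hm⟩ := hi
  constructor
  · intro j
    by_cases hj : j = i
    · subst hj; rw [Function.update_self]; omega
    · rw [Function.update_of_ne hj]; exact hf j
  · intro j
    by_cases hj : j = i
    · subst hj; rw [Function.update_self]; omega
    · rw [Function.update_of_ne hj]; exact hf j

lemma facet_outer {M : ℕ} {f : Fin d → ℕ} (hf : ∃ j, f j = 0 ∨ f j = 2 * M) {i : Fin d}
    (hi : Odd (f i)) :
    (∃ j, Function.update f i (f i - 1) j = 0 ∨ Function.update f i (f i - 1) j = 2 * M) ∧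
    (∃ j, Function.update f i (f i + 1) j = 0 ∨ Function.update f i (f i + 1) j = 2 * M) := by
  obtain ⟨j, hj⟩ := hf
  obtain ⟨m, hm⟩ := hi
  have hji : j ≠ i := by
    rintro rfl
    omega
  exact ⟨⟨j, by rw [Function.update_of_ne hji]; exact hj⟩,
    ⟨j, by rw [Function.update_of_ne hji]; exact hj⟩⟩

/-- the fillings of the intersection cochains of the faces of dimension less than `k` -/
lemma exists_fill [Nonempty κ] {X : ι → κ → Fin d → ℝ} {c : Fin d → ℕ → ℝ} (hd : 1 ≤ d)
    (hι : Fintype.card ι = d + 1) (hc : ∀ i, StrictMono (c i)) (hG : GPg X c) (M : ℕ)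
    (hin : ∀ l k j, c j 0 < X l k j ∧ X l k j < c j M) (L : List ι)
    (hL : ∀ l, l ∈ L) (E : ℕ) (hE : ∀ f : Fin d → ℕ, (∀ i, f i ≤ 2 * M) → N (al X c f) ≤ E)
    (k : ℕ) (hk : k ≤ d) :
    ∃ b : (Fin d → ℕ) → Co ι κ, ∀ f : Fin d → ℕ, (∀ i, f i ≤ 2 * M) → dm f < k →
      del (b f) = al X c f + bd b f ∧ N (b f) ≤ Cst d ^ (dm f + 1) * E ∧
      (∀ t : ι → Option κ, (∀ l, t l ≠ none) → b f t = 0) ∧
      ((∃ i, f i = 0 ∨ f i = 2 * M) → b f = 0) := by
  classical
  induction k with
  | zero => exact ⟨fun _ => 0, fun f _ h => absurd h (Nat.not_lt_zero _)⟩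
  | succ k ih =>
    obtain ⟨b, hb⟩ := ih (by omega)
    have hex : ∀ f : Fin d → ℕ, ∃ x : ι → κ, N (HH x L (al X c f + bd b f)) ≤
        2 ^ Fintype.card ι * 2 ^ Fintype.card ι * N (al X c f + bd b f) :=
      fun f => exists_base L _
    choose x hx using hex
    refine ⟨fun f => if dm f = k then HH (x f) L (al X c f + bd b f) else b f, ?_⟩
    intro f hfM hf
    have hfac : ∀ i, Odd (f i) → dm (Function.update f i (f i - 1)) + 1 = dm f ∧
        dm (Function.update f i (f i + 1)) + 1 = dm f := by
      intro i hi
      refine ⟨dm_update f i hi _ ?_, dm_update f i hi _ hi.add_one⟩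
      obtain ⟨m, hm⟩ := hi
      exact ⟨m, by omega⟩
    have hbd : bd (fun f => if dm f = k then HH (x f) L (al X c f + bd b f) else b f) f =
        bd b f := by
      refine bd_congr fun i hi => ?_
      obtain ⟨h1, h2⟩ := hfac i hi
      constructor
      · rw [if_neg (by omega)]
      · rw [if_neg (by omega)]
    rw [hbd]
    by_cases hfk : dm f = k
    swap
    · simp only [hfk, if_false]
      exact hb f hfM (by omega)
    · simp only [hfk, if_true]
      -- the boundary of the cochain to be filled vanishes
      have hdel : del (al X c f + bd b f) = 0 := by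
        rw [map_add, del_al hc hG]
        have h1 : del (bd b f) = bd (fun f' => del (b f')) f :=
          bd_map (del (ι := ι) (κ := κ)).toAddMonoidHom b f
        have h2 : bd (fun f' => del (b f')) f = bd (fun f' => al X c f' + bd b f') f := by
          refine bd_congr fun i hi => ?_
          obtain ⟨h3, h4⟩ := hfac i hi
          obtain ⟨h5, h6⟩ := facet_valid hfM hi
          exact ⟨(hb _ h5 (by omega)).1, (hb _ h6 (by omega)).1⟩
        rw [h1, h2, bd_add, bd_bd co_add_self, add_zero]
        exact co_add_self _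
      have hbfull : ∀ t : ι → Option κ, (∀ l, t l ≠ none) → bd b f t = 0 := by
        intro t ht
        unfold bd
        rw [Finset.sum_apply]
        refine Finset.sum_eq_zero fun i _ => ?_
        unfold bdi
        split_ifs with hi
        · obtain ⟨h3, h4⟩ := hfac i hi
          obtain ⟨h5, h6⟩ := facet_valid hfM hi
          rw [Pi.add_apply, (hb _ h5 (by omega)).2.2.1 t ht, (hb _ h6 (by omega)).2.2.1 t ht,
            add_zero]
        · rfl
      have hPP : PP (x f) L (al X c f + bd b f) = 0 := by
        rw [map_add, PP_eq_zero (x f) L hL (bd b f) hbfull, add_zero]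
        by_cases hk0 : k = 0
        · exact PP_vertex hd hι hc hG M hin (x f) L hL f (by omega)
        · exact PP_eq_zero (x f) L hL _ (fun t ht => al_full hι f (by omega) t ht)
      have hhom := congrArg (fun F : Module.End (ZMod 2) (Co ι κ) => F (al X c f + bd b f))
            (homotopy (κ := κ) (x f) L)
      simp only [LinearMap.add_apply, Module.End.mul_apply, Module.End.one_apply] at hhom
      have hhom' : del (HH (x f) L (al X c f + bd b f)) = al X c f + bd b f := by
        rw [hdel, map_zero, add_zero, hPP, add_zero] at hhom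
        exact hhom
      refine ⟨hhom', ?_, ?_, ?_⟩
      · refine (hx f).trans ?_
        have h1 : N (al X c f + bd b f) ≤ (1 + 2 * d) * (Cst d ^ k * E) := by
          refine (N_add _ _).trans ?_
          have h2 : N (al X c f) ≤ Cst d ^ k * E :=
            (hE f hfM).trans (Nat.le_mul_of_pos_left _ (pow_pos (Cst_pos d) k))
          have h3 : N (bd b f) ≤ 2 * d * (Cst d ^ k * E) := by
            refine N_bd b f _ fun i hi => ?_
            obtain ⟨h3, h4⟩ := hfac i hi
            obtain ⟨h5, h6⟩ := facet_valid hfM hi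
            have h7 := (hb _ h5 (by omega)).2.1
            have h8 := (hb _ h6 (by omega)).2.1
            rw [h3, hfk] at h7
            rw [h4, hfk] at h8
            exact ⟨h7, h8⟩
          calc N (al X c f) + N (bd b f) ≤ Cst d ^ k * E + 2 * d * (Cst d ^ k * E) :=
                Nat.add_le_add h2 h3
            _ = _ := by ring
        calc 2 ^ Fintype.card ι * 2 ^ Fintype.card ι * N (al X c f + bd b f)
            ≤ 2 ^ Fintype.card ι * 2 ^ Fintype.card ι * ((1 + 2 * d) * (Cst d ^ k * E)) :=
              Nat.mul_le_mul_left _ h1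
          _ = Cst d ^ (k + 1) * E := by rw [hι, pow_succ]; unfold Cst; ring
      · intro t ht
        exact HH_full _ _ _ t ht
      · intro hout
        have h1 : al X c f = 0 := al_outer M hin f hout
        have h2 : bd b f = 0 := by
          unfold bd
          refine Finset.sum_eq_zero fun i _ => ?_
          unfold bdi
          split_ifs with hi
          · obtain ⟨h3, h4⟩ := hfac i hi
            obtain ⟨h5, h6⟩ := facet_valid hfM hi
            obtain ⟨h7, h8⟩ := facet_outer hout hi
            rw [(hb _ h5 (by omega)).2.2.2 h7, (hb _ h6 (by omega)).2.2.2 h8, add_zero]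
          · rfl
        rw [h1, h2, add_zero, map_zero]

/-- a strictly increasing sequence locates a point which is not one of its members -/
lemma locate (c : ℕ → ℝ) (hc : StrictMono c) (M : ℕ) (y : ℝ) (h0 : c 0 < y) (h1 : y < c M)
    (hne : ∀ a, y ≠ c a) : ∃ a < M, ∀ a', a' < M → ((c a' ≤ y ∧ y ≤ c (a' + 1)) ↔ a' = a) := by
  classical
  set a := Nat.findGreatest (fun a => c a ≤ y) M with ha
  have h2 : c a ≤ y := Nat.findGreatest_spec (P := fun a => c a ≤ y) (Nat.zero_le M) h0.le
  have h3 : a ≤ M := Nat.findGreatest_le M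
  have h4 : a < M := by
    rcases Nat.lt_or_ge a M with h | h
    · exact h
    · have : a = M := le_antisymm h3 h
      rw [this] at h2; linarith
  have h5 : y < c (a + 1) := by
    by_contra h
    push Not at h
    have := Nat.le_findGreatest (P := fun a => c a ≤ y) (Nat.succ_le_of_lt h4) h
    rw [← ha] at this
    omega
  refine ⟨a, h4, ?_⟩
  intro a' _
  constructor
  · rintro ⟨h6, h7⟩
    have h6' : c a' < c (a + 1) := lt_of_le_of_lt h6 h5
    have h7' : c a < c (a' + 1) := lt_of_lt_of_le (lt_of_le_of_ne h2 (hne a).symm) h7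
    have e1 := hc.lt_iff_lt.1 h6'
    have e2 := hc.lt_iff_lt.1 h7'
    omega
  · rintro rfl
    exact ⟨h2, h5.le⟩

/-- **Gromov's argument.** -/
theorem gromov [Nonempty κ] {X : ι → κ → Fin d → ℝ} {c : Fin d → ℕ → ℝ} (hd : 1 ≤ d)
    (hι : Fintype.card ι = d + 1) (hc : ∀ i, StrictMono (c i)) (hG : GPg X c) (M : ℕ)
    (hin : ∀ l k j, c j 0 < X l k j ∧ X l k j < c j M)
    (E : ℕ) (hE : ∀ f : Fin d → ℕ, (∀ i, f i ≤ 2 * M) → N (al X c f) ≤ E) :
    Fintype.card κ ^ (d + 1) ≤ (1 + 2 * d) * (Cst d ^ d * E) := by
  classical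
  set L : List ι := (Finset.univ : Finset ι).toList with hLdef
  have hL : ∀ l, l ∈ L := fun l => by simp [hLdef]
  obtain ⟨b, hb⟩ := exists_fill hd hι hc hG M hin L hL E hE d le_rfl
  by_contra hcon
  push Not at hcon
  have hne : Nonempty ι := Fintype.card_pos_iff.1 (by omega)
  obtain ⟨l0⟩ := hne
  obtain ⟨k0⟩ := (inferInstance : Nonempty κ)
  -- the cochains of the cells vanish on the single points
  have hcell : ∀ f : Fin d → ℕ, (∀ i, f i ≤ 2 * M) → dm f = d → ∀ j : ι → κ,
      (al X c f + bd b f) (res {l0} j) = 0 := by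
    intro f hfM hfd j
    have hfac : ∀ i, Odd (f i) → dm (Function.update f i (f i - 1)) + 1 = dm f ∧
        dm (Function.update f i (f i + 1)) + 1 = dm f := by
      intro i hi
      refine ⟨dm_update f i hi _ ?_, dm_update f i hi _ hi.add_one⟩
      obtain ⟨m, hm⟩ := hi
      exact ⟨m, by omega⟩
    have hdel : del (al X c f + bd b f) = 0 := by
      rw [map_add, del_al hc hG]
      have h1 : del (bd b f) = bd (fun f' => del (b f')) f :=
        bd_map (del (ι := ι) (κ := κ)).toAddMonoidHom b f
      have h2 : bd (fun f' => del (b f')) f = bd (fun f' => al X c f' + bd b f') f := by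
        refine bd_congr fun i hi => ?_
        obtain ⟨h3, h4⟩ := hfac i hi
        obtain ⟨h5, h6⟩ := facet_valid hfM hi
        exact ⟨(hb _ h5 (by omega)).1, (hb _ h6 (by omega)).1⟩
      rw [h1, h2, bd_add, bd_bd co_add_self, add_zero]
      exact co_add_self _
    have hbfull : ∀ t : ι → Option κ, (∀ l, t l ≠ none) → (al X c f + bd b f) t = 0 := by
      intro t ht
      rw [Pi.add_apply, al_full hι f (by omega) t ht, zero_add]
      unfold bd
      rw [Finset.sum_apply]
      refine Finset.sum_eq_zero fun i _ => ?_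
      unfold bdi
      split_ifs with hi
      · obtain ⟨h3, h4⟩ := hfac i hi
        obtain ⟨h5, h6⟩ := facet_valid hfM hi
        rw [Pi.add_apply, (hb _ h5 (by omega)).2.2.1 t ht, (hb _ h6 (by omega)).2.2.1 t ht,
          add_zero]
      · rfl
    set x : ι → κ := fun _ => k0
    have hhom := congrArg (fun F : Module.End (ZMod 2) (Co ι κ) => F (al X c f + bd b f))
          (homotopy (κ := κ) x L)
    simp only [LinearMap.add_apply, Module.End.mul_apply, Module.End.one_apply] at hhom
    rw [hdel, map_zero, add_zero, PP_eq_zero x L hL _ hbfull, add_zero] at hhom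
    set ψ := HH x L (al X c f + bd b f) with hψ
    have hsingle : ∀ j : ι → κ, (al X c f + bd b f) (res {l0} j) = ψ (fun _ => none) := by
      intro j
      rw [← hhom, del_apply, Finset.sum_eq_single l0]
      · rw [if_neg (by rw [res_none_iff]; simp)]
        congr 1
        funext l
        by_cases hl : l = l0
        · subst hl; simp
        · rw [Function.update_of_ne hl, res_none_iff]; simpa using hl
      · intro l _ hl
        rw [if_pos (by rw [res_none_iff]; simpa using hl)]
      · intro h; exact absurd (Finset.mem_univ _) h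
    rw [hsingle]
    by_contra hψ0
    have hN : Fintype.card κ ^ (d + 1) ≤ N (al X c f + bd b f) := by
      have : Fintype.card κ ^ (d + 1) = Fintype.card (ι → κ) := by
        rw [Fintype.card_fun, hι]
      rw [this, ← Finset.card_univ]
      unfold N
      refine Finset.card_le_card_of_injOn (fun j => (({l0} : Finset ι), j)) ?_ ?_
      · intro j _
        simp only [Finset.coe_filter, Finset.mem_univ, true_and, Set.mem_ofPred_eq]
        rw [hsingle j]; exact hψ0
      · intro j _ j' _ h
        exact (Prod.mk.inj h).2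
    have hN2 : N (al X c f + bd b f) ≤ (1 + 2 * d) * (Cst d ^ d * E) := by
      refine (N_add _ _).trans ?_
      have h2 : N (al X c f) ≤ Cst d ^ d * E :=
        (hE f hfM).trans (Nat.le_mul_of_pos_left _ (pow_pos (Cst_pos d) d))
      have h3 : N (bd b f) ≤ 2 * d * (Cst d ^ d * E) := by
        refine N_bd b f _ fun i hi => ?_
        obtain ⟨h3, h4⟩ := hfac i hi
        obtain ⟨h5, h6⟩ := facet_valid hfM hi
        have h7 := (hb _ h5 (by omega)).2.1
        have h8 := (hb _ h6 (by omega)).2.1
        rw [h3, hfd] at h7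
        rw [h4, hfd] at h8
        exact ⟨h7, h8⟩
      calc N (al X c f) + N (bd b f) ≤ Cst d ^ d * E + 2 * d * (Cst d ^ d * E) :=
            Nat.add_le_add h2 h3
        _ = _ := by ring
    omega
  -- sum over all cells
  set S := Fintype.piFinset (fun _ : Fin d => range M) with hS
  have hmem : ∀ a, a ∈ S ↔ ∀ i, a i < M := fun a => by simp [hS]
  have hdmc : ∀ a : Fin d → ℕ, dm (fun i => 2 * a i + 1) = d := by
    intro a
    unfold dm
    rw [Finset.filter_true_of_mem (fun i _ => ⟨a i, rfl⟩), Finset.card_univ, Fintype.card_fin]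
  have hsum0 : ∑ a ∈ S, (al X c (fun i => 2 * a i + 1) + bd b (fun i => 2 * a i + 1))
      (res {l0} (fun _ => k0)) = 0 := by
    refine Finset.sum_eq_zero fun a ha => hcell _ ?_ (hdmc a) _
    intro i
    have := (hmem a).1 ha i
    show 2 * a i + 1 ≤ 2 * M
    omega
  have hout : ∑ a ∈ S, bd (fun g => if (∀ i, g i ≤ 2 * M) ∧ dm g < d then b g else 0)
      (fun i => 2 * a i + 1) = 0 := by
    refine sum_bd_zero co_add_self M _ ?_
    intro g hg1 hg2
    by_cases h : (∀ i, g i ≤ 2 * M) ∧ dm g < d
    · rw [if_pos h]; exact (hb g h.1 h.2).2.2.2 hg1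
    · rw [if_neg h]
  have hout2 : ∑ a ∈ S, bd b (fun i => 2 * a i + 1) = 0 := by
    rw [← hout]
    refine Finset.sum_congr rfl fun a ha => ?_
    have hv : ∀ i, (fun i => 2 * a i + 1) i ≤ 2 * M := by
      intro i
      have := (hmem a).1 ha i
      show 2 * a i + 1 ≤ 2 * M
      omega
    have hdma := hdmc a
    have hev : ∀ i, Even ((fun i => 2 * a i + 1) i - 1) := fun i => by
      show Even (2 * a i + 1 - 1)
      simp
    generalize (fun i => 2 * a i + 1) = fa at hv hdma hev ⊢
    refine bd_congr fun i hi => ?_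
    have h1 := facet_valid hv hi
    have h2 := dm_update fa i hi _ (hi.add_one)
    have h3 := dm_update fa i hi (fa i - 1) (hev i)
    rw [hdma] at h2 h3
    constructor
    · rw [if_pos ⟨h1.1, by omega⟩]
    · rw [if_pos ⟨h1.2, by omega⟩]
  have hal0 : ∑ a ∈ S, al X c (fun i => 2 * a i + 1) (res {l0} (fun _ => k0)) = 0 := by
    have h1 : ∑ a ∈ S, bd b (fun i => 2 * a i + 1) (res {l0} (fun _ => k0)) = 0 := by
      rw [← Finset.sum_apply, hout2]; rfl
    have h2 := hsum0
    simp only [Pi.add_apply] at h2
    rw [Finset.sum_add_distrib, h1, add_zero] at h2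
    exact h2
  -- but every point is in exactly one cell
  set y : Fin d → ℝ := X l0 k0 with hy
  have hcv : ∀ z, z ∈ cv X (res {l0} (fun _ => k0)) ↔ z = y := by
    intro z
    constructor
    · rintro ⟨w, h0, h1, h2, h3⟩
      have hw : ∀ l, l ≠ l0 → w l = 0 := fun l hl => h1 l (by rw [res_none_iff]; simpa using hl)
      have hw0 : w l0 = 1 := by
        rw [← h2, Finset.sum_eq_single l0]
        · intro l _ hl; exact hw l hl
        · intro h; exact absurd (Finset.mem_univ _) h
      funext j
      rw [h3 j, Finset.sum_eq_single l0]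
      · rw [hw0, one_mul]; simp [pt, res, hy]
      · intro l _ hl; rw [hw l hl, zero_mul]
      · intro h; exact absurd (Finset.mem_univ _) h
    · rintro rfl
      refine ⟨fun l => if l = l0 then 1 else 0, ?_, ?_, ?_, ?_⟩
      · intro l
        show (0 : ℝ) ≤ if l = l0 then 1 else 0
        split_ifs <;> norm_num
      · intro l hl
        rw [res_none_iff] at hl
        show (if l = l0 then (1 : ℝ) else 0) = 0
        rw [if_neg]
        rintro rfl
        exact hl (by simp)
      · simp
      · intro j
        rw [Finset.sum_eq_single l0]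
        · simp [pt, res, hy]
        · intro l _ hl; simp [hl]
        · intro h; exact absurd (Finset.mem_univ _) h
  have hsz1 : sz (res ({l0} : Finset ι) (fun _ => k0)) = 1 := by
    unfold sz
    have : (univ.filter fun l => res ({l0} : Finset ι) (fun _ => k0) l ≠ none) = {l0} := by
      ext l
      rw [Finset.mem_filter, Ne, res_none_iff, not_not]
      simp
    rw [this, Finset.card_singleton]
  have hyne : ∀ i a, y i ≠ c i a := by
    intro i a h
    refine hG (res {l0} (fun _ => k0)) {i} (by rw [hsz1, Finset.card_singleton])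
      (fun _ => a) (fun l => if l = l0 then 1 else 0) ?_ (by simp) ?_
    · intro l hl
      rw [res_none_iff] at hl
      show (if l = l0 then (1 : ℝ) else 0) = 0
      rw [if_neg]
      rintro rfl
      exact hl (by simp)
    · intro j hj
      rw [Finset.mem_singleton] at hj
      subst hj
      rw [Finset.sum_eq_single l0]
      · simp only [if_true, one_mul]
        rw [← h]
        simp [pt, res, hy]
      · intro l _ hl; simp [hl]
      · intro h; exact absurd (Finset.mem_univ _) h
  have hloc : ∀ i, ∃ a < M, ∀ a', a' < M → ((c i a' ≤ y i ∧ y i ≤ c i (a' + 1)) ↔ a' = a) :=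
    fun i => locate (c i) (hc i) M (y i) (hin l0 k0 i).1 (hin l0 k0 i).2 (hyne i)
  choose a0 ha0 ha0' using hloc
  have hone : ∑ a ∈ S, al X c (fun i => 2 * a i + 1) (res {l0} (fun _ => k0)) = 1 := by
    rw [Finset.sum_eq_single a0]
    · unfold al
      rw [if_pos]
      refine ⟨by rw [hsz1, hdmc]; omega, y, ?_, (hcv y).2 rfl⟩
      intro i
      have := (ha0' i (a0 i) (ha0 i)).2 rfl
      have e1 : (2 * a0 i + 1) / 2 = a0 i := by omega
      have e2 : (2 * a0 i + 1 + 1) / 2 = a0 i + 1 := by omega
      show c i ((2 * a0 i + 1) / 2) ≤ y i ∧ y i ≤ c i ((2 * a0 i + 1 + 1) / 2)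
      rw [e1, e2]
      exact this
    · intro a ha hne
      unfold al
      rw [if_neg]
      rintro ⟨_, z, hz1, hz2⟩
      rw [hcv] at hz2
      subst hz2
      apply hne
      funext i
      have h1 := hz1 i
      have e1 : (2 * a i + 1) / 2 = a i := by omega
      have e2 : (2 * a i + 1 + 1) / 2 = a i + 1 := by omega
      change c i ((2 * a i + 1) / 2) ≤ y i ∧ y i ≤ c i ((2 * a i + 1 + 1) / 2) at h1
      rw [e1, e2] at h1
      exact (ha0' i (a i) ((hmem a).1 ha i)).1 h1
    · intro h
      exact absurd ((hmem a0).2 ha0) h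
  rw [hone] at hal0
  exact one_ne_zero hal0

end

end Pool.Agent.K3h91.Sel
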