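import Mathlib

/-!
Cochains modulo 2 on the join of finite sets, the contracting homotopy of a base point and the
norm inequality for it.
-/

set_option autoImplicit false
set_option linter.unusedSectionVars false

namespace Pool.Agent.K3h91.Sel

open Finset

section

variable {ι κ : Type} [Fintype ι] [DecidableEq ι] [Fintype κ] [DecidableEq κ]

/-- Cochains (of all degrees) with coefficients modulo 2: functions on partial transversals. -/
abbrev Co (ι κ : Type) := (ι → Option κ) → ZMod 2

/-- the part of the coboundary belonging to the colour `l` -/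
def dl (l : ι) : Module.End (ZMod 2) (Co ι κ) where
  toFun φ t := if t l = none then 0 else φ (Function.update t l none)
  map_add' φ ψ := by
    funext t
    by_cases h : t l = none <;> simp [h]
  map_smul' a φ := by
    funext t
    by_cases h : t l = none <;> simp [h]

/-- insertion of the base point in the colour `l` -/
def hl (x : ι → κ) (l : ι) : Module.End (ZMod 2) (Co ι κ) where
  toFun φ t := if t l = none then φ (Function.update t l (some (x l))) else 0
  map_add' φ ψ := by
    funext t
    by_cases h : t l = none <;> simp [h]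
  map_smul' a φ := by
    funext t
    by_cases h : t l = none <;> simp [h]

/-- the projection in the colour `l` -/
def pl (x : ι → κ) (l : ι) : Module.End (ZMod 2) (Co ι κ) where
  toFun φ t := if t l = none then 0 else φ t + φ (Function.update t l (some (x l)))
  map_add' φ ψ := by
    funext t
    by_cases h : t l = none
    · simp [h]
    · simp only [h, if_false, Pi.add_apply]; ring
  map_smul' a φ := by
    funext t
    by_cases h : t l = none
    · simp [h]
    · simp only [h, if_false, Pi.smul_apply, smul_eq_mul, RingHom.id_apply]; ring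

omit [Fintype ι] [Fintype κ] [DecidableEq κ] in
lemma dl_apply (l : ι) (φ : Co ι κ) (t : ι → Option κ) :
    dl l φ t = if t l = none then 0 else φ (Function.update t l none) := rfl

omit [Fintype ι] [Fintype κ] [DecidableEq κ] in
lemma hl_apply (x : ι → κ) (l : ι) (φ : Co ι κ) (t : ι → Option κ) :
    hl x l φ t = if t l = none then φ (Function.update t l (some (x l))) else 0 := rfl

omit [Fintype ι] [Fintype κ] [DecidableEq κ] in
lemma pl_apply (x : ι → κ) (l : ι) (φ : Co ι κ) (t : ι → Option κ) :
    pl x l φ t = if t l = none then 0 else φ t + φ (Function.update t l (some (x l))) := rfl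

omit [Fintype ι] [Fintype κ] [DecidableEq κ] in
lemma dl_hl_comm (x : ι → κ) {l m : ι} (h : l ≠ m) :
    dl l * hl x m = hl x m * dl (κ := κ) l := by
  refine LinearMap.ext fun φ => funext fun t => ?_
  simp only [Module.End.mul_apply, dl_apply, hl_apply]
  rw [Function.update_of_ne h, Function.update_of_ne h.symm]
  rw [Function.update_comm h]
  by_cases h1 : t l = none <;> by_cases h2 : t m = none <;> simp [h1, h2]

omit [Fintype ι] [Fintype κ] [DecidableEq κ] in
lemma dl_pl_comm (x : ι → κ) (l m : ι) :
    dl l * pl x m = pl x m * dl (κ := κ) l := by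
  refine LinearMap.ext fun φ => funext fun t => ?_
  simp only [Module.End.mul_apply, dl_apply, pl_apply]
  by_cases h : l = m
  · subst h
    by_cases h1 : t l = none
    · simp [h1]
    · simp [h1]
      exact (CharTwo.add_self_eq_zero _).symm
  · rw [Function.update_of_ne h, Function.update_of_ne (Ne.symm h)]
    rw [Function.update_comm h]
    by_cases h1 : t l = none <;> by_cases h2 : t m = none <;> simp [h1, h2]

omit [Fintype ι] [Fintype κ] [DecidableEq κ] in
lemma dl_hl_self (x : ι → κ) (l : ι) :
    dl l * hl x l + hl x l * dl (κ := κ) l = 1 + pl x l := by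
  refine LinearMap.ext fun φ => funext fun t => ?_
  simp only [LinearMap.add_apply, Pi.add_apply, Module.End.mul_apply, dl_apply, hl_apply, pl_apply,
    Module.End.one_apply]
  by_cases h1 : t l = none
  · simp [h1]
    congr 1
    rw [← h1, Function.update_eq_self]
  · simp [h1]
    rw [← add_assoc, CharTwo.add_self_eq_zero, zero_add]

/-- the coboundary -/
def del : Module.End (ZMod 2) (Co ι κ) := ∑ l : ι, dl l

omit [Fintype κ] [DecidableEq κ] in
lemma del_apply (φ : Co ι κ) (t : ι → Option κ) :
    del φ t = ∑ l : ι, if t l = none then 0 else φ (Function.update t l none) := by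
  simp only [del, LinearMap.sum_apply, Finset.sum_apply, dl_apply]

omit [Fintype ι] [DecidableEq ι] [Fintype κ] [DecidableEq κ] in
lemma end_add_self (f : Module.End (ZMod 2) (Co ι κ)) : f + f = 0 := by
  refine LinearMap.ext fun φ => funext fun t => ?_
  simp only [LinearMap.add_apply, Pi.add_apply, LinearMap.zero_apply, Pi.zero_apply]
  exact CharTwo.add_self_eq_zero _

omit [Fintype κ] [DecidableEq κ] in
lemma del_pl_comm (x : ι → κ) (m : ι) : del * pl x m = pl x m * del (κ := κ) := by
  simp only [del, Finset.sum_mul, Finset.mul_sum, dl_pl_comm]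

omit [Fintype κ] [DecidableEq κ] in
lemma del_hl (x : ι → κ) (m : ι) :
    del * hl x m + hl x m * del (κ := κ) = 1 + pl x m := by
  simp only [del, Finset.sum_mul, Finset.mul_sum, ← Finset.sum_add_distrib]
  rw [Finset.sum_eq_single m, dl_hl_self]
  · intro l _ hl'
    rw [dl_hl_comm x hl', end_add_self]
  · intro h; exact absurd (Finset.mem_univ m) h

/-- the product of the projections along a list of colours -/
def PP (x : ι → κ) : List ι → Module.End (ZMod 2) (Co ι κ)
  | [] => 1
  | l :: L => pl x l * PP x L

/-- the contracting homotopy along a list of colours -/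
def HH (x : ι → κ) : List ι → Module.End (ZMod 2) (Co ι κ)
  | [] => 0
  | l :: L => hl x l + pl x l * HH x L

omit [Fintype κ] [DecidableEq κ] in
lemma del_PP_comm (x : ι → κ) (L : List ι) : del * PP x L = PP x L * del (κ := κ) := by
  induction L with
  | nil => simp [PP]
  | cons l L ih =>
    simp only [PP]
    rw [← mul_assoc, del_pl_comm, mul_assoc, ih, mul_assoc]

omit [Fintype κ] [DecidableEq κ] in
/-- the homotopy formula -/
lemma homotopy (x : ι → κ) (L : List ι) :
    del * HH x L + HH x L * del (κ := κ) = 1 + PP x L := by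
  induction L with
  | nil => simp [HH, PP, end_add_self]
  | cons l L ih =>
    simp only [HH, PP]
    have h1 : del * (hl x l + pl x l * HH x L) + (hl x l + pl x l * HH x L) * del (κ := κ) =
        (del * hl x l + hl x l * del) + pl x l * (del * HH x L + HH x L * del) := by
      rw [mul_add, add_mul, mul_add, ← mul_assoc, del_pl_comm, mul_assoc, mul_assoc]
      abel
    rw [h1, del_hl, ih, mul_add, mul_one]
    have h2 := end_add_self (pl x l (κ := κ))
    calc 1 + pl x l + (pl x l + pl x l * PP x L) = 1 + (pl x l + pl x l) + pl x l * PP x L := by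
          abel
      _ = _ := by rw [h2, add_zero]

omit [Fintype ι] [Fintype κ] [DecidableEq κ] in
lemma PP_apply_none (x : ι → κ) (L : List ι) (φ : Co ι κ) (t : ι → Option κ) (l : ι)
    (hl' : l ∈ L) (ht : t l = none) : PP x L φ t = 0 := by
  induction L generalizing t with
  | nil => exact absurd hl' (by simp)
  | cons m L ih =>
    simp only [PP, Module.End.mul_apply, pl_apply]
    by_cases hm : t m = none
    · simp [hm]
    · have hlm : l ≠ m := by rintro rfl; exact hm ht
      have hL : l ∈ L := by
        rcases List.mem_cons.1 hl' with h | h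
        · exact absurd h hlm
        · exact h
      rw [if_neg hm, ih t hL ht, ih _ hL (by rw [Function.update_of_ne hlm]; exact ht), add_zero]

omit [Fintype ι] [Fintype κ] [DecidableEq κ] in
lemma PP_apply_full (x : ι → κ) (L : List ι) (φ : Co ι κ)
    (hφ : ∀ t : ι → Option κ, (∀ l, t l ≠ none) → φ t = 0)
    (t : ι → Option κ) (ht : ∀ l, t l ≠ none) : PP x L φ t = 0 := by
  induction L generalizing t with
  | nil => exact hφ t ht
  | cons m L ih =>
    simp only [PP, Module.End.mul_apply, pl_apply]
    rw [if_neg (ht m), ih t ht, ih, add_zero]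
    intro l
    by_cases h : l = m
    · subst h; simp
    · rw [Function.update_of_ne h]; exact ht l

omit [Fintype ι] [Fintype κ] [DecidableEq κ] in
lemma PP_eq_zero (x : ι → κ) (L : List ι) (hL : ∀ l, l ∈ L) (φ : Co ι κ)
    (hφ : ∀ t : ι → Option κ, (∀ l, t l ≠ none) → φ t = 0) : PP x L φ = 0 := by
  funext t
  by_cases ht : ∀ l, t l ≠ none
  · exact PP_apply_full x L φ hφ t ht
  · push Not at ht
    obtain ⟨l, hl'⟩ := ht
    exact PP_apply_none x L φ t l (hL l) hl'

omit [Fintype ι] [Fintype κ] [DecidableEq κ] in
lemma HH_full (x : ι → κ) (L : List ι) (φ : Co ι κ) (t : ι → Option κ)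
    (ht : ∀ l, t l ≠ none) : HH x L φ t = 0 := by
  induction L generalizing t with
  | nil => rfl
  | cons m L ih =>
    simp only [HH, LinearMap.add_apply, Pi.add_apply, Module.End.mul_apply, pl_apply, hl_apply]
    rw [if_neg (ht m), if_neg (ht m), ih t ht, ih]
    · simp
    · intro l
      by_cases h : l = m
      · subst h; simp
      · rw [Function.update_of_ne h]; exact ht l

omit [Fintype ι] [Fintype κ] [DecidableEq κ] in
lemma HH_witness (x : ι → κ) (L : List ι) (φ : Co ι κ) (t : ι → Option κ)
    (h : HH x L φ t ≠ 0) : ∃ S : Finset ι, φ (S.piecewise (fun i => some (x i)) t) ≠ 0 := by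
  induction L generalizing t with
  | nil => exact absurd rfl h
  | cons m L ih =>
    simp only [HH, LinearMap.add_apply, Pi.add_apply, Module.End.mul_apply, pl_apply, hl_apply] at h
    have key : ∀ S : Finset ι, S.piecewise (fun i => some (x i)) (Function.update t m (some (x m))) =
        (insert m S).piecewise (fun i => some (x i)) t := by
      intro S
      funext i
      by_cases hi : i ∈ S
      · simp [Finset.piecewise, hi]
      · by_cases him : i = m
        · subst him; simp [Finset.piecewise, hi]
        · simp [Finset.piecewise, hi, him]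
    by_cases hm : t m = none
    · rw [if_pos hm, if_pos hm, add_zero] at h
      refine ⟨{m}, ?_⟩
      have := key ∅
      rw [Finset.piecewise_empty] at this
      rw [show ({m} : Finset ι) = insert m ∅ from rfl, ← this]
      exact h
    · rw [if_neg hm, if_neg hm, zero_add] at h
      by_cases h1 : HH x L φ t = 0
      · rw [h1, zero_add] at h
        obtain ⟨S, hS⟩ := ih _ h
        exact ⟨insert m S, by rw [← key]; exact hS⟩
      · exact ih t h1

/-- the partial transversal with support `J` -/
def res (J : Finset ι) (j : ι → κ) : ι → Option κ := fun i => if i ∈ J then some (j i) else none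

omit [Fintype ι] [Fintype κ] [DecidableEq κ] in
lemma piecewise_res (S J : Finset ι) (x j : ι → κ) :
    S.piecewise (fun i => some (x i)) (res J j) = res (J ∪ S) (S.piecewise x j) := by
  funext i
  by_cases hi : i ∈ S
  · simp [Finset.piecewise, hi, res]
  · simp [Finset.piecewise, hi, res]

/-- the norm of a cochain: the number of (full) transversals and faces of them on which it does
not vanish -/
noncomputable def N (φ : Co ι κ) : ℕ :=
  (Finset.univ.filter fun q : Finset ι × (ι → κ) => φ (res q.1 q.2) ≠ 0).card

lemma N_zero : N (0 : Co ι κ) = 0 := by simp [N]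

lemma N_add (φ ψ : Co ι κ) : N (φ + ψ) ≤ N φ + N ψ := by
  classical
  unfold N
  refine le_trans (Finset.card_le_card ?_) (Finset.card_union_le _ _)
  intro q hq
  simp only [Finset.mem_filter, Finset.mem_univ, true_and, Finset.mem_union, Pi.add_apply] at hq ⊢
  by_contra hc
  push Not at hc
  apply hq
  rw [hc.1, hc.2, add_zero]

lemma N_sum {γ : Type} (s : Finset γ) (φ : γ → Co ι κ) : N (∑ a ∈ s, φ a) ≤ ∑ a ∈ s, N (φ a) := by
  classical
  induction s using Finset.induction_on with
  | empty => simp [N_zero]
  | insert a s ha ih =>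
    rw [Finset.sum_insert ha, Finset.sum_insert ha]
    exact (N_add _ _).trans (Nat.add_le_add_left ih _)

/-- exchange of two transversals on a set of colours -/
def swapE (S : Finset ι) : (ι → κ) × (ι → κ) ≃ (ι → κ) × (ι → κ) where
  toFun q := (S.piecewise q.2 q.1, S.piecewise q.1 q.2)
  invFun q := (S.piecewise q.2 q.1, S.piecewise q.1 q.2)
  left_inv q := by
    ext i
    · by_cases hi : i ∈ S <;> simp [Finset.piecewise, hi]
    · by_cases hi : i ∈ S <;> simp [Finset.piecewise, hi]
  right_inv q := by
    ext i
    · by_cases hi : i ∈ S <;> simp [Finset.piecewise, hi]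
    · by_cases hi : i ∈ S <;> simp [Finset.piecewise, hi]

lemma count_pairs (S J : Finset ι) (φ : Co ι κ) :
    (Finset.univ.filter fun q : (ι → κ) × (ι → κ) =>
      φ (res (J ∪ S) (S.piecewise q.1 q.2)) ≠ 0).card ≤
      Fintype.card (ι → κ) * N φ := by
  classical
  have h1 : (Finset.univ.filter fun q : (ι → κ) × (ι → κ) =>
      φ (res (J ∪ S) (S.piecewise q.1 q.2)) ≠ 0).card =
      (Finset.univ.filter fun q : (ι → κ) × (ι → κ) => φ (res (J ∪ S) q.2) ≠ 0).card := by
    refine Finset.card_equiv (swapE S) ?_
    intro q
    simp [swapE]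
  rw [h1]
  have h2 : (Finset.univ.filter fun q : (ι → κ) × (ι → κ) => φ (res (J ∪ S) q.2) ≠ 0) =
      (Finset.univ : Finset (ι → κ)) ×ˢ
        (Finset.univ.filter fun j : ι → κ => φ (res (J ∪ S) j) ≠ 0) := by
    ext q; simp
  rw [h2, Finset.card_product, Finset.card_univ]
  refine Nat.mul_le_mul_left _ ?_
  unfold N
  refine Finset.card_le_card_of_injOn (fun j => (J ∪ S, j)) ?_ ?_
  · intro j hj
    simpa using hj
  · intro j _ j' _ h
    exact (Prod.mk.inj h).2

/-- for a suitable base point the homotopy increases the norm at most by a constant factor -/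
lemma exists_base [Nonempty κ] (L : List ι) (φ : Co ι κ) :
    ∃ x : ι → κ, N (HH x L φ) ≤ 2 ^ Fintype.card ι * 2 ^ Fintype.card ι * N φ := by
  classical
  by_contra hcon
  push Not at hcon
  have hsum : ∑ x : ι → κ, N (HH x L φ) ≤
      2 ^ Fintype.card ι * (2 ^ Fintype.card ι * (Fintype.card (ι → κ) * N φ)) := by
    have h1 : ∑ x : ι → κ, N (HH x L φ) =
        (Finset.univ.filter fun q : (ι → κ) × (Finset ι × (ι → κ)) =>
          HH q.1 L φ (res q.2.1 q.2.2) ≠ 0).card := by
      simp only [N, Finset.card_filter]
      rw [Fintype.sum_prod_type]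
    rw [h1]
    have h2 : (Finset.univ.filter fun q : (ι → κ) × (Finset ι × (ι → κ)) =>
          HH q.1 L φ (res q.2.1 q.2.2) ≠ 0) ⊆
        (Finset.univ : Finset (Finset ι)).biUnion fun S =>
          (Finset.univ : Finset (Finset ι)).biUnion fun J =>
            (Finset.univ.filter fun q : (ι → κ) × (ι → κ) =>
              φ (res (J ∪ S) (S.piecewise q.1 q.2)) ≠ 0).image (fun q => (q.1, (J, q.2))) := by
      intro q hq
      simp only [Finset.mem_filter, Finset.mem_univ, true_and] at hq
      obtain ⟨S, hS⟩ := HH_witness _ _ _ _ hq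
      rw [piecewise_res] at hS
      simp only [Finset.mem_biUnion, Finset.mem_univ, true_and, Finset.mem_image,
        Finset.mem_filter]
      exact ⟨S, q.2.1, (q.1, q.2.2), hS, rfl⟩
    refine (Finset.card_le_card h2).trans ?_
    refine Finset.card_biUnion_le.trans ?_
    have h3 : ∀ S ∈ (Finset.univ : Finset (Finset ι)),
        ((Finset.univ : Finset (Finset ι)).biUnion fun J =>
            (Finset.univ.filter fun q : (ι → κ) × (ι → κ) =>
              φ (res (J ∪ S) (S.piecewise q.1 q.2)) ≠ 0).image (fun q => (q.1, (J, q.2)))).card ≤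
          2 ^ Fintype.card ι * (Fintype.card (ι → κ) * N φ) := by
      intro S _
      refine Finset.card_biUnion_le.trans ?_
      have h4 : ∀ J ∈ (Finset.univ : Finset (Finset ι)),
          ((Finset.univ.filter fun q : (ι → κ) × (ι → κ) =>
              φ (res (J ∪ S) (S.piecewise q.1 q.2)) ≠ 0).image
                (fun q => (q.1, (J, q.2)))).card ≤ Fintype.card (ι → κ) * N φ := by
        intro J _
        exact Finset.card_image_le.trans (count_pairs S J φ)
      refine (Finset.sum_le_card_nsmul _ _ _ h4).trans ?_
      simp [Fintype.card_finset]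
    refine (Finset.sum_le_card_nsmul _ _ _ h3).trans ?_
    simp [Fintype.card_finset]
  have hne : Nonempty (ι → κ) := inferInstance
  have hlt : ∑ x : ι → κ, 2 ^ Fintype.card ι * 2 ^ Fintype.card ι * N φ <
      ∑ x : ι → κ, N (HH x L φ) :=
    Finset.sum_lt_sum_of_nonempty Finset.univ_nonempty (fun x _ => hcon x)
  rw [Finset.sum_const, Finset.card_univ, smul_eq_mul] at hlt
  have : Fintype.card (ι → κ) * (2 ^ Fintype.card ι * 2 ^ Fintype.card ι * N φ) =
      2 ^ Fintype.card ι * (2 ^ Fintype.card ι * (Fintype.card (ι → κ) * N φ)) := by ring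
  omega

end

end Pool.Agent.K3h91.Sel
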