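import Mathlib

/-!
A compact interval cut out on a line by finitely many affine inequalities, no two of which are
equalities at the same feasible point, has an even number of active inequalities.
-/

set_option autoImplicit false

namespace Pool.Agent.K3h91.Sel

open Finset Filter Topology

lemma left_active {R : Type} [Fintype R] (a b : R → ℝ) (t1 : ℝ)
    (hF : ∀ r, 0 ≤ a r * t1 + b r)
    (hmin : ∀ t, (∀ r, 0 ≤ a r * t + b r) → t1 ≤ t) : ∃ r, 0 < a r ∧ a r * t1 + b r = 0 := by
  by_contra hcon
  push Not at hcon
  have key : ∀ᶠ e in 𝓝[>] (0 : ℝ), ∀ r, 0 ≤ a r * (t1 - e) + b r := by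
    rw [Filter.eventually_all]
    intro r
    by_cases har : 0 < a r
    · have h1 : 0 < a r * t1 + b r := lt_of_le_of_ne (hF r) (hcon r har).symm
      have h2 : Tendsto (fun e : ℝ => a r * (t1 - e) + b r) (𝓝[>] 0) (𝓝 (a r * (t1 - 0) + b r)) :=
        ((by fun_prop : Continuous fun e : ℝ => a r * (t1 - e) + b r).tendsto 0).mono_left
          nhdsWithin_le_nhds
      rw [sub_zero] at h2
      exact (h2.eventually_const_lt h1).mono fun e he => he.le
    · push Not at har
      filter_upwards [self_mem_nhdsWithin] with e he
      have he' : (0 : ℝ) < e := he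
      have := hF r
      nlinarith
  obtain ⟨e, he, he0⟩ := (key.and self_mem_nhdsWithin).exists
  have he0' : (0 : ℝ) < e := he0
  have := hmin _ he
  linarith

lemma parity_line {R : Type} [Fintype R] [DecidableEq R] (a b : R → ℝ) (B : ℝ)
    (hB : ∀ t : ℝ, (∀ r, 0 ≤ a r * t + b r) → |t| ≤ B)
    (hsep : ∀ t : ℝ, (∀ r, 0 ≤ a r * t + b r) → ∀ r r', r ≠ r' → a r * t + b r = 0 →
      a r' * t + b r' = 0 → False) (P : R → Prop) [DecidablePred P]
    (hP : ∀ r, P r ↔ ∃ t, (∀ r', 0 ≤ a r' * t + b r') ∧ a r * t + b r = 0) :
    Even (univ.filter P).card := by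
  classical
  set F : Set ℝ := {t | ∀ r, 0 ≤ a r * t + b r} with hFdef
  by_cases hne : F.Nonempty
  swap
  · have : univ.filter P = ∅ := by
      rw [Finset.filter_eq_empty_iff]
      intro r _ hr
      obtain ⟨t, ht, _⟩ := (hP r).1 hr
      exact hne ⟨t, ht⟩
    rw [this]; simp
  have hclosed : IsClosed F := by
    have : F = ⋂ r, {t | 0 ≤ a r * t + b r} := by ext t; simp [hFdef]
    rw [this]
    refine isClosed_iInter fun r => ?_
    exact isClosed_le continuous_const (by fun_prop)
  have hcomp : IsCompact F := by
    refine (isCompact_Icc (a := -B) (b := B)).of_isClosed_subset hclosed ?_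
    intro t ht
    exact abs_le.1 (hB t ht)
  obtain ⟨t1, ht1, hmin⟩ := hcomp.exists_isLeast hne
  obtain ⟨t2, ht2, hmax⟩ := hcomp.exists_isGreatest hne
  obtain ⟨r1, hr1, hr1'⟩ := left_active a b t1 ht1 (fun t ht => hmin ht)
  obtain ⟨r2, hr2, hr2'⟩ := left_active (fun r => - a r) b (-t2)
    (by intro r; have := ht2 r; simpa using this)
    (by
      intro t ht
      have : -t ∈ F := by
        intro r
        have := ht r
        simpa using this
      have := hmax this
      linarith)
  have hr2a : a r2 < 0 := by simpa using hr2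
  have hr2b : a r2 * t2 + b r2 = 0 := by simpa using hr2'
  have hne12 : r1 ≠ r2 := by rintro rfl; linarith
  have hset : univ.filter P = {r1, r2} := by
    ext r
    simp only [Finset.mem_filter, Finset.mem_univ, true_and, Finset.mem_insert,
      Finset.mem_singleton]
    constructor
    · intro hr
      obtain ⟨t, ht, hrt⟩ := (hP r).1 hr
      have h1 : t1 ≤ t := hmin ht
      have h2 : t ≤ t2 := hmax ht
      rcases lt_trichotomy (a r) 0 with har | har | har
      · right
        by_contra hne'
        have h3 : a r * t2 + b r = 0 := by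
          have := ht2 r
          nlinarith
        exact hsep t2 ht2 r r2 hne' h3 hr2b
      · left
        by_contra hne'
        have h3 : a r * t1 + b r = 0 := by
          rw [har] at hrt ⊢
          linarith
        exact hsep t1 ht1 r r1 hne' h3 hr1'
      · left
        by_contra hne'
        have h3 : a r * t1 + b r = 0 := by
          have := ht1 r
          nlinarith
        exact hsep t1 ht1 r r1 hne' h3 hr1'
    · rintro (rfl | rfl)
      · exact (hP _).2 ⟨t1, ht1, hr1'⟩
      · exact (hP _).2 ⟨t2, ht2, hr2b⟩
  rw [hset, Finset.card_pair hne12]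
  exact even_two

end Pool.Agent.K3h91.Sel
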