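import Pool.Agent.K3h91.Sel.Hom
import Pool.Agent.K3h91.Sel.Parity

/-!
Intersections modulo 2 of the faces of an axis-parallel grid with the simplices spanned by
partial transversals: the coboundary formula.
-/

set_option autoImplicit false
set_option linter.unusedSectionVars false
set_option linter.unusedSimpArgs false

namespace Pool.Agent.K3h91.Sel

open Finset Filter Topology

section

variable {ι κ : Type} [Fintype ι] [DecidableEq ι] [Fintype κ] [DecidableEq κ] {d : ℕ}

/-- the point of the partial transversal `t` with colour `l` (or zero) -/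
def pt (X : ι → κ → Fin d → ℝ) (t : ι → Option κ) (l : ι) : Fin d → ℝ := (t l).elim 0 (X l)

/-- the convex hull of the points of a partial transversal -/
def cv (X : ι → κ → Fin d → ℝ) (t : ι → Option κ) : Set (Fin d → ℝ) :=
  {y | ∃ w : ι → ℝ, (∀ l, 0 ≤ w l) ∧ (∀ l, t l = none → w l = 0) ∧ ∑ l, w l = 1 ∧
    ∀ j, y j = ∑ l, w l * pt X t l j}

/-- the faces of the grid -/
def box (c : Fin d → ℕ → ℝ) (f : Fin d → ℕ) : Set (Fin d → ℝ) :=
  {y | ∀ i, c i (f i / 2) ≤ y i ∧ y i ≤ c i ((f i + 1) / 2)}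

/-- the number of points of a partial transversal -/
def sz (t : ι → Option κ) : ℕ := (univ.filter fun l => t l ≠ none).card

/-- the dimension of a face -/
def dm (f : Fin d → ℕ) : ℕ := (univ.filter fun i => Odd (f i)).card

open Classical in
/-- the intersection cochain of a face -/
noncomputable def al (X : ι → κ → Fin d → ℝ) (c : Fin d → ℕ → ℝ) (f : Fin d → ℕ) : Co ι κ :=
  fun t => if sz t + dm f = d + 1 ∧ (box c f ∩ cv X t).Nonempty then 1 else 0

/-- the grid is in general position with respect to the points -/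
def GPg (X : ι → κ → Fin d → ℝ) (c : Fin d → ℕ → ℝ) : Prop :=
  ∀ (t : ι → Option κ) (J : Finset (Fin d)), sz t = J.card → ∀ (a : Fin d → ℕ) (w : ι → ℝ),
    (∀ l, t l = none → w l = 0) → ∑ l, w l = 1 →
    (∀ j ∈ J, ∑ l, w l * pt X t l j = c j (a j)) → False

lemma cv_update_none (X : ι → κ → Fin d → ℝ) (t : ι → Option κ) (l : ι) (y : Fin d → ℝ) :
    y ∈ cv X (Function.update t l none) ↔ ∃ w : ι → ℝ, (∀ l, 0 ≤ w l) ∧
      (∀ l, t l = none → w l = 0) ∧ w l = 0 ∧ ∑ l, w l = 1 ∧ ∀ j, y j = ∑ l, w l * pt X t l j := by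
  constructor
  · rintro ⟨w, h0, h1, h2, h3⟩
    have hwl : w l = 0 := h1 l (by simp)
    refine ⟨w, h0, ?_, hwl, h2, ?_⟩
    · intro m hm
      by_cases hml : m = l
      · rw [hml]; exact hwl
      · exact h1 m (by rw [Function.update_of_ne hml]; exact hm)
    · intro j
      rw [h3 j]
      refine Finset.sum_congr rfl fun m _ => ?_
      by_cases hml : m = l
      · rw [hml, hwl]; simp
      · simp [pt, Function.update_of_ne hml]
  · rintro ⟨w, h0, h1, hwl, h2, h3⟩
    refine ⟨w, h0, ?_, h2, ?_⟩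
    · intro m hm
      by_cases hml : m = l
      · rw [hml]; exact hwl
      · rw [Function.update_of_ne hml] at hm; exact h1 m hm
    · intro j
      rw [h3 j]
      refine Finset.sum_congr rfl fun m _ => ?_
      by_cases hml : m = l
      · rw [hml, hwl]; simp
      · simp [pt, Function.update_of_ne hml]

lemma sz_update_none (t : ι → Option κ) (l : ι) (h : t l ≠ none) :
    sz (Function.update t l none) + 1 = sz t := by
  unfold sz
  have h1 : (univ.filter fun m => Function.update t l none m ≠ none) =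
      (univ.filter fun m => t m ≠ none).erase l := by
    ext m
    by_cases hm : m = l
    · subst hm; simp
    · simp [hm, Function.update_of_ne hm]
  rw [h1, Finset.card_erase_of_mem (by simp [h])]
  have : 0 < (univ.filter fun m => t m ≠ none).card :=
    Finset.card_pos.2 ⟨l, by simp [h]⟩
  omega

lemma dm_update (f : Fin d → ℕ) (i : Fin d) (h : Odd (f i)) (m : ℕ) (hm : Even m) :
    dm (Function.update f i m) + 1 = dm f := by
  unfold dm
  have h1 : (univ.filter fun j => Odd (Function.update f i m j)) =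
      (univ.filter fun j => Odd (f j)).erase i := by
    ext j
    by_cases hj : j = i
    · subst hj; simpa using hm
    · simp [hj, Function.update_of_ne hj]
  rw [h1, Finset.card_erase_of_mem (by simp [h])]
  have : 0 < (univ.filter fun j => Odd (f j)).card := Finset.card_pos.2 ⟨i, by simp [h]⟩
  omega

/-- one dimensional solution spaces -/
lemma line_param (T : Finset ι) (J : Finset (Fin d)) (A : ι → Fin d → ℝ) (b : Fin d → ℝ)
    (hnt : ∀ w : ι → ℝ, (∀ l, l ∉ T → w l = 0) → ∑ l, w l = 1 →
      (∀ j ∈ J, ∑ l, w l * A l j = b j) → ∀ l ∈ T, ∀ l' ∈ T, l ≠ l' → w l = 0 → w l' = 0 → False)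
    (w0 v : ι → ℝ) (h0 : ∀ l, l ∉ T → w0 l = 0) (h1 : ∑ l, w0 l = 1)
    (h2 : ∀ j ∈ J, ∑ l, w0 l * A l j = b j)
    (g0 : ∀ l, l ∉ T → v l = 0) (g1 : ∑ l, v l = 0)
    (g2 : ∀ j ∈ J, ∑ l, v l * A l j = 0) (hv : v ≠ 0)
    (w : ι → ℝ) (k0 : ∀ l, l ∉ T → w l = 0) (k1 : ∑ l, w l = 1)
    (k2 : ∀ j ∈ J, ∑ l, w l * A l j = b j) : ∃ s : ℝ, ∀ l, w l = w0 l + s * v l := by
  obtain ⟨l, hl⟩ := Function.ne_iff.1 hv
  rw [Pi.zero_apply] at hl
  have hlT : l ∈ T := by by_contra h; exact hl (g0 l h)
  set s : ℝ := (w l - w0 l) / v l with hs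
  refine ⟨s, ?_⟩
  by_contra hcon
  push Not at hcon
  obtain ⟨m, hm⟩ := hcon
  set u : ι → ℝ := fun i => w i - w0 i - s * v i with hu
  have hul : u l = 0 := by
    simp only [hu, hs]; field_simp; ring
  have hum : u m ≠ 0 := by
    simp only [hu]; intro h; apply hm; linarith
  have hml : l ≠ m := by rintro rfl; exact hum hul
  have hmT : m ∈ T := by
    by_contra h
    apply hum
    simp only [hu, k0 m h, h0 m h, g0 m h]; ring
  set α : ℝ := - w0 l / v l with hα
  set β : ℝ := - (w0 m + α * v m) / u m with hβ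
  have hlin : ∀ (z : ι → ℝ), ∑ i, (w0 i + α * v i + β * u i) * z i =
      ∑ i, w0 i * z i + α * ∑ i, v i * z i + β * (∑ i, w i * z i - ∑ i, w0 i * z i
        - s * ∑ i, v i * z i) := by
    intro z
    have e1 : ∑ i, w i * z i - ∑ i, w0 i * z i - s * ∑ i, v i * z i = ∑ i, u i * z i := by
      rw [Finset.mul_sum, ← Finset.sum_sub_distrib, ← Finset.sum_sub_distrib]
      refine Finset.sum_congr rfl fun i _ => ?_
      simp only [hu]; ring
    rw [e1, Finset.mul_sum, Finset.mul_sum, ← Finset.sum_add_distrib, ← Finset.sum_add_distrib]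
    refine Finset.sum_congr rfl fun i _ => ?_
    ring
  refine hnt (fun i => w0 i + α * v i + β * u i) ?_ ?_ ?_ l hlT m hmT hml ?_ ?_
  · intro i hi
    simp only [hu, k0 i hi, h0 i hi, g0 i hi]; ring
  · have := hlin (fun _ => 1)
    simp only [mul_one] at this
    rw [this, h1, g1, k1]; ring
  · intro j hj
    have := hlin (fun i => A i j)
    rw [this, h2 j hj, g2 j hj, k2 j hj]; ring
  · simp only [hul, hα]; field_simp; ring
  · simp only [hβ]; field_simp; ring

lemma exists_dir (T : Finset ι) (J : Finset (Fin d)) (A : ι → Fin d → ℝ)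
    (hc : J.card + 1 < T.card) : ∃ v : ι → ℝ, v ≠ 0 ∧ (∀ l, l ∉ T → v l = 0) ∧ ∑ l, v l = 0 ∧
      ∀ j ∈ J, ∑ l, v l * A l j = 0 := by
  let g : (T → ℝ) →ₗ[ℝ] (Option J → ℝ) :=
    { toFun := fun v o => o.elim (∑ l : T, v l) (fun j => ∑ l : T, v l * A l j)
      map_add' := by
        intro u v
        funext o
        cases o with
        | none => simp [Finset.sum_add_distrib]
        | some j => simp [Finset.sum_add_distrib, add_mul]
      map_smul' := by
        intro a v
        funext o
        cases o with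
        | none => simp [Finset.mul_sum]
        | some j => simp [Finset.mul_sum, mul_assoc] }
  have hker : LinearMap.ker g ≠ ⊥ := by
    apply LinearMap.ker_ne_bot_of_finrank_lt
    simp only [Module.finrank_fintype_fun_eq_card, Fintype.card_option, Fintype.card_coe]
    exact hc
  obtain ⟨v, hv, hv0⟩ := Submodule.exists_mem_ne_zero_of_ne_bot hker
  rw [LinearMap.mem_ker] at hv
  have hsum : ∀ z : ι → ℝ, ∑ l, (if h : l ∈ T then v ⟨l, h⟩ else 0) * z l = ∑ l : T, v l * z l := by
    intro z
    rw [← Finset.sum_subset (Finset.subset_univ T) (fun l _ hl => by simp [hl]),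
      ← Finset.sum_coe_sort T]
    refine Finset.sum_congr rfl fun l _ => ?_
    simp
  refine ⟨fun l => if h : l ∈ T then v ⟨l, h⟩ else 0, ?_, ?_, ?_, ?_⟩
  · intro h
    apply hv0
    funext l
    have := congrFun h l
    simpa using this
  · intro l hl; simp [hl]
  · have h1 := congrFun hv none
    have h2 := hsum (fun _ => 1)
    simp only [mul_one] at h2
    rw [h2]; exact h1
  · intro j hj
    have h1 := congrFun hv (some ⟨j, hj⟩)
    rw [hsum (fun l => A l j)]; exact h1

lemma GPg.elim {X : ι → κ → Fin d → ℝ} {c : Fin d → ℕ → ℝ} (hG : GPg X c)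
    (t : ι → Option κ) (w : ι → ℝ) (hw : ∀ l, t l = none → w l = 0) (h1 : ∑ l, w l = 1)
    (Z : Finset ι) (hZ : ∀ l ∈ Z, t l ≠ none ∧ w l = 0) (J : Finset (Fin d)) (a : Fin d → ℕ)
    (hJ : ∀ j ∈ J, ∑ l, w l * pt X t l j = c j (a j)) (hcard : sz t = J.card + Z.card) :
    False := by
  classical
  have hsz : sz (fun l => if l ∈ Z then none else t l) = J.card := by
    have h2 : (univ.filter fun l => (if l ∈ Z then none else t l) ≠ none) =
        (univ.filter fun l => t l ≠ none) \ Z := by
      ext l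
      by_cases hl : l ∈ Z <;> simp [hl]
    have h3 : Z ⊆ (univ.filter fun l => t l ≠ none) := by
      intro l hl
      simpa using (hZ l hl).1
    unfold sz at hcard ⊢
    rw [h2, Finset.card_sdiff_of_subset h3, hcard]
    omega
  refine hG (fun l => if l ∈ Z then none else t l) J hsz a w ?_ h1 ?_
  · intro l hl
    by_cases hlZ : l ∈ Z
    · exact (hZ l hlZ).2
    · rw [if_neg hlZ] at hl; exact hw l hl
  · intro j hj
    rw [← hJ j hj]
    refine Finset.sum_congr rfl fun l _ => ?_
    by_cases hlZ : l ∈ Z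
    · rw [(hZ l hlZ).2]; simp
    · simp [pt, hlZ]

lemma box_even {c : Fin d → ℕ → ℝ} {f : Fin d → ℕ} {y : Fin d → ℝ} (hy : y ∈ box c f) {j : Fin d}
    (hj : ¬ Odd (f j)) : y j = c j (f j / 2) := by
  have h1 := hy j
  rw [Nat.not_odd_iff_even] at hj
  obtain ⟨m, hm⟩ := hj
  have h2 : (f j + 1) / 2 = f j / 2 := by omega
  rw [h2] at h1
  exact le_antisymm h1.2 h1.1

lemma box_lower {c : Fin d → ℕ → ℝ} (hc : ∀ i, StrictMono (c i)) {f : Fin d → ℕ} {i : Fin d}
    (hi : Odd (f i)) (y : Fin d → ℝ) :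
    y ∈ box c (Function.update f i (f i - 1)) ↔ y ∈ box c f ∧ y i = c i (f i / 2) := by
  obtain ⟨m, hm⟩ := hi
  constructor
  · intro h
    have h1 := h i
    rw [Function.update_self] at h1
    have e1 : (f i - 1) / 2 = f i / 2 := by omega
    have e2 : (f i - 1 + 1) / 2 = f i / 2 := by omega
    rw [e1, e2] at h1
    have hyi : y i = c i (f i / 2) := le_antisymm h1.2 h1.1
    refine ⟨?_, hyi⟩
    intro j
    by_cases hj : j = i
    · subst hj
      rw [hyi]
      exact ⟨le_refl _, (hc j).monotone (by omega)⟩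
    · have := h j
      rwa [Function.update_of_ne hj] at this
  · rintro ⟨h, hyi⟩ j
    by_cases hj : j = i
    · subst hj
      rw [Function.update_self, hyi]
      have e1 : (f j - 1) / 2 = f j / 2 := by omega
      have e2 : (f j - 1 + 1) / 2 = f j / 2 := by omega
      rw [e1, e2]
      exact ⟨le_refl _, le_refl _⟩
    · rw [Function.update_of_ne hj]; exact h j

lemma box_upper {c : Fin d → ℕ → ℝ} (hc : ∀ i, StrictMono (c i)) {f : Fin d → ℕ} {i : Fin d}
    (hi : Odd (f i)) (y : Fin d → ℝ) :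
    y ∈ box c (Function.update f i (f i + 1)) ↔ y ∈ box c f ∧ y i = c i ((f i + 1) / 2) := by
  obtain ⟨m, hm⟩ := hi
  constructor
  · intro h
    have h1 := h i
    rw [Function.update_self] at h1
    have e2 : (f i + 1 + 1) / 2 = (f i + 1) / 2 := by omega
    rw [e2] at h1
    have hyi : y i = c i ((f i + 1) / 2) := le_antisymm h1.2 h1.1
    refine ⟨?_, hyi⟩
    intro j
    by_cases hj : j = i
    · subst hj
      rw [hyi]
      exact ⟨(hc j).monotone (by omega), le_refl _⟩
    · have := h j
      rwa [Function.update_of_ne hj] at this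
  · rintro ⟨h, hyi⟩ j
    by_cases hj : j = i
    · subst hj
      rw [Function.update_self, hyi]
      have e2 : (f j + 1 + 1) / 2 = (f j + 1) / 2 := by omega
      rw [e2]
      exact ⟨le_refl _, le_refl _⟩
    · rw [Function.update_of_ne hj]; exact h j

open Classical in
/-- the number of intersections is even -/
lemma even_active {X : ι → κ → Fin d → ℝ} {c : Fin d → ℕ → ℝ} (hc : ∀ i, StrictMono (c i))
    (hG : GPg X c) (f : Fin d → ℕ) (t : ι → Option κ) (hsz : sz t + dm f = d + 2)
    (P : ({l : ι // t l ≠ none} ⊕ ({i : Fin d // Odd (f i)} × Bool)) → Prop)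
    (hP1 : ∀ l : {l : ι // t l ≠ none}, P (Sum.inl l) ↔
      (box c f ∩ cv X (Function.update t l.1 none)).Nonempty)
    (hP2 : ∀ i : {i : Fin d // Odd (f i)}, P (Sum.inr (i, false)) ↔
      (box c (Function.update f i.1 (f i.1 - 1)) ∩ cv X t).Nonempty)
    (hP3 : ∀ i : {i : Fin d // Odd (f i)}, P (Sum.inr (i, true)) ↔
      (box c (Function.update f i.1 (f i.1 + 1)) ∩ cv X t).Nonempty) :
    Even (univ.filter P).card := by
  set T : Finset ι := univ.filter fun l => t l ≠ none with hT
  set J : Finset (Fin d) := univ.filter fun i => ¬ Odd (f i) with hJ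
  have hmemT : ∀ l, l ∈ T ↔ t l ≠ none := fun l => by simp [hT]
  have hmemJ : ∀ j, j ∈ J ↔ ¬ Odd (f j) := fun l => by simp [hJ]
  have hTc : T.card = sz t := rfl
  have hJc : J.card + dm f = d := by
    have := Finset.card_filter_add_card_filter_not (s := (univ : Finset (Fin d)))
      (fun i => Odd (f i))
    rw [Finset.card_univ, Fintype.card_fin] at this
    unfold dm
    rw [hJ]; omega
  have hTJ : T.card = J.card + 2 := by omega
  -- an auxiliary description of the events
  have hQ1 : ∀ l : {l : ι // t l ≠ none}, P (Sum.inl l) ↔ ∃ w : ι → ℝ, (∀ l, 0 ≤ w l) ∧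
      (∀ l, t l = none → w l = 0) ∧ ∑ l, w l = 1 ∧ (fun j => ∑ l, w l * pt X t l j) ∈ box c f ∧
      w l.1 = 0 := by
    intro l
    rw [hP1]
    constructor
    · rintro ⟨y, hy, hy2⟩
      obtain ⟨w, h0, h1, h2, h3, h4⟩ := (cv_update_none X t l.1 y).1 hy2
      refine ⟨w, h0, h1, h3, ?_, h2⟩
      rw [← funext h4]; exact hy
    · rintro ⟨w, h0, h1, h2, h3, h4⟩
      exact ⟨_, h3, (cv_update_none X t l.1 _).2 ⟨w, h0, h1, h4, h2, fun j => rfl⟩⟩
  have hQ2 : ∀ i : {i : Fin d // Odd (f i)}, P (Sum.inr (i, false)) ↔ ∃ w : ι → ℝ, (∀ l, 0 ≤ w l) ∧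
      (∀ l, t l = none → w l = 0) ∧ ∑ l, w l = 1 ∧ (fun j => ∑ l, w l * pt X t l j) ∈ box c f ∧
      ∑ l, w l * pt X t l i.1 = c i.1 (f i.1 / 2) := by
    intro i
    rw [hP2]
    constructor
    · rintro ⟨y, hy, w, h0, h1, h2, h3⟩
      rw [box_lower hc i.2] at hy
      refine ⟨w, h0, h1, h2, ?_, ?_⟩
      · rw [← funext h3]; exact hy.1
      · rw [← h3]; exact hy.2
    · rintro ⟨w, h0, h1, h2, h3, h4⟩
      exact ⟨_, (box_lower hc i.2 _).2 ⟨h3, h4⟩, w, h0, h1, h2, fun j => rfl⟩
  have hQ3 : ∀ i : {i : Fin d // Odd (f i)}, P (Sum.inr (i, true)) ↔ ∃ w : ι → ℝ, (∀ l, 0 ≤ w l) ∧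
      (∀ l, t l = none → w l = 0) ∧ ∑ l, w l = 1 ∧ (fun j => ∑ l, w l * pt X t l j) ∈ box c f ∧
      ∑ l, w l * pt X t l i.1 = c i.1 ((f i.1 + 1) / 2) := by
    intro i
    rw [hP3]
    constructor
    · rintro ⟨y, hy, w, h0, h1, h2, h3⟩
      rw [box_upper hc i.2] at hy
      refine ⟨w, h0, h1, h2, ?_, ?_⟩
      · rw [← funext h3]; exact hy.1
      · rw [← h3]; exact hy.2
    · rintro ⟨w, h0, h1, h2, h3, h4⟩
      exact ⟨_, (box_upper hc i.2 _).2 ⟨h3, h4⟩, w, h0, h1, h2, fun j => rfl⟩
  by_cases hex : ∃ w0 : ι → ℝ, (∀ l, l ∉ T → w0 l = 0) ∧ ∑ l, w0 l = 1 ∧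
      ∀ j ∈ J, ∑ l, w0 l * pt X t l j = c j (f j / 2)
  swap
  · have hall : ∀ w : ι → ℝ, (∀ l, t l = none → w l = 0) → ∑ l, w l = 1 →
        (fun j => ∑ l, w l * pt X t l j) ∈ box c f → False := by
      intro w h1 h2 h3
      refine hex ⟨w, ?_, h2, ?_⟩
      · intro l hl
        rw [hmemT, not_not] at hl
        exact h1 l hl
      · intro j hj
        exact box_even h3 ((hmemJ j).1 hj)
    have : univ.filter P = ∅ := by
      rw [Finset.filter_eq_empty_iff]
      rintro (l | ⟨i, b⟩) _ hr
      · obtain ⟨w, _, h1, h2, h3, _⟩ := (hQ1 l).1 hr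
        exact hall w h1 h2 h3
      · cases b
        · obtain ⟨w, _, h1, h2, h3, _⟩ := (hQ2 i).1 hr
          exact hall w h1 h2 h3
        · obtain ⟨w, _, h1, h2, h3, _⟩ := (hQ3 i).1 hr
          exact hall w h1 h2 h3
    rw [this]; simp
  obtain ⟨w0, h0, h1, h2⟩ := hex
  obtain ⟨v, hv, g0, g1, g2⟩ := exists_dir T J (pt X t) (by omega)
  have hsolve : ∀ w : ι → ℝ, (∀ l, t l = none → w l = 0) → ∑ l, w l = 1 →
      (fun j => ∑ l, w l * pt X t l j) ∈ box c f → ∃ s : ℝ, ∀ l, w l = w0 l + s * v l := by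
    intro w k0 k1 k2
    refine line_param T J (pt X t) (fun j => c j (f j / 2)) ?_ w0 v h0 h1 h2 g0 g1 g2 hv w ?_ k1 ?_
    · intro w' m0 m1 m2 l hl l' hl' hne e1 e2
      refine hG.elim t w' (fun l hl => m0 l (by simp [hmemT, hl])) m1 {l, l'} ?_ J
        (fun j => f j / 2) m2 ?_
      · intro m hm
        simp only [Finset.mem_insert, Finset.mem_singleton] at hm
        rcases hm with rfl | rfl
        · exact ⟨(hmemT _).1 hl, e1⟩
        · exact ⟨(hmemT _).1 hl', e2⟩
      · rw [Finset.card_pair hne, ← hTc, hTJ]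
    · intro l hl
      rw [hmemT, not_not] at hl
      exact k0 l hl
    · intro j hj
      exact box_even k2 ((hmemJ j).1 hj)
  have hlin : ∀ (s : ℝ) (j : Fin d), ∑ l, (w0 l + s * v l) * pt X t l j =
      ∑ l, w0 l * pt X t l j + s * ∑ l, v l * pt X t l j := by
    intro s j
    rw [Finset.mul_sum, ← Finset.sum_add_distrib]
    exact Finset.sum_congr rfl fun l _ => by ring
  have hsum : ∀ s : ℝ, ∑ l, (w0 l + s * v l) = 1 := by
    intro s
    rw [Finset.sum_add_distrib, ← Finset.mul_sum, h1, g1]; ring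
  set a : ({l : ι // t l ≠ none} ⊕ ({i : Fin d // Odd (f i)} × Bool)) → ℝ :=
    Sum.elim (fun l => v l.1) (fun p => if p.2 then - ∑ l, v l * pt X t l p.1.1
      else ∑ l, v l * pt X t l p.1.1) with ha
  set b : ({l : ι // t l ≠ none} ⊕ ({i : Fin d // Odd (f i)} × Bool)) → ℝ :=
    Sum.elim (fun l => w0 l.1) (fun p => if p.2 then c p.1.1 ((f p.1.1 + 1) / 2) -
      ∑ l, w0 l * pt X t l p.1.1 else ∑ l, w0 l * pt X t l p.1.1 - c p.1.1 (f p.1.1 / 2)) with hb
  have hfeas : ∀ s : ℝ, (∀ r, 0 ≤ a r * s + b r) ↔ (∀ l, 0 ≤ w0 l + s * v l) ∧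
      (fun j => ∑ l, (w0 l + s * v l) * pt X t l j) ∈ box c f := by
    intro s
    constructor
    · intro h
      refine ⟨?_, ?_⟩
      · intro l
        by_cases hl : t l = none
        · rw [h0 l (by simp [hmemT, hl]), g0 l (by simp [hmemT, hl])]; simp
        · have := h (Sum.inl ⟨l, hl⟩)
          simp only [ha, hb, Sum.elim_inl] at this
          linarith
      · intro i
        by_cases hi : Odd (f i)
        · have k1 := h (Sum.inr (⟨i, hi⟩, false))
          have k2 := h (Sum.inr (⟨i, hi⟩, true))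
          simp only [ha, hb, Sum.elim_inr, if_true, Bool.false_eq_true, if_false] at k1 k2
          simp only [hlin]
          constructor <;> linarith
        · have k1 := h2 i ((hmemJ i).2 hi)
          have k2 := g2 i ((hmemJ i).2 hi)
          have h3 : (f i + 1) / 2 = f i / 2 := by
            rw [Nat.not_odd_iff_even] at hi
            obtain ⟨m, hm⟩ := hi
            omega
          simp only [hlin, k1, k2, h3, mul_zero, add_zero]
          exact ⟨le_refl _, le_refl _⟩
    · rintro ⟨k1, k2⟩ r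
      rcases r with l | ⟨i, bb⟩
      · simp only [ha, hb, Sum.elim_inl]
        have := k1 l.1
        linarith
      · have := k2 i.1
        simp only [hlin] at this
        cases bb
        · simp only [ha, hb, Sum.elim_inr, Bool.false_eq_true, if_false]
          linarith [this.1]
        · simp only [ha, hb, Sum.elim_inr, if_true]
          linarith [this.2]
  have hact1 : ∀ (s : ℝ) (l : {l : ι // t l ≠ none}), a (Sum.inl l) * s + b (Sum.inl l) =
      w0 l.1 + s * v l.1 := by
    intro s l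
    simp only [ha, hb, Sum.elim_inl]; ring
  have hact2 : ∀ (s : ℝ) (i : {i : Fin d // Odd (f i)}), a (Sum.inr (i, false)) * s +
      b (Sum.inr (i, false)) = ∑ l, (w0 l + s * v l) * pt X t l i.1 - c i.1 (f i.1 / 2) := by
    intro s i
    rw [hlin]
    simp only [ha, hb, Sum.elim_inr, Bool.false_eq_true, if_false]; ring
  have hact3 : ∀ (s : ℝ) (i : {i : Fin d // Odd (f i)}), a (Sum.inr (i, true)) * s +
      b (Sum.inr (i, true)) = c i.1 ((f i.1 + 1) / 2) -
        ∑ l, (w0 l + s * v l) * pt X t l i.1 := by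
    intro s i
    rw [hlin]
    simp only [ha, hb, Sum.elim_inr, if_true]; ring
  have hsupp : ∀ (s : ℝ) (l : ι), t l = none → w0 l + s * v l = 0 := by
    intro s l hl
    rw [h0 l (by simp [hmemT, hl]), g0 l (by simp [hmemT, hl])]; simp
  -- the coordinate equations
  have hcoord : ∀ (s : ℝ), ∀ j ∈ J, ∑ l, (w0 l + s * v l) * pt X t l j = c j (f j / 2) := by
    intro s j hj
    rw [hlin, h2 j hj, g2 j hj]; ring
  obtain ⟨m, hm⟩ := Function.ne_iff.1 hv
  rw [Pi.zero_apply] at hm
  refine parity_line a b ((1 + |w0 m|) / |v m|) ?_ ?_ P ?_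
  · intro s hs
    obtain ⟨k1, _⟩ := (hfeas s).1 hs
    have k2 : w0 m + s * v m ≤ 1 := by
      rw [← hsum s]
      exact Finset.single_le_sum (f := fun l => w0 l + s * v l) (fun l _ => k1 l) (mem_univ m)
    have k3 := k1 m
    rw [le_div_iff₀ (abs_pos.2 hm), ← abs_mul]
    have k4 : |s * v m| = |(w0 m + s * v m) - w0 m| := by ring_nf
    rw [k4]
    refine (abs_sub _ _).trans ?_
    rw [abs_of_nonneg k3]
    linarith
  · intro s hs r r' hrr e1 e2
    obtain ⟨k1, k2⟩ := (hfeas s).1 hs
    rcases r with l | ⟨i, bb⟩ <;> rcases r' with l' | ⟨i', bb'⟩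
    · rw [hact1] at e1 e2
      have hne : l.1 ≠ l'.1 := fun h => hrr (by rw [Subtype.ext h])
      refine hG.elim t (fun l => w0 l + s * v l) (hsupp s) (hsum s) {l.1, l'.1} ?_ J
        (fun j => f j / 2) (hcoord s) ?_
      · intro m hm
        simp only [Finset.mem_insert, Finset.mem_singleton] at hm
        rcases hm with rfl | rfl
        · exact ⟨l.2, e1⟩
        · exact ⟨l'.2, e2⟩
      · rw [Finset.card_pair hne, ← hTc, hTJ]
    · rw [hact1] at e1
      obtain ⟨val, hval⟩ : ∃ val : ℕ, ∑ l, (w0 l + s * v l) * pt X t l i'.1 = c i'.1 val := by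
        cases bb'
        · rw [hact2] at e2; exact ⟨_, by linarith⟩
        · rw [hact3] at e2; exact ⟨_, by linarith⟩
      have hiJ : i'.1 ∉ J := fun h => (hmemJ _).1 h i'.2
      refine hG.elim t (fun l => w0 l + s * v l) (hsupp s) (hsum s) {l.1} ?_ (insert i'.1 J)
        (Function.update (fun j => f j / 2) i'.1 val) ?_ ?_
      · intro m hm
        rw [Finset.mem_singleton] at hm
        rw [hm]
        exact ⟨l.2, e1⟩
      · intro j hj
        by_cases hji : j = i'.1
        · rw [hji, Function.update_self]; exact hval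
        · rw [Function.update_of_ne hji]
          exact hcoord s j ((Finset.mem_insert.1 hj).resolve_left hji)
      · rw [Finset.card_insert_of_notMem hiJ, Finset.card_singleton]; omega
    · rw [hact1] at e2
      obtain ⟨val, hval⟩ : ∃ val : ℕ, ∑ l, (w0 l + s * v l) * pt X t l i.1 = c i.1 val := by
        cases bb
        · rw [hact2] at e1; exact ⟨_, by linarith⟩
        · rw [hact3] at e1; exact ⟨_, by linarith⟩
      have hiJ : i.1 ∉ J := fun h => (hmemJ _).1 h i.2
      refine hG.elim t (fun l => w0 l + s * v l) (hsupp s) (hsum s) {l'.1} ?_ (insert i.1 J)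
        (Function.update (fun j => f j / 2) i.1 val) ?_ ?_
      · intro m hm
        rw [Finset.mem_singleton] at hm
        rw [hm]
        exact ⟨l'.2, e2⟩
      · intro j hj
        by_cases hji : j = i.1
        · rw [hji, Function.update_self]; exact hval
        · rw [Function.update_of_ne hji]
          exact hcoord s j ((Finset.mem_insert.1 hj).resolve_left hji)
      · rw [Finset.card_insert_of_notMem hiJ, Finset.card_singleton]; omega
    · by_cases hii : i = i'
      · subst hii
        have hlt : c i.1 (f i.1 / 2) < c i.1 ((f i.1 + 1) / 2) := by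
          refine hc _ ?_
          obtain ⟨q, hq⟩ := i.2
          omega
        cases bb <;> cases bb'
        · exact hrr rfl
        · rw [hact2] at e1; rw [hact3] at e2; linarith
        · rw [hact3] at e1; rw [hact2] at e2; linarith
        · exact hrr rfl
      · obtain ⟨val, hval⟩ : ∃ val : ℕ, ∑ l, (w0 l + s * v l) * pt X t l i.1 = c i.1 val := by
          cases bb
          · rw [hact2] at e1; exact ⟨_, by linarith⟩
          · rw [hact3] at e1; exact ⟨_, by linarith⟩
        obtain ⟨val', hval'⟩ : ∃ val : ℕ, ∑ l, (w0 l + s * v l) * pt X t l i'.1 = c i'.1 val := by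
          cases bb'
          · rw [hact2] at e2; exact ⟨_, by linarith⟩
          · rw [hact3] at e2; exact ⟨_, by linarith⟩
        have hiJ : i.1 ∉ J := fun h => (hmemJ _).1 h i.2
        have hiJ' : i'.1 ∉ J := fun h => (hmemJ _).1 h i'.2
        have hne : i.1 ≠ i'.1 := fun h => hii (Subtype.ext h)
        refine hG.elim t (fun l => w0 l + s * v l) (hsupp s) (hsum s) ∅ (by simp)
          (insert i.1 (insert i'.1 J))
          (Function.update (Function.update (fun j => f j / 2) i'.1 val') i.1 val) ?_ ?_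
        · intro j hj
          by_cases hji : j = i.1
          · rw [hji, Function.update_self]; exact hval
          · rw [Function.update_of_ne hji]
            by_cases hji' : j = i'.1
            · rw [hji', Function.update_self]; exact hval'
            · rw [Function.update_of_ne hji']
              exact hcoord s j ((Finset.mem_insert.1
                ((Finset.mem_insert.1 hj).resolve_left hji)).resolve_left hji')
        · rw [Finset.card_insert_of_notMem, Finset.card_insert_of_notMem hiJ',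
            Finset.card_empty]
          · omega
          · simp [hne, hiJ]
  · rintro (l | ⟨i, bb⟩)
    · rw [hQ1]
      constructor
      · rintro ⟨w, k0, k1, k2, k3, k4⟩
        obtain ⟨s, hs⟩ := hsolve w k1 k2 k3
        refine ⟨s, (hfeas s).2 ⟨fun l => by rw [← hs]; exact k0 l, ?_⟩, ?_⟩
        · simp only [← hs]; exact k3
        · rw [hact1, ← hs]; exact k4
      · rintro ⟨s, hs, hs'⟩
        obtain ⟨k1, k2⟩ := (hfeas s).1 hs
        rw [hact1] at hs'
        exact ⟨fun l => w0 l + s * v l, k1, hsupp s, hsum s, k2, hs'⟩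
    · cases bb
      · rw [hQ2]
        constructor
        · rintro ⟨w, k0, k1, k2, k3, k4⟩
          obtain ⟨s, hs⟩ := hsolve w k1 k2 k3
          refine ⟨s, (hfeas s).2 ⟨fun l => by rw [← hs]; exact k0 l, ?_⟩, ?_⟩
          · simp only [← hs]; exact k3
          · rw [hact2]; simp only [← hs]; rw [k4]; ring
        · rintro ⟨s, hs, hs'⟩
          obtain ⟨k1, k2⟩ := (hfeas s).1 hs
          rw [hact2] at hs'
          exact ⟨fun l => w0 l + s * v l, k1, hsupp s, hsum s, k2, by linarith⟩
      · rw [hQ3]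
        constructor
        · rintro ⟨w, k0, k1, k2, k3, k4⟩
          obtain ⟨s, hs⟩ := hsolve w k1 k2 k3
          refine ⟨s, (hfeas s).2 ⟨fun l => by rw [← hs]; exact k0 l, ?_⟩, ?_⟩
          · simp only [← hs]; exact k3
          · rw [hact3]; simp only [← hs]; rw [k4]; ring
        · rintro ⟨s, hs, hs'⟩
          obtain ⟨k1, k2⟩ := (hfeas s).1 hs
          rw [hact3] at hs'
          exact ⟨fun l => w0 l + s * v l, k1, hsupp s, hsum s, k2, by linarith⟩

end

end Pool.Agent.K3h91.Sel
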