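import Pool.Agent.K3h91.Sel.Sparse

/-!
Existence of a fine grid in general position and of a point in a positive fraction of the rainbow
simplices.
-/

set_option autoImplicit false
set_option linter.unusedSectionVars false

namespace Pool.Agent.K3h91.Sel

open Finset Filter Topology MeasureTheory

section

variable {ι κ : Type} [Fintype ι] [DecidableEq ι] [Fintype κ] [DecidableEq κ] {d : ℕ}

/-- the shifts which are bad for given coordinates and points form a null set -/
lemma bad_null (X : ι → κ → Fin d → ℝ) (t : ι → Option κ) (J : Finset (Fin d))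
    (hJ : sz t = J.card) (β : Fin d → ℝ) :
    (volume : Measure (Fin d → ℝ)) {θ | ∃ w : ι → ℝ, (∀ l, t l = none → w l = 0) ∧
      ∑ l, w l = 1 ∧ ∀ j ∈ J, ∑ l, w l * pt X t l j = β j + θ j} = 0 := by
  classical
  set T : Finset ι := univ.filter fun l => t l ≠ none with hT
  have hmemT : ∀ l, l ∈ T ↔ t l ≠ none := fun l => by simp [hT]
  have hTJ : T.card = J.card := hJ
  by_cases hT0 : T = ∅
  · have e : {θ : Fin d → ℝ | ∃ w : ι → ℝ, (∀ l, t l = none → w l = 0) ∧
      ∑ l, w l = 1 ∧ ∀ j ∈ J, ∑ l, w l * pt X t l j = β j + θ j} = ∅ := by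
      ext θ
      simp only [Set.mem_ofPred_eq, Set.mem_empty_iff_false, iff_false]
      rintro ⟨w, h1, h2, _⟩
      rw [Finset.sum_eq_zero] at h2
      · exact zero_ne_one h2
      · intro l _
        apply h1
        by_contra h
        have : l ∈ T := (hmemT l).2 h
        rw [hT0] at this
        exact absurd this (Finset.notMem_empty _)
    rw [e]; simp
  -- a functional vanishing on the given points
  obtain ⟨u0, u, hu, hu0⟩ : ∃ (u0 : ℝ) (u : Fin d → ℝ), (∃ j ∈ J, u j ≠ 0) ∧
      ∀ l ∈ T, u0 + ∑ j ∈ J, u j * (pt X t l j - β j) = 0 := by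
    let g : (Option J → ℝ) →ₗ[ℝ] (T → ℝ) :=
      { toFun := fun v l => v none + ∑ j : J, v (some j) * (pt X t l.1 j.1 - β j.1)
        map_add' := by
          intro a b
          funext l
          simp only [Pi.add_apply, add_mul, Finset.sum_add_distrib]
          ring
        map_smul' := by
          intro a b
          funext l
          simp only [Pi.smul_apply, smul_eq_mul, RingHom.id_apply, mul_add, Finset.mul_sum]
          congr 1
          exact Finset.sum_congr rfl fun j _ => by ring }
    have hker : LinearMap.ker g ≠ ⊥ := by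
      apply LinearMap.ker_ne_bot_of_finrank_lt
      simp only [Module.finrank_fintype_fun_eq_card, Fintype.card_option, Fintype.card_coe]
      omega
    obtain ⟨v, hv, hv0⟩ := Submodule.exists_mem_ne_zero_of_ne_bot hker
    rw [LinearMap.mem_ker] at hv
    have hgv : ∀ l : T, v none + ∑ j : J, v (some j) * (pt X t l.1 j.1 - β j.1) = 0 :=
      fun l => congrFun hv l
    refine ⟨v none, fun j => if h : j ∈ J then v (some ⟨j, h⟩) else 0, ?_, ?_⟩
    · by_contra hcon
      push Not at hcon
      have h1 : ∀ j : J, v (some j) = 0 := by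
        intro j
        have := hcon j.1 j.2
        simpa using this
      obtain ⟨l, hl⟩ := Finset.nonempty_iff_ne_empty.2 hT0
      have h2 := hgv ⟨l, hl⟩
      simp only [h1, zero_mul, Finset.sum_const_zero, add_zero] at h2
      apply hv0
      funext o
      cases o with
      | none => exact h2
      | some j => exact h1 j
    · intro l hl
      rw [← hgv ⟨l, hl⟩]
      congr 1
      rw [← Finset.sum_coe_sort J]
      refine Finset.sum_congr rfl fun j _ => ?_
      simp
  obtain ⟨j0, hj0, huj0⟩ := hu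
  let L : (Fin d → ℝ) →ₗ[ℝ] ℝ := ∑ j ∈ J, u j • LinearMap.proj j
  have hLa : ∀ θ : Fin d → ℝ, L θ = ∑ j ∈ J, u j * θ j := by
    intro θ
    simp [L, LinearMap.sum_apply]
  have hL : L ≠ 0 := by
    intro h
    have h1 : L (Pi.single j0 1) = 0 := by rw [h]; rfl
    rw [hLa, Finset.sum_eq_single j0] at h1
    · simp at h1; exact huj0 h1
    · intro j _ hj; simp [hj]
    · intro h; exact absurd hj0 h
  refine measure_mono_null ?_ (null_hyperplane L hL (- u0))
  rintro θ ⟨w, h1, h2, h3⟩
  show L θ = - u0
  rw [hLa]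
  have h4 : ∀ j ∈ J, u j * θ j = ∑ l, w l * (u j * (pt X t l j - β j)) := by
    intro j hj
    have h5 : θ j = ∑ l, w l * (pt X t l j - β j) := by
      have := h3 j hj
      simp only [mul_sub, Finset.sum_sub_distrib, ← Finset.sum_mul, h2]
      linarith
    rw [h5, Finset.mul_sum]
    exact Finset.sum_congr rfl fun l _ => by ring
  rw [Finset.sum_congr rfl h4, Finset.sum_comm]
  have h6 : ∀ l ∈ (univ : Finset ι), ∑ j ∈ J, w l * (u j * (pt X t l j - β j)) = w l * (- u0) := by
    intro l _
    rw [← Finset.mul_sum]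
    by_cases hl : l ∈ T
    · have := hu0 l hl
      congr 1
      linarith
    · rw [hmemT, not_not] at hl
      rw [h1 l hl]; simp
  rw [Finset.sum_congr rfl h6, ← Finset.sum_mul, h2]; ring

/-- existence of a fine grid in general position -/
lemma exists_grid (X : ι → κ → Fin d → ℝ) (δ : ℝ) (hδ : 0 < δ) :
    ∃ (c : Fin d → ℕ → ℝ) (M : ℕ), (∀ i, StrictMono (c i)) ∧ GPg X c ∧
      (∀ l k j, c j 0 < X l k j ∧ X l k j < c j M) ∧ ∀ i a, c i (a + 1) - c i a ≤ δ := by
  classical
  obtain ⟨R, hR0, hR⟩ : ∃ R : ℝ, 0 ≤ R ∧ ∀ l k j, |X l k j| ≤ R := by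
    refine ⟨∑ l, ∑ k, ∑ j, |X l k j|, by positivity, ?_⟩
    intro l k j
    calc |X l k j| ≤ ∑ j, |X l k j| :=
          Finset.single_le_sum (f := fun j => |X l k j|) (fun _ _ => abs_nonneg _) (mem_univ j)
      _ ≤ ∑ k, ∑ j, |X l k j| :=
          Finset.single_le_sum (f := fun k => ∑ j, |X l k j|)
            (fun _ _ => Finset.sum_nonneg fun _ _ => abs_nonneg _) (mem_univ k)
      _ ≤ _ := Finset.single_le_sum (f := fun l => ∑ k, ∑ j, |X l k j|)
            (fun _ _ => Finset.sum_nonneg fun _ _ => Finset.sum_nonneg fun _ _ => abs_nonneg _)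
            (mem_univ l)
  set bad : ((ι → Option κ) × Finset (Fin d)) × (Fin d → ℕ) → Set (Fin d → ℝ) := fun p =>
    {θ | sz p.1.1 = p.1.2.card ∧ ∃ w : ι → ℝ, (∀ l, p.1.1 l = none → w l = 0) ∧
      ∑ l, w l = 1 ∧ ∀ j ∈ p.1.2, ∑ l, w l * pt X p.1.1 l j = (- R - δ + p.2 j * δ) + θ j}
    with hbad
  have hnull : (volume : Measure (Fin d → ℝ)) (⋃ p, bad p) = 0 := by
    refine measure_iUnion_null fun p => ?_
    by_cases hp : sz p.1.1 = p.1.2.card
    · refine measure_mono_null ?_ (bad_null X p.1.1 p.1.2 hp (fun j => - R - δ + p.2 j * δ))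
      rintro θ ⟨_, h⟩
      exact h
    · have e : bad p = ∅ := by
        ext θ
        simp [hbad, hp]
      rw [e]; simp
  have hpos : (0 : ENNReal) < volume (Set.pi Set.univ (fun _ : Fin d => Set.Ioo (0 : ℝ) δ)) := by
    rw [Real.volume_pi_Ioo]
    simp only [sub_zero]
    refine pos_iff_ne_zero.2 (Finset.prod_ne_zero_iff.2 fun i _ => ?_)
    simpa using hδ
  obtain ⟨θ, hθ1, hθ2⟩ : ∃ θ ∈ Set.pi Set.univ (fun _ : Fin d => Set.Ioo (0 : ℝ) δ),
      θ ∉ ⋃ p, bad p := by
    by_contra hcon
    push Not at hcon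
    have := measure_mono_null (μ := (volume : Measure (Fin d → ℝ))) hcon hnull
    rw [this] at hpos
    exact lt_irrefl _ hpos
  have hθ : ∀ i, 0 < θ i ∧ θ i < δ := fun i => hθ1 i (Set.mem_univ i)
  obtain ⟨M, hM⟩ := exists_nat_gt ((2 * R + 2 * δ) / δ)
  refine ⟨fun j a => (- R - δ + a * δ) + θ j, M, ?_, ?_, ?_, ?_⟩
  · intro i a b hab
    have : (a : ℝ) < b := by exact_mod_cast hab
    have := mul_lt_mul_of_pos_right this hδ
    show (- R - δ + a * δ) + θ i < (- R - δ + b * δ) + θ i
    linarith
  · intro t J hJ a w h1 h2 h3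
    exact hθ2 (Set.mem_iUnion.2 ⟨((t, J), a), hJ, w, h1, h2, h3⟩)
  · intro l k j
    have h1 := abs_le.1 (hR l k j)
    have h2 := hθ j
    rw [div_lt_iff₀ hδ] at hM
    show (- R - δ + ((0 : ℕ) : ℝ) * δ) + θ j < X l k j ∧ X l k j < (- R - δ + M * δ) + θ j
    constructor
    · rw [Nat.cast_zero]; linarith
    · linarith
  · intro i a
    show ((- R - δ + ((a + 1 : ℕ) : ℝ) * δ) + θ i) - ((- R - δ + a * δ) + θ i) ≤ δ
    push_cast
    linarith

/-- the reciprocal of the fraction in the selection lemma -/
def Kst (d : ℕ) : ℕ := (1 + 2 * d) * Cst d ^ d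

lemma Kst_pos (d : ℕ) : 1 ≤ Kst d := by
  unfold Kst
  exact Nat.one_le_iff_ne_zero.2 (Nat.mul_ne_zero (by omega)
    (pow_ne_zero _ (Nat.one_le_iff_ne_zero.1 (Cst_pos d))))

lemma sz_res (J : Finset ι) (j : ι → κ) : sz (res J j) = J.card := by
  unfold sz
  congr 1
  ext l
  rw [Finset.mem_filter, Ne, res_none_iff, not_not]
  simp

lemma box_vertex {c : Fin d → ℕ → ℝ} {f : Fin d → ℕ} (hf : dm f = 0) (y : Fin d → ℝ)
    (hy : y ∈ box c f) : y = fun j => c j (f j / 2) := by
  funext j
  refine box_even hy ?_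
  intro h
  unfold dm at hf
  rw [Finset.card_eq_zero, Finset.filter_eq_empty_iff] at hf
  exact hf (Finset.mem_univ j) h

open Classical in
/-- **A point in a positive fraction of the rainbow simplices.** -/
theorem positive_point {X : ι → κ → Fin d → ℝ} (hd : 1 ≤ d) (hι : Fintype.card ι = d + 1)
    (hX : GP X) (hn : 2 ^ (d + 1) * d * Kst d + 1 ≤ Fintype.card κ) :
    ∃ q : Fin d → ℝ, Fintype.card κ ^ (d + 1) ≤
      Kst d * (univ.filter fun j : ι → κ => q ∈ cv X (res univ j)).card := by
  set n := Fintype.card κ with hndef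
  have hn0 : 0 < n := by omega
  have hκ : Nonempty κ := Fintype.card_pos_iff.1 hn0
  by_contra hcon
  push Not at hcon
  obtain ⟨δ, hδ, hfine⟩ := exists_fine X
  obtain ⟨c, M, hc, hG, hin, hcδ⟩ := exists_grid X δ hδ
  set E : ℕ := (n ^ (d + 1) - 1) / Kst d with hE
  have hEK : E * Kst d ≤ n ^ (d + 1) - 1 := Nat.div_mul_le_self _ _
  have hnd : 1 ≤ n ^ (d + 1) := Nat.one_le_iff_ne_zero.2 (pow_ne_zero _ hn0.ne')
  have hvertex : ∀ q : Fin d → ℝ,
      (univ.filter fun j : ι → κ => q ∈ cv X (res univ j)).card ≤ E := by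
    intro q
    rw [hE, Nat.le_div_iff_mul_le (Kst_pos d)]
    have := hcon q
    rw [mul_comm] at this
    omega
  have hsmall : 2 ^ (d + 1) * (d * n ^ d) ≤ E := by
    rw [hE, Nat.le_div_iff_mul_le (Kst_pos d)]
    have h1 : (2 ^ (d + 1) * d * Kst d + 1) * n ^ d ≤ n ^ (d + 1) := by
      calc (2 ^ (d + 1) * d * Kst d + 1) * n ^ d ≤ n * n ^ d := Nat.mul_le_mul_right _ hn
        _ = n ^ (d + 1) := by ring
    have h2 : 1 ≤ n ^ d := Nat.one_le_iff_ne_zero.2 (pow_ne_zero _ hn0.ne')
    have h3 : (2 ^ (d + 1) * d * Kst d + 1) * n ^ d =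
        2 ^ (d + 1) * (d * n ^ d) * Kst d + n ^ d := by ring
    omega
  have hEall : ∀ f : Fin d → ℕ, (∀ i, f i ≤ 2 * M) → N (al X c f) ≤ E := by
    intro f _
    by_cases hf : dm f = 0
    · refine le_trans ?_ (hvertex (fun j => c j (f j / 2)))
      unfold N
      refine Finset.card_le_card_of_injOn (fun q => q.2) ?_ ?_
      · rintro ⟨J, j⟩ hq
        simp only [Finset.coe_filter, Finset.mem_univ, true_and, Set.mem_ofPred_eq] at hq ⊢
        unfold al at hq
        split_ifs at hq with h
        · obtain ⟨h1, y, hy1, hy2⟩ := h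
          rw [sz_res, hf, add_zero, ← hι] at h1
          rw [(Finset.card_eq_iff_eq_univ J).1 h1] at hy2
          rw [box_vertex hf y hy1] at hy2
          exact hy2
        · exact absurd rfl hq
      · rintro ⟨J, j⟩ hq ⟨J', j'⟩ hq' h
        have key : ∀ (J : Finset ι) (j : ι → κ), al X c f (res J j) ≠ 0 → J = univ := by
          intro J j hq
          unfold al at hq
          split_ifs at hq with h
          · have h1 := h.1
            rw [sz_res, hf, add_zero, ← hι] at h1
            exact (Finset.card_eq_iff_eq_univ J).1 h1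
          · exact absurd rfl hq
        simp only [Finset.coe_filter, Finset.mem_univ, true_and, Set.mem_ofPred_eq] at hq hq'
        have e1 := key J j hq
        have e2 := key J' j' hq'
        change j = j' at h
        rw [e1, e2, h]
    · refine le_trans ?_ hsmall
      obtain ⟨q, hq⟩ := hfine (box c f) (by
        intro y hy y' hy' j
        have h1 := hy j
        have h2 := hy' j
        have h3 : c j ((f j + 1) / 2) - c j (f j / 2) ≤ δ := by
          rcases Nat.even_or_odd (f j) with ⟨m, hm⟩ | ⟨m, hm⟩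
          · have e1 : (f j + 1) / 2 = f j / 2 := by omega
            rw [e1, sub_self]; exact hδ.le
          · have e1 : (f j + 1) / 2 = f j / 2 + 1 := by omega
            rw [e1]; exact hcδ j _
        rw [abs_le]
        constructor <;> linarith [h1.1, h1.2, h2.1, h2.2])
      have hsub : (univ.filter fun p : Finset ι × (ι → κ) => al X c f (res p.1 p.2) ≠ 0) ⊆
          (univ.filter fun J : Finset ι => J.card ≤ d).biUnion fun J =>
            (univ.filter fun j : ι → κ => q ∈ cv X (res J j)).image fun j => (J, j) := by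
        rintro ⟨J, j⟩ hp
        simp only [Finset.mem_filter, Finset.mem_univ, true_and] at hp
        unfold al at hp
        split_ifs at hp with h
        · simp only [Finset.mem_biUnion, Finset.mem_filter, Finset.mem_univ, true_and,
            Finset.mem_image]
          refine ⟨J, ?_, j, hq _ h.2, rfl⟩
          have := h.1
          rw [sz_res] at this
          omega
        · exact absurd rfl hp
      unfold N
      refine (Finset.card_le_card hsub).trans ?_
      refine Finset.card_biUnion_le.trans ?_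
      have hb : ∀ J ∈ (univ.filter fun J : Finset ι => J.card ≤ d),
          ((univ.filter fun j : ι → κ => q ∈ cv X (res J j)).image fun j => (J, j)).card ≤
            d * n ^ d := by
        intro J hJ
        rw [Finset.mem_filter] at hJ
        refine Finset.card_image_le.trans ((sparse hX hι q J hJ.2).trans ?_)
        exact Nat.mul_le_mul_right _ hJ.2
      refine (Finset.sum_le_card_nsmul _ _ _ hb).trans ?_
      rw [smul_eq_mul]
      refine Nat.mul_le_mul_right _ ?_
      refine (Finset.card_filter_le _ _).trans ?_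
      rw [Finset.card_univ, Fintype.card_finset, hι]
  have hfin := gromov hd hι hc hG M hin E hEall
  have h2 : (1 + 2 * d) * (Cst d ^ d * E) = E * Kst d := by unfold Kst; ring
  rw [h2, ← hndef] at hfin
  omega

end

end Pool.Agent.K3h91.Sel
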