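import Pool.Agent.K3h91.Sel.Gromov

/-!
General position, sparsity of the lower dimensional simplices through a point, existence of fine
grids in general position, and a point in a positive fraction of the rainbow simplices.
-/

set_option autoImplicit false
set_option linter.unusedSectionVars false

namespace Pool.Agent.K3h91.Sel

open Finset Filter Topology MeasureTheory

section

variable {ι κ : Type} [Fintype ι] [DecidableEq ι] [Fintype κ] [DecidableEq κ] {d : ℕ}

/-- general position: every affine dependency involves more than `d + 1` points -/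
def GP (X : ι → κ → Fin d → ℝ) : Prop :=
  ∀ μ : ι × κ → ℝ, (univ.filter fun v => μ v ≠ 0).card ≤ d + 1 → ∑ v, μ v = 0 →
    (∀ j, ∑ v, μ v * X v.1 v.2 j = 0) → μ = 0

lemma pt_res (X : ι → κ → Fin d → ℝ) (J : Finset ι) (j : ι → κ) (l : ι) (hl : l ∈ J) :
    pt X (res J j) l = X l (j l) := by
  simp [pt, res, hl]

lemma sum_pt_res (X : ι → κ → Fin d → ℝ) (J : Finset ι) (j : ι → κ) (w : ι → ℝ)
    (hw : ∀ l, res J j l = none → w l = 0) (i : Fin d) :
    ∑ l, w l * pt X (res J j) l i = ∑ l, w l * X l (j l) i := by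
  refine Finset.sum_congr rfl fun l _ => ?_
  by_cases hl : l ∈ J
  · rw [pt_res X J j l hl]
  · rw [hw l ((res_none_iff J j l).2 hl)]; simp

lemma mem_cv_res (X : ι → κ → Fin d → ℝ) (J : Finset ι) (j : ι → κ) (q : Fin d → ℝ) :
    q ∈ cv X (res J j) ↔ ∃ w : ι → ℝ, (∀ l, 0 ≤ w l) ∧ (∀ l, l ∉ J → w l = 0) ∧ ∑ l, w l = 1 ∧
      ∀ i, q i = ∑ l, w l * X l (j l) i := by
  constructor
  · rintro ⟨w, h0, h1, h2, h3⟩
    refine ⟨w, h0, fun l hl => h1 l ((res_none_iff J j l).2 hl), h2, fun i => ?_⟩
    rw [h3 i, sum_pt_res X J j w h1]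
  · rintro ⟨w, h0, h1, h2, h3⟩
    have h1' : ∀ l, res J j l = none → w l = 0 := fun l hl => h1 l ((res_none_iff J j l).1 hl)
    refine ⟨w, h0, h1', h2, fun i => ?_⟩
    rw [h3 i, sum_pt_res X J j w h1']

/-- the last vertex of a simplex through a point is determined by the others -/
lemma unique_vertex {X : ι → κ → Fin d → ℝ} (hX : GP X) (i : ι) (J : Finset ι)
    (hi : i ∉ J) (hJ : J.card + 1 ≤ d) (q : Fin d → ℝ) (j j' : ι → κ)
    (hjj : ∀ l, l ≠ i → j l = j' l)
    (h1 : q ∈ cv X (res (insert i J) j)) (h1' : q ∈ cv X (res (insert i J) j'))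
    (h2 : q ∉ cv X (res J j)) : j i = j' i := by
  classical
  by_contra hne
  rw [mem_cv_res] at h1 h1'
  obtain ⟨w, a0, a1, a2, a3⟩ := h1
  obtain ⟨w', b0, b1, b2, b3⟩ := h1'
  have hwi : w i ≠ 0 := by
    intro h
    apply h2
    rw [mem_cv_res]
    refine ⟨w, a0, ?_, a2, a3⟩
    intro l hl
    by_cases hli : l = i
    · rw [hli]; exact h
    · exact a1 l (by simp [hli, hl])
  set μ : ι × κ → ℝ := fun v => (if v.2 = j v.1 then w v.1 else 0) -
    (if v.2 = j' v.1 then w' v.1 else 0) with hμ
  have hsum : ∀ (u : ι → ℝ) (jj : ι → κ) (F : ι × κ → ℝ),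
      ∑ v : ι × κ, (if v.2 = jj v.1 then u v.1 else 0) * F v = ∑ l, u l * F (l, jj l) := by
    intro u jj F
    rw [Fintype.sum_prod_type]
    refine Finset.sum_congr rfl fun l _ => ?_
    rw [Finset.sum_eq_single (jj l)]
    · simp
    · intro k _ hk; simp [hk]
    · intro h; exact absurd (Finset.mem_univ _) h
  have hzero : μ = 0 := by
    refine hX μ ?_ ?_ ?_
    · have hsub : (univ.filter fun v => μ v ≠ 0) ⊆
          insert (i, j' i) ((insert i J).image fun l => (l, j l)) := by
        intro v hv
        rw [Finset.mem_filter] at hv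
        have hv2 := hv.2
        simp only [hμ] at hv2
        rw [Finset.mem_insert, Finset.mem_image]
        by_cases hvi : v.1 = i
        · by_cases hvj : v.2 = j v.1
          · right
            exact ⟨i, Finset.mem_insert_self _ _, by rw [← hvi, ← hvj]⟩
          · by_cases hvj' : v.2 = j' v.1
            · left
              rw [← hvi, ← hvj']
            · simp [hvj, hvj'] at hv2
        · by_cases hvJ : v.1 ∈ insert i J
          · right
            have e := hjj v.1 hvi
            by_cases hvj : v.2 = j v.1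
            · exact ⟨v.1, hvJ, by rw [← hvj]⟩
            · rw [if_neg hvj, if_neg (by rw [← e]; exact hvj)] at hv2
              simp at hv2
          · rw [a1 _ hvJ, b1 _ hvJ] at hv2
            simp at hv2
      refine (Finset.card_le_card hsub).trans ?_
      refine (Finset.card_insert_le _ _).trans ?_
      have h3 : ((insert i J).image fun l => (l, j l)).card ≤ (insert i J).card :=
        Finset.card_image_le
      rw [Finset.card_insert_of_notMem hi] at h3
      omega
    · have e1 := hsum w j (fun _ => 1)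
      have e2 := hsum w' j' (fun _ => 1)
      simp only [mul_one] at e1 e2
      simp only [hμ]
      rw [Finset.sum_sub_distrib, e1, e2, a2, b2, sub_self]
    · intro m
      simp only [hμ, sub_mul]
      rw [Finset.sum_sub_distrib, hsum w j (fun v => X v.1 v.2 m),
        hsum w' j' (fun v => X v.1 v.2 m), ← a3, ← b3, sub_self]
  have := congrFun hzero (i, j i)
  simp only [hμ, if_true, Pi.zero_apply] at this
  rw [if_neg hne, sub_zero] at this
  exact hwi this

open Classical in
/-- few lower dimensional simplices pass through a point -/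
lemma sparse {X : ι → κ → Fin d → ℝ} (hX : GP X) (hι : Fintype.card ι = d + 1) (q : Fin d → ℝ)
    (J : Finset ι) (hJ : J.card ≤ d) :
    (univ.filter fun j : ι → κ => q ∈ cv X (res J j)).card ≤ J.card * Fintype.card κ ^ d := by
  induction J using Finset.induction_on with
  | empty =>
    have : (univ.filter fun j : ι → κ => q ∈ cv X (res ∅ j)) = ∅ := by
      rw [Finset.filter_eq_empty_iff]
      intro j _ h
      rw [mem_cv_res] at h
      obtain ⟨w, _, h1, h2, _⟩ := h
      rw [Finset.sum_eq_zero (fun l _ => h1 l (by simp))] at h2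
      exact zero_ne_one h2
    rw [this]; simp
  | insert i J hi ih =>
    rw [Finset.card_insert_of_notMem hi] at hJ ⊢
    have hsub : (univ.filter fun j : ι → κ => q ∈ cv X (res (insert i J) j)) ⊆
        (univ.filter fun j : ι → κ => q ∈ cv X (res J j)) ∪
        (univ.filter fun j : ι → κ => q ∈ cv X (res (insert i J) j) ∧ q ∉ cv X (res J j)) := by
      intro j hj
      simp only [Finset.mem_filter, Finset.mem_univ, true_and, Finset.mem_union] at hj ⊢
      tauto
    refine (Finset.card_le_card hsub).trans ?_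
    refine (Finset.card_union_le _ _).trans ?_
    have h2 : (univ.filter fun j : ι → κ => q ∈ cv X (res (insert i J) j) ∧
        q ∉ cv X (res J j)).card ≤ Fintype.card κ ^ d := by
      have hcard : Fintype.card ({l : ι // l ≠ i} → κ) = Fintype.card κ ^ d := by
        rw [Fintype.card_fun]
        congr 1
        rw [Fintype.card_subtype_compl, hι, Fintype.card_subtype_eq]
        omega
      rw [← hcard, ← Finset.card_univ]
      refine Finset.card_le_card_of_injOn (fun j => fun l : {l : ι // l ≠ i} => j l.1)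
        (fun _ _ => Finset.mem_coe.2 (Finset.mem_univ _)) ?_
      intro j hj j' hj' h
      simp only [Finset.coe_filter, Finset.mem_univ, true_and, Set.mem_ofPred_eq] at hj hj'
      have hjj : ∀ l, l ≠ i → j l = j' l := fun l hl => congrFun h ⟨l, hl⟩
      funext l
      by_cases hl : l = i
      · rw [hl]
        exact unique_vertex hX i J hi hJ q j j' hjj hj.1 hj'.1 hj.2
      · exact hjj l hl
    have := ih (by omega)
    rw [add_mul, one_mul]
    exact Nat.add_le_add this h2

lemma isCompact_cv (X : ι → κ → Fin d → ℝ) (t : ι → Option κ) : IsCompact (cv X t) := by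
  set W : Set (ι → ℝ) := {w | (∀ l, 0 ≤ w l) ∧ (∀ l, t l = none → w l = 0) ∧ ∑ l, w l = 1} with hW
  have hWc : IsCompact W := by
    refine (isCompact_univ_pi (s := fun _ : ι => Set.Icc (0 : ℝ) 1)
      (fun _ => isCompact_Icc)).of_isClosed_subset ?_ ?_
    · have e : W = (⋂ l, {w | 0 ≤ w l}) ∩ ((⋂ l, ⋂ (_ : t l = none), {w | w l = 0}) ∩
          {w | ∑ l, w l = 1}) := by
        ext w; simp [hW]
      rw [e]
      refine IsClosed.inter ?_ (IsClosed.inter ?_ ?_)
      · exact isClosed_iInter fun l => isClosed_le continuous_const (continuous_apply l)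
      · exact isClosed_iInter fun l => isClosed_iInter fun _ =>
          isClosed_eq (continuous_apply l) continuous_const
      · exact isClosed_eq (continuous_finsetSum _ fun l _ => continuous_apply l) continuous_const
    · rintro w ⟨h0, _, h2⟩ l _
      refine ⟨h0 l, ?_⟩
      rw [← h2]
      exact Finset.single_le_sum (f := fun l => w l) (fun l _ => h0 l) (Finset.mem_univ l)
  have e : cv X t = (fun w : ι → ℝ => fun j : Fin d => ∑ l, w l * pt X t l j) '' W := by
    ext y
    constructor
    · rintro ⟨w, h0, h1, h2, h3⟩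
      exact ⟨w, ⟨h0, h1, h2⟩, (funext h3).symm⟩
    · rintro ⟨w, ⟨h0, h1, h2⟩, h3⟩
      exact ⟨w, h0, h1, h2, fun j => (congrFun h3 j).symm⟩
  rw [e]
  refine hWc.image ?_
  fun_prop

/-- a Lebesgue number for the family of simplices -/
lemma exists_fine (X : ι → κ → Fin d → ℝ) : ∃ δ : ℝ, 0 < δ ∧ ∀ B : Set (Fin d → ℝ),
    (∀ y ∈ B, ∀ y' ∈ B, ∀ j, |y j - y' j| ≤ δ) → ∃ q : Fin d → ℝ, ∀ t : ι → Option κ,
      (B ∩ cv X t).Nonempty → q ∈ cv X t := by
  classical
  set K : Set (Fin d → ℝ) := ⋃ t : ι → Option κ, cv X t with hK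
  have hKc : IsCompact K := isCompact_iUnion fun t => isCompact_cv X t
  have hr : ∀ q : Fin d → ℝ, ∃ r : ℝ, 0 < r ∧ ∀ t : ι → Option κ, q ∉ cv X t →
      Disjoint (Metric.ball q r) (cv X t) := by
    intro q
    set U : Set (Fin d → ℝ) := ⋂ t : {t : ι → Option κ // q ∉ cv X t}, (cv X t.1)ᶜ with hU
    have hUo : IsOpen U := isOpen_iInter_of_finite fun t => (isCompact_cv X t.1).isClosed.isOpen_compl
    have hqU : q ∈ U := by simp [hU]
    obtain ⟨r, hr, hrU⟩ := Metric.isOpen_iff.1 hUo q hqU
    refine ⟨r, hr, fun t ht => ?_⟩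
    rw [Set.disjoint_left]
    intro y hy hy2
    have := hrU hy
    simp only [hU, Set.mem_iInter] at this
    exact this ⟨t, ht⟩ hy2
  choose r hr0 hr1 using hr
  obtain ⟨δ, hδ, hcov⟩ := lebesgue_number_lemma_of_metric hKc
    (c := fun q : Fin d → ℝ => Metric.ball q (r q)) (fun q => Metric.isOpen_ball)
    (fun y _ => Set.mem_iUnion.2 ⟨y, Metric.mem_ball_self (hr0 y)⟩)
  refine ⟨δ / 2, by positivity, ?_⟩
  intro B hB
  by_cases hne : ∃ t : ι → Option κ, (B ∩ cv X t).Nonempty
  swap
  · push Not at hne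
    exact ⟨0, fun t ht => by rw [hne t] at ht; exact absurd ht Set.not_nonempty_empty⟩
  obtain ⟨t0, x, hxB, hx⟩ := hne
  obtain ⟨q, hq⟩ := hcov x (Set.mem_iUnion.2 ⟨t0, hx⟩)
  refine ⟨q, fun t ht => ?_⟩
  by_contra hqt
  obtain ⟨y, hyB, hyt⟩ := ht
  have hy : y ∈ Metric.ball x δ := by
    rw [Metric.mem_ball]
    refine lt_of_le_of_lt ((dist_pi_le_iff (by positivity : (0 : ℝ) ≤ δ / 2)).2 ?_) (half_lt_self hδ)
    intro j
    rw [Real.dist_eq]
    exact hB y hyB x hxB j
  exact Set.disjoint_left.1 (hr1 q t hqt) (hq hy) hyt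

lemma null_hyperplane (L : (Fin d → ℝ) →ₗ[ℝ] ℝ) (hL : L ≠ 0) (b : ℝ) :
    (volume : Measure (Fin d → ℝ)) {x | L x = b} = 0 := by
  by_cases hne : ∃ p, L p = b
  · obtain ⟨p, hp⟩ := hne
    have e : {x | L x = b} = (AffineSubspace.mk' p (LinearMap.ker L) : Set (Fin d → ℝ)) := by
      ext x
      rw [SetLike.mem_coe, AffineSubspace.mem_mk', LinearMap.mem_ker, vsub_eq_sub, map_sub, hp,
        sub_eq_zero]
      rfl
    rw [e]
    refine Measure.addHaar_affineSubspace _ _ ?_
    intro h
    have h1 := congrArg AffineSubspace.direction h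
    rw [AffineSubspace.direction_mk', AffineSubspace.direction_top, LinearMap.ker_eq_top] at h1
    exact hL h1
  · have e : {x | L x = b} = ∅ := by
      ext x
      simp only [Set.mem_ofPred_eq, Set.mem_empty_iff_false, iff_false]
      exact fun h => hne ⟨x, h⟩
    rw [e]; simp

end

end Pool.Agent.K3h91.Sel
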